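import Pool.Agent.Q14.NCH.Stmts

namespace Q14NCH

namespace TAcc

open Classical in
/-- the lowest level of the current side -/
noncomputable def lw (n : ℕ) (cor : ℕ → Prop) (u : ℕ → ℕ) : ℕ → ℕ
  | 0 => 0
  | j + 1 => if (j + 1 = n ∨ cor (j + 1)) then u (j + 1) else min (lw n cor u j) (u (j + 1))

theorem lw_le (n : ℕ) (cor : ℕ → Prop) (u : ℕ → ℕ) (j : ℕ) : lw n cor u j ≤ u j := by
  cases j with
  | zero => simp [lw]
  | succ j =>
    rw [lw]
    split_ifs
    · exact le_rfl
    · exact min_le_right _ _

theorem lw_ex (n : ℕ) (cor : ℕ → Prop) (u : ℕ → ℕ) (h0 : u 0 = 0) (j : ℕ) (hj : j < n) :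
    ∃ s, s ≤ j ∧ (∀ x, s < x → x ≤ j → ¬ cor x) ∧ u s = lw n cor u j := by
  induction j with
  | zero => exact ⟨0, le_rfl, fun x h1 h2 => by omega, by rw [lw, h0]⟩
  | succ j ih =>
    obtain ⟨s, hs, hc, hu⟩ := ih (by omega)
    by_cases hcor : (j + 1 = n ∨ cor (j + 1))
    · refine ⟨j + 1, le_rfl, fun x h1 h2 => by omega, ?_⟩
      rw [lw, if_pos hcor]
    · rcases le_total (lw n cor u j) (u (j + 1)) with h | h
      · refine ⟨s, by omega, ?_, ?_⟩
        · intro x h1 h2 hx
          rcases Nat.lt_or_ge j x with h3 | h3
          · have : x = j + 1 := by omega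
            subst this
            exact hcor (Or.inr hx)
          · exact hc x h1 h3 hx
        · rw [lw, if_neg hcor, min_eq_left h, hu]
      · refine ⟨j + 1, le_rfl, fun x h1 h2 => by omega, ?_⟩
        rw [lw, if_neg hcor, min_eq_right h]

theorem lw_min (n : ℕ) (cor : ℕ → Prop) (u : ℕ → ℕ) (j : ℕ) (hj : j < n) :
    ∀ a, a ≤ j → (∀ x, a < x → x ≤ j → ¬ cor x) → lw n cor u j ≤ u a := by
  induction j with
  | zero => intro a _ _; simp [lw]
  | succ j ih =>
    intro a ha hc
    rcases Nat.lt_or_ge j a with h | h
    · have : a = j + 1 := by omega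
      subst this
      exact lw_le n cor u (j + 1)
    · have hnc : ¬ (j + 1 = n ∨ cor (j + 1)) := by
        rintro (h1 | h1)
        · omega
        · exact hc (j + 1) (by omega) le_rfl h1
      rw [lw, if_neg hnc]
      exact le_trans (min_le_left _ _) (ih (by omega) a h (fun x h1 h2 => hc x h1 (by omega)))

theorem level (u : ℕ → ℕ) (hu : ∀ j, u (j + 1) ≤ u j + 1) (s m : ℕ) (hs : u s ≤ m) :
    ∀ j, s ≤ j → m ≤ u j → ∃ k, s ≤ k ∧ k ≤ j ∧ u k = m ∧ ∀ i, k ≤ i → i ≤ j → m ≤ u i := by
  intro j
  induction j with
  | zero =>
    intro h1 h2
    have : s = 0 := by omega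
    subst this
    exact ⟨0, le_rfl, le_rfl, le_antisymm hs h2, fun i _ hi => by
      have : i = 0 := by omega
      subst this
      exact h2⟩
  | succ j ih =>
    intro h1 h2
    rcases Nat.eq_or_lt_of_le h2 with h | h
    · exact ⟨j + 1, h1, le_rfl, h.symm, fun i h3 h4 => by
        have : i = j + 1 := by omega
        subst this
        exact h2⟩
    · have hsj : s ≠ j + 1 := by
        rintro rfl
        omega
      have := hu j
      obtain ⟨k, k1, k2, k3, k4⟩ := ih (by omega) (by omega)
      refine ⟨k, k1, by omega, k3, ?_⟩
      intro i h3 h4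
      rcases Nat.lt_or_ge j i with h5 | h5
      · have : i = j + 1 := by omega
        subst this
        exact h2
      · exact k4 i h3 h5

theorem side_iff (n : ℕ) (cor : ℕ → Prop) (u : ℕ → ℕ) (hS : Seq n u) :
    SideSeq n cor u ↔
      ∀ j, 0 ≤ j → j < n → (u (j + 1) = u j ∨ u (j + 1) = u j + 1 ∨ u (j + 1) < lw n cor u j) := by
  constructor
  · intro h j _ hj
    by_contra hcon
    push Not at hcon
    obtain ⟨c1, c2, c3⟩ := hcon
    have hup := hS.2.2 j
    obtain ⟨s, hs, hc, hus⟩ := lw_ex n cor u hS.1 j hj
    obtain ⟨k, k1, k2, k3, k4⟩ := level u hS.2.2 s (u (j + 1)) (by omega) j hs (by omega)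
    have := h k (j + 1) (by omega) (by omega) (fun x h1 h2 => hc x (by omega) (by omega)) k3
      (by
        intro i h1 h2
        rcases Nat.lt_or_ge j i with h5 | h5
        · have : i = j + 1 := by omega
          subst this
          omega
        · have := k4 i h1 h5
          omega) j k2 (by omega)
    omega
  · intro h a b
    induction b with
    | zero => intro h1; omega
    | succ j ih =>
      intro hab hbn hc hu hge k hk1 hk2
      have hj := h j (Nat.zero_le _) (by omega)
      have hlw := lw_min n cor u j (by omega) a (by omega) (fun x h1 h2 => hc x h1 (by omega))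
      have hja := hge j (by omega) (by omega)
      have hju : u j = u a := by omega
      rcases Nat.lt_or_ge a j with h1 | h1
      · rcases Nat.lt_or_ge j k with h2 | h2
        · have : k = j + 1 := by omega
          subst this
          omega
        · exact ih h1 (by omega) (fun x h1 h2 => hc x h1 (by omega)) hju.symm
            (fun i h1 h2 => hge i h1 (by omega)) k hk1 h2
      · rcases Nat.lt_or_ge j k with h2 | h2
        · have : k = j + 1 := by omega
          subst this
          omega
        · have : k = a := by omega
          rw [this]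

open Classical in
theorem acc_iff (n : ℕ) (cor : ℕ → Prop) (u : ℕ → ℕ) (hn : u n = 0) (m : ℕ) :
    ∀ i, i + m = n →
    (Acc ((List.range m).map fun j => decide (i + j + 1 = n ∨ cor (i + j + 1))) (u i) (lw n cor u i)
        ((List.range m).map fun j => u (i + j + 1)) ↔
      ∀ j, i ≤ j → j < n → (u (j + 1) = u j ∨ u (j + 1) = u j + 1 ∨ u (j + 1) < lw n cor u j)) := by
  induction m with
  | zero =>
    intro i hi
    have : i = n := by omega
    subst this
    simp only [List.range_zero, List.map_nil, Acc, hn, true_and, true_iff]
    intro j h1 h2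
    omega
  | succ m ih =>
    intro i hi
    have e1 : ((List.range (m + 1)).map fun j => decide (i + j + 1 = n ∨ cor (i + j + 1))) =
        decide (i + 1 = n ∨ cor (i + 1)) ::
          ((List.range m).map fun j => decide ((i + 1) + j + 1 = n ∨ cor ((i + 1) + j + 1))) := by
      rw [List.range_succ_eq_map, List.map_cons, List.map_map]
      congr 1
      apply List.map_congr_left
      intro j _
      simp only [Function.comp, Nat.succ_eq_add_one]
      rw [show i + (j + 1) + 1 = i + 1 + j + 1 by ring]
    have e2 : ((List.range (m + 1)).map fun j => u (i + j + 1)) =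
        u (i + 1) :: ((List.range m).map fun j => u ((i + 1) + j + 1)) := by
      rw [List.range_succ_eq_map, List.map_cons, List.map_map]
      congr 1
      apply List.map_congr_left
      intro j _
      simp only [Function.comp, Nat.succ_eq_add_one]
      rw [show i + (j + 1) + 1 = i + 1 + j + 1 by ring]
    rw [e1, e2]
    have key := ih (i + 1) (by omega)
    have hl := lw_le n cor u i
    have hlw : lw n cor u (i + 1) =
      if (i + 1 = n ∨ cor (i + 1)) then u (i + 1) else min (lw n cor u i) (u (i + 1)) := rfl
    have step : (Acc (decide (i + 1 = n ∨ cor (i + 1)) ::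
          ((List.range m).map fun j => decide ((i + 1) + j + 1 = n ∨ cor ((i + 1) + j + 1))))
          (u i) (lw n cor u i)
          (u (i + 1) :: ((List.range m).map fun j => u ((i + 1) + j + 1)))) ↔
        ((u (i + 1) = u i ∨ u (i + 1) = u i + 1 ∨ u (i + 1) < lw n cor u i) ∧
          Acc ((List.range m).map fun j => decide ((i + 1) + j + 1 = n ∨ cor ((i + 1) + j + 1)))
            (u (i + 1)) (lw n cor u (i + 1)) ((List.range m).map fun j => u ((i + 1) + j + 1))) := by
      rw [Acc]
      constructor
      · rintro ⟨v, ws, he, hh⟩
        obtain ⟨rfl, rfl⟩ := List.cons.inj he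
        rcases hh with ⟨h1, h2⟩ | ⟨h1, h2⟩
        · refine ⟨by tauto, ?_⟩
          have : lw n cor u (i + 1) =
              (if decide (i + 1 = n ∨ cor (i + 1)) = true then u (i + 1) else lw n cor u i) := by
            rw [hlw]
            by_cases hc : (i + 1 = n ∨ cor (i + 1))
            · simp [hc]
            · simp only [hc, if_false, decide_false, Bool.false_eq_true]
              exact min_eq_left (by omega)
          rw [this]
          exact h2
        · refine ⟨by tauto, ?_⟩
          have : lw n cor u (i + 1) = u (i + 1) := by
            rw [hlw]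
            split_ifs
            · rfl
            · exact min_eq_right h1.le
          rw [this]
          exact h2
      · rintro ⟨h1, h2⟩
        refine ⟨_, _, rfl, ?_⟩
        rcases h1 with h1 | h1 | h1
        · left
          refine ⟨Or.inl h1, ?_⟩
          have : lw n cor u (i + 1) =
              (if decide (i + 1 = n ∨ cor (i + 1)) = true then u (i + 1) else lw n cor u i) := by
            rw [hlw]
            by_cases hc : (i + 1 = n ∨ cor (i + 1))
            · simp [hc]
            · simp only [hc, if_false, decide_false, Bool.false_eq_true]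
              exact min_eq_left (by omega)
          rw [← this]
          exact h2
        · left
          refine ⟨Or.inr h1, ?_⟩
          have : lw n cor u (i + 1) =
              (if decide (i + 1 = n ∨ cor (i + 1)) = true then u (i + 1) else lw n cor u i) := by
            rw [hlw]
            by_cases hc : (i + 1 = n ∨ cor (i + 1))
            · simp [hc]
            · simp only [hc, if_false, decide_false, Bool.false_eq_true]
              exact min_eq_left (by omega)
          rw [← this]
          exact h2
        · right
          refine ⟨h1, ?_⟩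
          have : lw n cor u (i + 1) = u (i + 1) := by
            rw [hlw]
            split_ifs
            · rfl
            · exact min_eq_right h1.le
          rw [this] at h2
          exact h2
    rw [step, key]
    constructor
    · rintro ⟨h1, h2⟩ j hj1 hj2
      rcases Nat.eq_or_lt_of_le hj1 with h | h
      · subst h
        exact h1
      · exact h2 j h hj2
    · intro h
      exact ⟨h i le_rfl (by omega), fun j hj1 hj2 => h j (by omega) hj2⟩

end TAcc

theorem Acc_proof : TaskAcc := by
  classical
  intro n cor u _ hS
  rw [TAcc.side_iff n cor u hS]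
  have h0 := hS.1
  have hn := hS.2.1 n le_rfl
  have := TAcc.acc_iff n cor u hn n 0 (by omega)
  rw [h0] at this
  have hl : TAcc.lw n cor u 0 = 0 := rfl
  rw [hl] at this
  rw [← this]
  unfold pattern
  simp only [Nat.zero_add]

end Q14NCH
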