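import Pool.Agent.Q14.NCH.Stmts

set_option autoImplicit false

namespace Q14NCH

private theorem TaskAccSeq_aux (cs : List Bool) : ∀ (u l : ℕ) (vs : List ℕ), l ≤ u → Acc cs u l vs →
    ∃ f : ℕ → ℕ, f 0 = u ∧ (∀ j, cs.length ≤ j → f j = 0) ∧ (∀ j, f (j + 1) ≤ f j + 1) ∧
      vs = (List.range cs.length).map fun j => f (j + 1) := by
  induction cs with
  | nil =>
    intro u l vs _ h
    obtain ⟨h1, h2⟩ := h
    exact ⟨fun _ => 0, h1.symm, fun _ _ => rfl, fun _ => by simp, by simpa using h2⟩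
  | cons c cs ih =>
    intro u l vs hl h
    obtain ⟨v, ws, hvs, h⟩ := h
    have key : v ≤ u + 1 ∧ ∃ f : ℕ → ℕ, f 0 = v ∧ (∀ j, cs.length ≤ j → f j = 0) ∧
        (∀ j, f (j + 1) ≤ f j + 1) ∧ ws = (List.range cs.length).map fun j => f (j + 1) := by
      rcases h with ⟨hv, h⟩ | ⟨hv, h⟩
      · refine ⟨by omega, ih v _ ws ?_ h⟩
        split_ifs <;> omega
      · exact ⟨by omega, ih v v ws le_rfl h⟩
    obtain ⟨hv, f, h0, h1, h2, h3⟩ := key
    refine ⟨fun j => Nat.casesOn j u f, rfl, ?_, ?_, ?_⟩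
    · intro j hj
      cases j with
      | zero => simp at hj
      | succ j => exact h1 j (by simpa using hj)
    · intro j
      cases j with
      | zero => change f 0 ≤ u + 1; omega
      | succ j => exact h2 j
    · rw [hvs, h3, List.length_cons, List.range_succ_eq_map, List.map_cons, List.map_map]
      congr 1
      · exact h0.symm

theorem AccSeq : TaskAccSeq := by
  intro n cor vs _ h
  obtain ⟨f, h0, h1, h2, h3⟩ := TaskAccSeq_aux _ 0 0 vs le_rfl h
  have hlen : (pattern n cor).length = n := by simp [pattern]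
  rw [hlen] at h1 h3
  exact ⟨f, ⟨h0, h1, h2⟩, h3⟩

end Q14NCH
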