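import Pool.Agent.Q14.NCH.Stmts

namespace Q14NCH
namespace AlgH

open Polynomial

/-- the values of one side -/
def V (x y : ℤ) : ℕ → (ℕ → ℤ) → ℕ → ℕ → ℤ
  | 0, g, u, _ => g u
  | s + 1, g, u, l => y * V x y s g u l + x * V x y s g (u + 1) l +
      y * ∑ i ∈ Finset.range l, V x y s g i i

def E (x y : ℤ) (g : ℕ → ℤ) (u : ℕ) : ℕ → ℤ
  | 0 => 0
  | s + 1 => (x + y) * E x y g u s + y * V x y s g u u

lemma V_sub (x y : ℤ) (g : ℕ → ℤ) (u : ℕ) (s : ℕ) : ∀ k,
    V x y s g k (u + 1) - V x y s g k u = E x y g u s := by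
  induction s with
  | zero => intro k; simp [V, E]
  | succ s ih =>
    intro k
    simp only [V, E, Finset.sum_range_succ]
    have h1 := ih k
    have h2 := ih (k + 1)
    rw [← h1]
    have h3 : V x y s g (k + 1) (u + 1) - V x y s g (k + 1) u = V x y s g k (u + 1) - V x y s g k u := by
      rw [h1, h2]
    linear_combination x * h3

/-- the operator of one gap -/
def A (x y : ℤ) : (ℕ → ℤ) →ₗ[ℤ] (ℕ → ℤ) where
  toFun h := fun u => y * h u + x * h (u + 1) + y * ∑ i ∈ Finset.range u, h i
  map_add' f g := by
    funext u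
    simp only [Pi.add_apply, Finset.sum_add_distrib]
    ring
  map_smul' c f := by
    funext u
    simp only [Pi.smul_apply, smul_eq_mul, RingHom.id_apply, ← Finset.mul_sum]
    ring

lemma T_succ (x y : ℤ) (g : ℕ → ℤ) (s u : ℕ) :
    V x y (s + 1) g u u = A x y (fun i => V x y s g i i) u - x * E x y g u s := by
  rw [← V_sub x y g u s (u + 1)]
  simp only [V, A, LinearMap.coe_mk, AddHom.coe_mk]
  ring

/-- the polynomials -/
noncomputable def QR : ℕ → ℤ[X] × ℤ[X]
  | 0 => (1, 0)
  | s + 1 => (X * (QR s).1 - (QR s).2, 3 * (QR s).2 + 2 * (QR s).1)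

lemma QR_zero (s : ℕ) : (QR s).1.eval 0 = 2 - 2 ^ s ∧ (QR s).2.eval 0 = 2 ^ (s + 1) - 2 := by
  induction s with
  | zero => simp [QR]
  | succ s ih =>
    obtain ⟨h1, h2⟩ := ih
    constructor
    · simp only [QR, eval_sub, eval_mul, eval_X, h2]
      ring
    · simp only [QR, eval_add, eval_mul, eval_ofNat, h1, h2]
      ring

/-- the side operators are polynomials in the operator of one gap; `c` is `1` for `(1, 2)`, `2` for `(2, 1)` -/
lemma T_eq (x y : ℤ) (hx : x + y = 3) (hxy : x * y = 2) (g : ℕ → ℤ) (s : ℕ) :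
    (fun u => V x y s g u u) = aeval (A x y) (QR s).1 g ∧
    (fun u => x * E x y g u s) = aeval (A x y) (QR s).2 g := by
  induction s with
  | zero =>
    constructor
    · simp [QR, V]
    · simp [QR, E]
      rfl
  | succ s ih =>
    obtain ⟨h1, h2⟩ := ih
    constructor
    · have : (fun u => V x y (s + 1) g u u) = A x y (fun i => V x y s g i i) - fun u => x * E x y g u s := by
        funext u
        rw [T_succ]
        rfl
      rw [this, h1, h2]
      simp [QR, Module.End.mul_apply]
    · have : (fun u => x * E x y g u (s + 1)) = (3 : ℤ) • (fun u => x * E x y g u s) +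
          (2 : ℤ) • fun u => V x y s g u u := by
        funext u
        simp only [E, Pi.add_apply, Pi.smul_apply, smul_eq_mul]
        rw [← hx, ← hxy]
        ring
      rw [this, h1, h2]
      have h3 : (3 : ℤ[X]) = C 3 := by simp
      have h4 : (2 : ℤ[X]) = C 2 := by simp
      simp only [QR]
      rw [h3, h4, map_add, map_mul, map_mul, aeval_C, aeval_C]
      simp [Module.End.mul_apply, LinearMap.add_apply]

def δ : ℕ → ℤ := fun u => if u = 0 then 1 else 0

lemma V_delta (x y : ℤ) (s : ℕ) : ∀ u, V x y s δ u 0 = if u = 0 then y ^ s else 0 := by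
  induction s with
  | zero => intro u; simp [V, δ]
  | succ s ih =>
    intro u
    simp only [V, ih, Finset.range_zero, Finset.sum_empty]
    by_cases h : u = 0
    · simp [h, pow_succ]; ring
    · simp [h]

lemma span_top : Submodule.span ℤ (Set.range fun s => (QR s).1) = ⊤ := by
  set M := Submodule.span ℤ (Set.range fun s => (QR s).1) with hM
  have hQ : ∀ s, (QR s).1 ∈ M := fun s => Submodule.subset_span ⟨s, rfl⟩
  have hR : ∀ s, (QR s).2 ∈ M := by
    intro s
    induction s with
    | zero => simp [QR]
    | succ s ih =>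
      have : (QR (s + 1)).2 = (3 : ℤ) • (QR s).2 + (2 : ℤ) • (QR s).1 := by
        simp only [QR, zsmul_eq_mul]
        push_cast
        ring
      rw [this]
      exact M.add_mem (M.smul_mem _ ih) (M.smul_mem _ (hQ s))
  have hX : ∀ F ∈ M, X * F ∈ M := by
    intro F hF
    refine Submodule.span_induction ?_ ?_ ?_ ?_ hF
    · rintro _ ⟨s, rfl⟩
      have : X * (QR s).1 = (QR (s + 1)).1 + (QR s).2 := by
        simp [QR]
      simp only
      rw [this]
      exact M.add_mem (hQ _) (hR _)
    · simp
    · intro a b _ _ ha hb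
      rw [mul_add]
      exact M.add_mem ha hb
    · intro c a _ ha
      rw [mul_smul_comm]
      exact M.smul_mem _ ha
  rw [Submodule.eq_top_iff']
  intro F
  induction F using Polynomial.induction_on with
  | C a =>
    have : (C a : ℤ[X]) = a • (QR 0).1 := by simp [QR]
    rw [this]
    exact M.smul_mem _ (hQ 0)
  | add f g hf hg => exact M.add_mem hf hg
  | monomial n a h =>
    have : (C a * X ^ (n + 1) : ℤ[X]) = X * (C a * X ^ n) := by ring
    rw [this]
    exact hX _ h

/-- the functional -/
lemma functional (F : ℤ[X]) :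
    aeval (A 1 2) F δ 0 - 2 * aeval (A 2 1) F δ 0 = - F.eval 0 := by
  have hF : F ∈ Submodule.span ℤ (Set.range fun s => (QR s).1) := by rw [span_top]; trivial
  refine Submodule.span_induction ?_ ?_ ?_ ?_ hF
  · rintro _ ⟨s, rfl⟩
    simp only
    rw [← (T_eq 1 2 (by norm_num) (by norm_num) δ s).1, ← (T_eq 2 1 (by norm_num) (by norm_num) δ s).1,
      (QR_zero s).1]
    change V 1 2 s δ 0 0 - 2 * V 2 1 s δ 0 0 = -(2 - 2 ^ s)
    rw [V_delta, V_delta]
    simp
  · simp
  · intro a b _ _ ha hb
    simp only [map_add, LinearMap.add_apply, Pi.add_apply, eval_add] at *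
    linarith
  · intro c a _ ha
    simp only [map_smul, LinearMap.smul_apply, Pi.smul_apply, smul_eq_mul, eval_smul] at *
    linear_combination c * ha

/-- number of gaps of the first side -/
def first : List Bool → ℕ
  | [] => 0
  | true :: _ => 1
  | false :: cs => first cs + 1

def Ok : List Bool → Prop
  | [] => True
  | true :: cs => first cs ≠ 1 ∧ Ok cs
  | false :: cs => Ok cs

lemma QR_ne (s : ℕ) (hs : s ≠ 1) : (QR s).1.eval 0 ≠ 0 := by
  rw [(QR_zero s).1]
  rcases s with _ | _ | s
  · norm_num
  · exact absurd rfl hs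
  · have : (2 : ℤ) ^ s ≥ 1 := one_le_pow₀ (by norm_num)
    rw [pow_succ, pow_succ]
    omega

lemma main (cs : List Bool) (h : Ok cs) : ∃ F : ℤ[X], F.eval 0 ≠ 0 ∧
    ∀ x y : ℤ, x + y = 3 → x * y = 2 → ∀ u l,
      W x y cs u l = V x y (first cs) (aeval (A x y) F δ) u l := by
  induction cs with
  | nil =>
    refine ⟨1, by simp, fun x y _ _ u l => ?_⟩
    simp [W, V, first, δ]
  | cons c cs ih =>
    cases c with
    | false =>
      obtain ⟨F, hF, hW⟩ := ih h
      refine ⟨F, hF, fun x y h1 h2 u l => ?_⟩
      simp only [W, V, first, hW x y h1 h2]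
      simp
    | true =>
      obtain ⟨F, hF, hW⟩ := ih h.2
      refine ⟨(QR (first cs)).1 * F, ?_, fun x y h1 h2 u l => ?_⟩
      · rw [eval_mul]
        exact mul_ne_zero (QR_ne _ h.1) hF
      · have e := (T_eq x y h1 h2 (aeval (A x y) F δ) (first cs)).1
        rw [map_mul, Module.End.mul_apply, ← e]
        simp only [W, V, first, hW x y h1 h2]
        simp

lemma final (cs : List Bool) (h : Ok cs) (h1 : first cs ≠ 1) : W 1 2 cs 0 0 ≠ 2 * W 2 1 cs 0 0 := by
  obtain ⟨F, hF, hW⟩ := main cs h
  intro hcon
  have e1 := hW 1 2 (by norm_num) (by norm_num) 0 0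
  have e2 := hW 2 1 (by norm_num) (by norm_num) 0 0
  have f1 : V 1 2 (first cs) (aeval (A 1 2) F δ) 0 0 = _ :=
    congrFun (T_eq 1 2 (by norm_num) (by norm_num) (aeval (A 1 2) F δ) (first cs)).1 0
  have f2 : V 2 1 (first cs) (aeval (A 2 1) F δ) 0 0 = _ :=
    congrFun (T_eq 2 1 (by norm_num) (by norm_num) (aeval (A 2 1) F δ) (first cs)).1 0
  rw [e1, e2, f1, f2] at hcon
  have g := functional ((QR (first cs)).1 * F)
  rw [map_mul, map_mul, Module.End.mul_apply, Module.End.mul_apply, hcon, eval_mul] at g
  have := mul_ne_zero (QR_ne _ h1) hF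
  apply this
  linarith

end AlgH

open AlgH in
open Classical in
theorem Alg : TaskAlg := by
  intro n cor hn hcor
  have key : ∀ k, k ≤ n → ∀ cs, cs = ((List.range n).drop (n - k)).map
      (fun j => decide (j + 1 = n ∨ cor (j + 1))) →
      Ok cs ∧ (first cs = 1 → 1 ≤ k ∧ (n - k + 1 = n ∨ cor (n - k + 1))) := by
    intro k
    induction k with
    | zero =>
      intro _ cs hcs
      have : cs = [] := by
        rw [hcs]; simp
      subst this
      exact ⟨trivial, fun h => by simp [first] at h⟩
    | succ k ih =>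
      intro hk cs hcs
      have hlt : n - (k + 1) < (List.range n).length := by simp; omega
      rw [List.drop_eq_getElem_cons hlt, List.map_cons] at hcs
      have e : n - (k + 1) + 1 = n - k := by omega
      rw [e] at hcs
      rw [List.getElem_range] at hcs
      obtain ⟨ih1, ih2⟩ := ih (by omega) _ rfl
      rw [e] at hcs ⊢
      by_cases hc : n - k = n ∨ cor (n - k)
      · have : decide (n - k = n ∨ cor (n - k)) = true := by simpa using hc
        rw [this] at hcs
        rw [hcs]
        refine ⟨⟨fun h1 => ?_, ih1⟩, fun _ => ⟨by omega, hc⟩⟩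
        obtain ⟨hk1, hk2⟩ := ih2 h1
        refine hcor (n - k) (by omega) ⟨?_, hk2⟩
        rcases hc with hc | hc
        · omega
        · exact Or.inr hc
      · have : decide (n - k = n ∨ cor (n - k)) = false := by simpa using hc
        rw [this] at hcs
        rw [hcs]
        refine ⟨ih1, fun h1 => ?_⟩
        exfalso
        simp only [first] at h1
        -- the rest is empty, so `k = 0` and the status of `n` is true
        rcases Nat.eq_zero_or_pos k with h0 | h0
        · subst h0
          exact hc (Or.inl (by omega))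
        · have hlt' : n - k < (List.range n).length := by simp; omega
          rw [List.drop_eq_getElem_cons hlt', List.map_cons] at h1
          cases hd : decide ((List.range n)[n - k] + 1 = n ∨ cor ((List.range n)[n - k] + 1)) <;>
            rw [hd] at h1 <;> simp [first] at h1
  obtain ⟨h1, h2⟩ := key n le_rfl (pattern n cor) (by
    unfold pattern
    simp)
  refine final _ h1 (fun h => ?_)
  obtain ⟨-, h4⟩ := h2 h
  refine hcor 0 hn ⟨Or.inl rfl, ?_⟩
  simpa using h4

end Q14NCH
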