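import Mathlib

/-! MP_f3bbeb_co: blueprint. Prove `theorem X : TaskX` (file `Pool/Agent/Q14/NCH/TaskX.lean`,
namespace `Q14NCH`, `import Pool.Agent.Q14.NCH.Stmts`). Tasks named as a hypothesis `TaskY →` may be used. -/

namespace Q14NCH

noncomputable section

/-! ## Posets -/

/-- graded of rank `N`: every maximal chain has `N + 1` elements -/
def IsGraded (α : Type) [PartialOrder α] (N : ℕ) : Prop :=
  ∀ c : Set α, IsMaxChain (· ≤ ·) c → c.ncard = N + 1

/-- in some maximal chain through `x` exactly `i` elements are below `x` -/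
def HasRank {α : Type} [PartialOrder α] (x : α) (i : ℕ) : Prop :=
  ∃ c : Set α, IsMaxChain (· ≤ ·) c ∧ x ∈ c ∧ {y | y ∈ c ∧ y < x}.ncard = i

/-- rank symmetric -/
def RankSymmetric (α : Type) [PartialOrder α] : Prop :=
  ∃ N : ℕ, IsGraded α N ∧
    ∀ i, i ≤ N → {x : α | HasRank x i}.ncard = {x : α | HasRank x (N - i)}.ncard

/-- In a finite graded poset with least element, if `f` is strictly monotone, `f ⊥ = 0` and every `x ≠ ⊥` has a
`y < x` with `f y + 1 = f x`, then the rank is `f`. Hint: `z_0 < ... < z_{f x} = x` with `f (z_i) = i`, together with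
the elements `≥ x` of the maximal chain `c`, is again a maximal chain. -/
def TaskGraded : Prop :=
  ∀ (α : Type) [PartialOrder α] [Finite α] [OrderBot α] (f : α → ℕ) (N : ℕ),
    StrictMono f → f ⊥ = 0 → (∀ x, x ≠ ⊥ → ∃ y, y < x ∧ f y + 1 = f x) → IsGraded α N →
    ∀ (x : α) (c : Set α), IsMaxChain (· ≤ ·) c → x ∈ c → {y | y ∈ c ∧ y < x}.ncard = f x

/-- consequence of `TaskGraded`: if the poset is rank symmetric then the sizes of the levels of `f` are symmetric -/
def TaskRankCount : Prop :=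
  TaskGraded →
  ∀ (α : Type) [PartialOrder α] [Finite α] [OrderBot α] [OrderTop α] (f : α → ℕ),
    StrictMono f → f ⊥ = 0 → (∀ x, x ≠ ⊥ → ∃ y, y < x ∧ f y + 1 = f x) → RankSymmetric α →
    ∀ i, i ≤ f ⊤ → {x : α | f x = i}.ncard = {x : α | f x = f ⊤ - i}.ncard

/-! ## Noncrossing partitions of points in the plane -/

abbrev Plane := ℝ × ℝ

/-- twice the signed area of the triangle `abc` -/
def orient (a b c : Plane) : ℝ := (b.1 - a.1) * (c.2 - a.2) - (b.2 - a.2) * (c.1 - a.1)

/-- the convex hull of the points with indices in `A` -/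
def hull {n : ℕ} (p : Fin n → Plane) (A : Finset (Fin n)) : Set Plane :=
  convexHull ℝ (p '' (A : Set (Fin n)))

/-- noncrossing partitions: the blocks have pairwise disjoint convex hulls -/
abbrev NC {n : ℕ} (p : Fin n → Plane) : Type :=
  {π : Finpartition (Finset.univ : Finset (Fin n)) //
    ∀ A ∈ π.parts, ∀ B ∈ π.parts, A ≠ B → Disjoint (hull p A) (hull p B)}

/-- some point of a finite set is not in the convex hull of the others (extreme points, Krein-Milman, or the
maximum of a lexicographic order) -/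
def TaskShell : Prop :=
  ∀ (n : ℕ) (p : Fin n → Plane), Function.Injective p → ∀ A : Finset (Fin n), A.Nonempty →
    ∃ a ∈ A, p a ∉ hull p (A.erase a)

/-- split off one point of a block with at least two elements -/
def TaskSplit : Prop :=
  TaskShell → ∀ (n : ℕ) (p : Fin (n + 1) → Plane), Function.Injective p → ∀ π : NC p,
    π.1.parts.card ≠ n + 1 → ∃ σ : NC p, σ < π ∧ σ.1.parts.card = π.1.parts.card + 1

/-- the least and the greatest element, strict monotonicity: `π < σ` implies that `σ` has fewer blocks -/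
def TaskPoset : Prop :=
  ∀ (n : ℕ) (p : Fin (n + 1) → Plane), Function.Injective p →
    (∃ b : NC p, (∀ π, b ≤ π) ∧ b.1.parts.card = n + 1) ∧ (∃ t : NC p, (∀ π, π ≤ t) ∧ t.1.parts.card = 1) ∧
    (∀ π : NC p, 1 ≤ π.1.parts.card ∧ π.1.parts.card ≤ n + 1) ∧
    (∀ π σ : NC p, π < σ → σ.1.parts.card < π.1.parts.card)

/-- assembly: if `NC p` is rank symmetric then the numbers of partitions with `i + 1` and `n + 1 - i` blocks agree -/
def TaskRankNC : Prop :=
  TaskRankCount → TaskGraded → TaskSplit → TaskShell → TaskPoset →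
  ∀ (n : ℕ) (p : Fin (n + 1) → Plane), Function.Injective p → RankSymmetric (NC p) →
    ∀ i, i ≤ n → {π : NC p | π.1.parts.card = i + 1}.ncard = {π : NC p | π.1.parts.card = n + 1 - i}.ncard

/-! ## Hull configurations, as cyclic sequences `q 0, ..., q (n - 1), q n = q 0` -/

/-- hull configuration, listed counterclockwise, not collinear, starting at a vertex -/
structure Hull (n : ℕ) (q : ℕ → Plane) : Prop where
  inj : ∀ i j, i < n → j < n → q i = q j → i = j
  wrap : q n = q 0
  pos : ∀ i j k, i < j → j < k → k < n → 0 ≤ orient (q i) (q j) (q k)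
  vertex : q 0 ∉ convexHull ℝ (q '' Set.Ioo 0 n)
  line : ∃ i j k, i < j ∧ j < k ∧ k < n ∧ orient (q i) (q j) (q k) ≠ 0

/-- `q j` is a corner of the polygon (`1 ≤ j ≤ n - 1`) -/
def Corner (q : ℕ → Plane) (j : ℕ) : Prop := 0 < orient (q (j - 1)) (q j) (q (j + 1))

/-- position of three collinear points, given a point `q m` outside their line. Hint: write the middle one as
`x + t (y - x)` and read off `t` from the signs of the three determinants with `q m`. -/
def TaskBetw : Prop :=
  ∀ n q, Hull n q → ∀ i j k m, i < j → j < k → k < n → m < n → orient (q i) (q j) (q k) = 0 →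
    orient (q i) (q j) (q m) ≠ 0 →
    ((m < i ∨ k < m) → q j ∈ segment ℝ (q i) (q k)) ∧
    (i < m → m < j → q k ∈ segment ℝ (q i) (q j)) ∧
    (j < m → m < k → q i ∈ segment ℝ (q j) (q k))

/-- if all indices strictly between are no corners, then the points between are on the segment -/
def TaskSeg1 : Prop :=
  TaskBetw → ∀ n q, Hull n q → ∀ a b c, a < b → b < n → c < n →
    ((a < c ∧ c < b ∧ ∀ j, a < j → j < b → ¬ Corner q j) ∨ (a = 0 ∧ b < c ∧ ∀ j, b < j → j < n → ¬ Corner q j)) →
    q c ∈ segment ℝ (q a) (q b)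

/-- the converse. Hint: let `m` be an index outside the line; by `TaskBetw` and injectivity `m` must be outside
`[a, b]` if `a < c < b`, so all of `(a, b)` is on the line; if `c` is outside `[a, b]` then all `m` are in `(a, b)`,
so `q 0` is on the line, and `q 0` would be between two others unless `a = 0`. -/
def TaskSeg2 : Prop :=
  TaskBetw → ∀ n q, Hull n q → ∀ a b c, a < b → b < n → c < n → c ≠ a → c ≠ b →
    q c ∈ segment ℝ (q a) (q b) →
    ((a < c ∧ c < b ∧ ∀ j, a < j → j < b → ¬ Corner q j) ∨ (a = 0 ∧ b < c ∧ ∀ j, b < j → j < n → ¬ Corner q j))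

/-- crossing diagonals meet -/
def TaskCross : Prop :=
  ∀ n q, Hull n q → ∀ a b c d, a < b → b < c → c < d → d < n →
    ¬ Disjoint (segment ℝ (q a) (q c)) (segment ℝ (q b) (q d))

/-- faces: a point in both convex hulls lies in the hulls of the points where the separating function vanishes -/
def TaskFace : Prop :=
  ∀ (q : ℕ → Plane) (A B : Finset ℕ) (u v x : Plane),
    (∀ a ∈ A, 0 ≤ orient u v (q a)) → (∀ b ∈ B, orient u v (q b) ≤ 0) →
    x ∈ convexHull ℝ (q '' (A : Set ℕ)) → x ∈ convexHull ℝ (q '' (B : Set ℕ)) →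
    x ∈ convexHull ℝ (q '' {a | a ∈ A ∧ orient u v (q a) = 0}) ∧
    x ∈ convexHull ℝ (q '' {b | b ∈ B ∧ orient u v (q b) = 0})

/-- points on a line: if the convex hulls meet then a point of one set is on a segment of the other -/
def TaskLine : Prop :=
  ∀ (q : ℕ → Plane) (A B : Finset ℕ) (u v x : Plane), u ≠ v →
    (∀ a ∈ A, orient u v (q a) = 0) → (∀ b ∈ B, orient u v (q b) = 0) →
    x ∈ convexHull ℝ (q '' (A : Set ℕ)) → x ∈ convexHull ℝ (q '' (B : Set ℕ)) →
    (∃ a ∈ A, ∃ c ∈ A, ∃ b ∈ B, q b ∈ segment ℝ (q a) (q c)) ∨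
    (∃ b ∈ B, ∃ d ∈ B, ∃ a ∈ A, q a ∈ segment ℝ (q b) (q d))

/-- `A` and `B` do not cross -/
def NoCross (A B : Finset ℕ) : Prop :=
  (∀ a ∈ A, ∀ b ∈ B, ∀ c ∈ A, ∀ d ∈ B, ¬ (a < b ∧ b < c ∧ c < d)) ∧
  (∀ a ∈ A, ∀ b ∈ B, ∀ c ∈ A, ∀ d ∈ B, ¬ (b < a ∧ a < d ∧ d < c))

/-- `B` lies in an arc between two consecutive elements of `A` -/
def TaskArc : Prop :=
  ∀ A B : Finset ℕ, Disjoint A B → A.Nonempty → NoCross A B →
    (∃ a ∈ A, ∃ a' ∈ A, a < a' ∧ (∀ x ∈ A, x ≤ a ∨ a' ≤ x) ∧ ∀ b ∈ B, a < b ∧ b < a') ∨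
    (∃ a ∈ A, ∃ a' ∈ A, a ≤ a' ∧ (∀ x ∈ A, a ≤ x ∧ x ≤ a') ∧ ∀ b ∈ B, b < a ∨ a' < b)

/-- two sets which do not cross and have no point on a segment of the other have disjoint hulls -/
def TaskSep : Prop :=
  TaskArc → TaskFace → TaskLine → ∀ n q, Hull n q → ∀ A B : Finset ℕ, Disjoint A B → A.Nonempty → B.Nonempty →
    (∀ a ∈ A, a < n) → (∀ b ∈ B, b < n) → NoCross A B →
    (∀ a ∈ A, ∀ c ∈ A, ∀ b ∈ B, q b ∉ segment ℝ (q a) (q c)) →
    (∀ b ∈ B, ∀ d ∈ B, ∀ a ∈ A, q a ∉ segment ℝ (q b) (q d)) →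
    Disjoint (convexHull ℝ (q '' (A : Set ℕ))) (convexHull ℝ (q '' (B : Set ℕ)))

/-- no blank side: if all points are on the left of the line through two points, there is a third one on it -/
def NoBlank (n : ℕ) (q : ℕ → Plane) : Prop :=
  ∀ a b, a < n → b < n → a ≠ b → (∀ c, c < n → 0 ≤ orient (q a) (q b) (q c)) →
    ∃ c, c < n ∧ c ≠ a ∧ c ≠ b ∧ orient (q a) (q b) (q c) = 0

/-- two neighbours are not both corners (index `0`, that is `n`, counts as a corner). Hint: otherwise the line
through them contains no other point. -/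
def TaskBlank : Prop :=
  TaskBetw → TaskSeg2 → ∀ n q, Hull n q → NoBlank n q → ∀ j, j < n →
    ¬ ((j = 0 ∨ Corner q j) ∧ (j + 1 = n ∨ Corner q (j + 1)))

/-! ## Relations and sequences of levels -/

/-- the sequences of levels: `u 0 = 0`, the level goes up by at most one, `u j = 0` for `j ≥ n` -/
def Seq (n : ℕ) (u : ℕ → ℕ) : Prop :=
  u 0 = 0 ∧ (∀ j, n ≤ j → u j = 0) ∧ ∀ j, u (j + 1) ≤ u j + 1

/-- the relation of a sequence: same level, and no lower level in between -/
def Rel (u : ℕ → ℕ) (i j : ℕ) : Prop :=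
  u i = u j ∧ ∀ k, min i j ≤ k → k ≤ max i j → u i ≤ u k

/-- noncrossing relation on `0, ..., n - 1` -/
def NCRel (n : ℕ) (r : ℕ → ℕ → Prop) : Prop :=
  (∀ i, i < n → r i i) ∧ (∀ i j, i < n → j < n → r i j → r j i) ∧
  (∀ i j k, i < n → j < n → k < n → r i j → r j k → r i k) ∧
  ∀ a b c d, a < b → b < c → c < d → d < n → r a c → r b d → r a b

/-- every noncrossing relation comes from a sequence. Hint: recursively `u j = 0` if the least element `m` of the class
of `j` is `0`, and `u j = u (m - 1) + 1` otherwise. -/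
def TaskToSeq : Prop :=
  ∀ n r, 0 < n → NCRel n r → ∃ u, Seq n u ∧ ∀ i j, i < n → j < n → (r i j ↔ Rel u i j)

/-- the relation of a sequence is noncrossing -/
def TaskFromSeq : Prop := ∀ n u, Seq n u → NCRel n (Rel u)

/-- the sequence is determined by its relation -/
def TaskUniq : Prop :=
  ∀ n u v, Seq n u → Seq n v → (∀ i j, i < n → j < n → (Rel u i j ↔ Rel v i j)) → u = v

/-- number of steps up -/
def ups (n : ℕ) (u : ℕ → ℕ) : ℕ := ((Finset.range n).filter fun j => u (j + 1) = u j + 1).card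

/-- the number of classes is one more than the number of steps up. Hint: `m > 0` is the least element of its class iff
`u m = u (m - 1) + 1`. -/
def TaskCount : Prop :=
  ∀ (n : ℕ) (u : ℕ → ℕ), Seq (n + 1) u → ∀ π : Finpartition (Finset.univ : Finset (Fin (n + 1))),
    (∀ i j : Fin (n + 1), π.part i = π.part j ↔ Rel u i j) → π.parts.card = 1 + ups (n + 1) u

/-- the condition of the sides: no element with index strictly between two related points of one side is in another
class; `cor j` says that `j` is a corner (`1 ≤ j ≤ n - 1`) -/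
def SideRel (n : ℕ) (cor : ℕ → Prop) (r : ℕ → ℕ → Prop) : Prop :=
  (∀ a b c, a < c → c < b → b < n → (∀ j, a < j → j < b → ¬ cor j) → r a b → r a c) ∧
  (∀ b c, b < c → c < n → (∀ j, b < j → j < n → ¬ cor j) → r 0 b → r 0 c)

/-- the same condition for sequences -/
def SideSeq (n : ℕ) (cor : ℕ → Prop) (u : ℕ → ℕ) : Prop :=
  ∀ a b, a < b → b ≤ n → (∀ j, a < j → j < b → ¬ cor j) → u a = u b → (∀ k, a ≤ k → k ≤ b → u a ≤ u k) →
    ∀ k, a ≤ k → k ≤ b → u k = u a

/-- translation (here `0 < n`; the index `n` plays the role of `0`) -/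
def TaskSide : Prop :=
  ∀ n cor u, 0 < n → Seq n u → (SideRel n cor (Rel u) ↔ SideSeq n cor u)

/-- the points of a family as a sequence with `q n = q 0` -/
def seqOf {n : ℕ} (p : Fin (n + 1) → Plane) (j : ℕ) : Plane := p (Fin.ofNat (n + 1) j)

/-- the noncrossing partitions of a hull configuration, combinatorially. -/
def TaskNCIff : Prop :=
  TaskSeg1 → TaskSeg2 → TaskBetw → TaskCross → TaskSep → TaskArc → TaskFace → TaskLine →
  ∀ (n : ℕ) (p : Fin (n + 1) → Plane), Hull (n + 1) (seqOf p) →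
    ∀ π : Finpartition (Finset.univ : Finset (Fin (n + 1))),
    ((∀ A ∈ π.parts, ∀ B ∈ π.parts, A ≠ B → Disjoint (hull p A) (hull p B)) ↔
      NCRel (n + 1) (fun i j => π.part (Fin.ofNat (n + 1) i) = π.part (Fin.ofNat (n + 1) j)) ∧
      SideRel (n + 1) (Corner (seqOf p))
        (fun i j => π.part (Fin.ofNat (n + 1) i) = π.part (Fin.ofNat (n + 1) j)))

/-- the bijection. Hint: `π ↦ u` from `TaskToSeq` (unique by `TaskUniq`), inverse: classes of `Rel u` on `Fin (n + 1)`. -/
def TaskBij : Prop :=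
  TaskNCIff → TaskSeg1 → TaskSeg2 → TaskBetw → TaskCross → TaskSep → TaskArc → TaskFace → TaskLine →
  TaskToSeq → TaskFromSeq → TaskUniq → TaskCount → TaskSide →
  ∀ (n : ℕ) (p : Fin (n + 1) → Plane), Hull (n + 1) (seqOf p) → ∀ k,
    {π : NC p | π.1.parts.card = k + 1}.ncard =
      {u : ℕ → ℕ | Seq (n + 1) u ∧ SideSeq (n + 1) (Corner (seqOf p)) u ∧ ups (n + 1) u = k}.ncard

/-! ## The automaton -/

/-- accepted lists of levels: `cs` tells which of the next points are corners, `u` is the current level, `l ≤ u` the lowest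
level of a point of the current side -/
def Acc : List Bool → ℕ → ℕ → List ℕ → Prop
  | [], u, _, vs => u = 0 ∧ vs = []
  | c :: cs, u, l, vs => ∃ v ws, vs = v :: ws ∧
      (((v = u ∨ v = u + 1) ∧ Acc cs v (if c then v else l) ws) ∨ (v < l ∧ Acc cs v v ws))

open Classical in
/-- the corner pattern of the points `1, ..., n`, where `n` is a corner -/
def pattern (n : ℕ) (cor : ℕ → Prop) : List Bool :=
  (List.range n).map fun j => decide (j + 1 = n ∨ cor (j + 1))

/-- sequences satisfying the side conditions are exactly the ones with an accepted list `u 1, ..., u n` (`n > 0`).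
Hint: generalise to a statement about a current index, level and lowest level `l` of the side. -/
def TaskAcc : Prop :=
  ∀ n cor (u : ℕ → ℕ), 0 < n → Seq n u →
    (SideSeq n cor u ↔ Acc (pattern n cor) 0 0 ((List.range n).map fun j => u (j + 1)))

/-- accepted lists are step sequences: conversely an accepted list gives a sequence -/
def TaskAccSeq : Prop :=
  ∀ n cor (vs : List ℕ), 0 < n → Acc (pattern n cor) 0 0 vs →
    ∃ u, Seq n u ∧ vs = (List.range n).map fun j => u (j + 1)

/-- number of steps up of a list, starting at the level `u` -/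
def lups : ℕ → List ℕ → ℕ
  | _, [] => 0
  | u, v :: vs => (if v = u + 1 then 1 else 0) + lups v vs

/-- weighted number of accepted lists: weight `x` for each step up, `y` for each other step -/
def W (x y : ℤ) : List Bool → ℕ → ℕ → ℤ
  | [], u, _ => if u = 0 then 1 else 0
  | c :: cs, u, l => y * W x y cs u (if c then u else l) + x * W x y cs (u + 1) (if c then u + 1 else l) +
      y * ∑ i ∈ Finset.range l, W x y cs i i

/-- the sum over the accepted lists (for `l ≤ u`) -/
def TaskSum : Prop :=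
  ∀ (x y : ℤ) (cs : List Bool) (u l : ℕ), l ≤ u →
    {vs | Acc cs u l vs}.Finite ∧
    W x y cs u l = ∑ᶠ vs ∈ {vs | Acc cs u l vs}, x ^ lups u vs * y ^ (cs.length - lups u vs)

/-- assembly of the enumeration -/
def TaskEnum : Prop :=
  TaskAcc → TaskAccSeq → TaskSum → ∀ (n : ℕ) (cor : ℕ → Prop) (x y : ℤ), 0 < n →
    W x y (pattern n cor) 0 0 = ∑ k ∈ Finset.range (n + 1),
      ({u : ℕ → ℕ | Seq n u ∧ SideSeq n cor u ∧ ups n u = k}.ncard : ℤ) * (x ^ k * y ^ (n - k))

/-- the algebra (helper14): if no two neighbours are corners then the two weights differ -/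
def TaskAlg : Prop :=
  ∀ (n : ℕ) (cor : ℕ → Prop), 0 < n →
    (∀ j, j < n → ¬ ((j = 0 ∨ cor j) ∧ (j + 1 = n ∨ cor (j + 1)))) →
    W 1 2 (pattern n cor) 0 0 ≠ 2 * W 2 1 (pattern n cor) 0 0

end

end Q14NCH
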