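import Mathlib
import Pool.Agent.Q14.NCH.Stmts

set_option autoImplicit false

namespace Q14NCH

theorem Arc : TaskArc := by
  intro A B hAB hA hN
  by_cases h : ∀ b ∈ B, b < A.min' hA ∨ A.max' hA < b
  · exact Or.inr ⟨A.min' hA, A.min'_mem hA, A.max' hA, A.max'_mem hA,
      A.min'_le _ (A.max'_mem hA), fun x hx => ⟨A.min'_le _ hx, A.le_max' _ hx⟩, h⟩
  · push Not at h
    obtain ⟨b₀, hb₀, h1, h2⟩ := h
    have hne : ∀ x ∈ A, ∀ b ∈ B, x ≠ b := fun x hx b hb h =>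
      Finset.disjoint_left.1 hAB hx (h ▸ hb)
    have hL : (A.filter fun x => x < b₀).Nonempty :=
      ⟨A.min' hA, Finset.mem_filter.2 ⟨A.min'_mem hA,
        lt_of_le_of_ne h1 (hne _ (A.min'_mem hA) _ hb₀)⟩⟩
    have hR : (A.filter fun x => b₀ < x).Nonempty :=
      ⟨A.max' hA, Finset.mem_filter.2 ⟨A.max'_mem hA,
        lt_of_le_of_ne h2 (hne _ (A.max'_mem hA) _ hb₀).symm⟩⟩
    have ha := Finset.mem_filter.1 (Finset.max'_mem _ hL)
    have ha' := Finset.mem_filter.1 (Finset.min'_mem _ hR)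
    set a := (A.filter fun x => x < b₀).max' hL with hadef
    set a' := (A.filter fun x => b₀ < x).min' hR with ha'def
    refine Or.inl ⟨a, ha.1, a', ha'.1, ha.2.trans ha'.2, fun x hx => ?_, fun b hb => ⟨?_, ?_⟩⟩
    · rcases lt_trichotomy x b₀ with h | h | h
      · exact Or.inl (Finset.le_max' _ _ (Finset.mem_filter.2 ⟨hx, h⟩))
      · exact absurd h (hne x hx b₀ hb₀)
      · exact Or.inr (Finset.min'_le _ _ (Finset.mem_filter.2 ⟨hx, h⟩))
    · by_contra hc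
      have h3 : b < a := lt_of_le_of_ne (not_lt.1 hc) (hne a ha.1 b hb).symm
      exact hN.2 a ha.1 b hb a' ha'.1 b₀ hb₀ ⟨h3, ha.2, ha'.2⟩
    · by_contra hc
      have h3 : a' < b := lt_of_le_of_ne (not_lt.1 hc) (hne a' ha'.1 b hb)
      exact hN.1 a ha.1 b₀ hb₀ a' ha'.1 b hb ⟨ha.2, ha'.2, h3⟩

end Q14NCH
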