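import Pool.Agent.Q14.NCH.Stmts

namespace Q14NCH

theorem betw_aux (x y z w : Plane) (h0 : orient x y z = 0) (hA : orient x y w ≠ 0) :
    ∃ t : ℝ, (z.1 = x.1 + t * (y.1 - x.1) ∧ z.2 = x.2 + t * (y.2 - x.2)) ∧
      orient x z w = t * orient x y w ∧ orient y z w = (t - 1) * orient x y w := by
  have e1 : (z.1 - x.1) * orient x y w = orient x z w * (y.1 - x.1) := by
    unfold orient at h0 ⊢
    linear_combination (w.1 - x.1) * h0
  have e2 : (z.2 - x.2) * orient x y w = orient x z w * (y.2 - x.2) := by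
    unfold orient at h0 ⊢
    linear_combination (w.2 - x.2) * h0
  have e3 : orient y z w = orient x z w - orient x y w := by
    unfold orient at h0 ⊢
    linear_combination h0
  refine ⟨orient x z w / orient x y w, ⟨?_, ?_⟩, ?_, ?_⟩
  · have : z.1 - x.1 = orient x z w / orient x y w * (y.1 - x.1) := by
      rw [div_mul_eq_mul_div, eq_div_iff hA]; exact e1
    linarith
  · have : z.2 - x.2 = orient x z w / orient x y w * (y.2 - x.2) := by
      rw [div_mul_eq_mul_div, eq_div_iff hA]; exact e2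
    linarith
  · rw [div_mul_cancel₀ _ hA]
  · rw [sub_mul, div_mul_cancel₀ _ hA, e3, one_mul]

theorem orient_rot (a b c : Plane) : orient b c a = orient a b c := by
  unfold orient; ring

theorem orient_swap (a b c : Plane) : orient a c b = - orient a b c := by
  unfold orient; ring

/-- `z = x + t (y - x)`, `t ≥ 1`: `y` is between `x` and `z` -/
theorem seg1 (x y z : Plane) (t : ℝ) (h1 : z.1 = x.1 + t * (y.1 - x.1))
    (h2 : z.2 = x.2 + t * (y.2 - x.2)) (ht : 1 ≤ t) : y ∈ segment ℝ x z := by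
  have ht0 : 0 < t := by linarith
  refine ⟨1 - 1 / t, 1 / t, ?_, by positivity, by ring, ?_⟩
  · have : 1 / t ≤ 1 := by rw [div_le_one ht0]; exact ht
    linarith
  · ext
    · simp only [Prod.fst_add, Prod.smul_fst, smul_eq_mul]
      rw [h1]; field_simp; ring
    · simp only [Prod.snd_add, Prod.smul_snd, smul_eq_mul]
      rw [h2]; field_simp; ring

theorem seg2 (x y z : Plane) (t : ℝ) (h1 : z.1 = x.1 + t * (y.1 - x.1))
    (h2 : z.2 = x.2 + t * (y.2 - x.2)) (ht0 : 0 ≤ t) (ht : t ≤ 1) : z ∈ segment ℝ x y := by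
  refine ⟨1 - t, t, by linarith, ht0, by ring, ?_⟩
  ext
  · simp only [Prod.fst_add, Prod.smul_fst, smul_eq_mul]
    rw [h1]; ring
  · simp only [Prod.snd_add, Prod.smul_snd, smul_eq_mul]
    rw [h2]; ring

theorem seg3 (x y z : Plane) (t : ℝ) (h1 : z.1 = x.1 + t * (y.1 - x.1))
    (h2 : z.2 = x.2 + t * (y.2 - x.2)) (ht : t ≤ 0) : x ∈ segment ℝ y z := by
  have ht0 : 0 < 1 - t := by linarith
  refine ⟨-t / (1 - t), 1 / (1 - t), div_nonneg (by linarith) ht0.le, by positivity, ?_, ?_⟩
  · field_simp; ring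
  · ext
    · simp only [Prod.fst_add, Prod.smul_fst, smul_eq_mul]
      rw [h1]; field_simp; ring
    · simp only [Prod.snd_add, Prod.smul_snd, smul_eq_mul]
      rw [h2]; field_simp; ring

theorem Betw : TaskBetw := by
  intro n q hq i j k m hij hjk hkn hmn h0 hA
  obtain ⟨t, ⟨h1, h2⟩, hC, hB⟩ := betw_aux _ _ _ _ h0 hA
  refine ⟨?_, ?_, ?_⟩
  · rintro (hm | hm)
    · have hA0 : 0 ≤ orient (q i) (q j) (q m) := by
        rw [orient_rot (q m) (q i) (q j)]; exact hq.pos m i j hm hij (by omega)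
      have hB0 : 0 ≤ orient (q j) (q k) (q m) := by
        rw [orient_rot (q m) (q j) (q k)]; exact hq.pos m j k (by omega) hjk hkn
      have hA1 : 0 < orient (q i) (q j) (q m) := lt_of_le_of_ne hA0 (Ne.symm hA)
      rw [hB] at hB0
      have ht : 0 ≤ t - 1 := nonneg_of_mul_nonneg_left hB0 hA1
      exact seg1 _ _ _ t h1 h2 (by linarith)
    · have hA0 : 0 ≤ orient (q i) (q j) (q m) := hq.pos i j m hij (by omega) hmn
      have hB0 : 0 ≤ orient (q j) (q k) (q m) := hq.pos j k m hjk hm hmn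
      have hA1 : 0 < orient (q i) (q j) (q m) := lt_of_le_of_ne hA0 (Ne.symm hA)
      rw [hB] at hB0
      have ht : 0 ≤ t - 1 := nonneg_of_mul_nonneg_left hB0 hA1
      exact seg1 _ _ _ t h1 h2 (by linarith)
  · intro him hmj
    have hA0 : orient (q i) (q j) (q m) ≤ 0 := by
      have := hq.pos i m j him hmj (by omega)
      rw [orient_swap (q i) (q j) (q m)] at this; linarith
    have hA1 : orient (q i) (q j) (q m) < 0 := lt_of_le_of_ne hA0 hA
    have hB0 : 0 ≤ orient (q j) (q k) (q m) := by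
      rw [orient_rot (q m) (q j) (q k)]; exact hq.pos m j k hmj hjk hkn
    have hC0 : orient (q i) (q k) (q m) ≤ 0 := by
      have := hq.pos i m k him (by omega) hkn
      rw [orient_swap (q i) (q k) (q m)] at this; linarith
    rw [hB] at hB0
    rw [hC] at hC0
    have ht1 : t ≤ 1 := by
      by_contra hcon
      push_neg at hcon
      nlinarith [mul_pos_of_neg_of_neg (show -(t - 1) < 0 by linarith) hA1]
    have ht0 : 0 ≤ t := by
      by_contra hcon
      push_neg at hcon
      nlinarith [mul_pos_of_neg_of_neg hcon hA1]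
    exact seg2 _ _ _ t h1 h2 ht0 ht1
  · intro hjm hmk
    have hA0 : 0 ≤ orient (q i) (q j) (q m) := hq.pos i j m hij hjm hmn
    have hA1 : 0 < orient (q i) (q j) (q m) := lt_of_le_of_ne hA0 (Ne.symm hA)
    have hC0 : orient (q i) (q k) (q m) ≤ 0 := by
      have := hq.pos i m k (by omega) hmk hkn
      rw [orient_swap (q i) (q k) (q m)] at this; linarith
    rw [hC] at hC0
    have ht0 : t ≤ 0 := by
      by_contra hcon
      push_neg at hcon
      nlinarith [mul_pos hcon hA1]
    exact seg3 _ _ _ t h1 h2 ht0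

end Q14NCH
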