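import Pool.Agent.Q14.NCH.Stmts

set_option autoImplicit false

namespace Q14NCH

namespace Bij147

/-- the relation of a partition -/
def PR {n : ℕ} (π : Finpartition (Finset.univ : Finset (Fin (n + 1)))) (i j : ℕ) : Prop :=
  π.part (Fin.ofNat (n + 1) i) = π.part (Fin.ofNat (n + 1) j)

theorem ncrel_congr {n : ℕ} {r r' : ℕ → ℕ → Prop}
    (h : ∀ i j, i < n → j < n → (r i j ↔ r' i j)) (hr : NCRel n r) : NCRel n r' := by
  obtain ⟨h1, h2, h3, h4⟩ := hr
  refine ⟨fun i hi => (h i i hi hi).1 (h1 i hi),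
    fun i j hi hj hij => (h j i hj hi).1 (h2 i j hi hj ((h i j hi hj).2 hij)),
    fun i j k hi hj hk hij hjk =>
      (h i k hi hk).1 (h3 i j k hi hj hk ((h i j hi hj).2 hij) ((h j k hj hk).2 hjk)), ?_⟩
  intro a b c d hab hbc hcd hd hac hbd
  exact (h a b (by omega) (by omega)).1 (h4 a b c d hab hbc hcd hd
    ((h a c (by omega) (by omega)).2 hac) ((h b d (by omega) hd).2 hbd))

theorem side_congr {n : ℕ} {cor : ℕ → Prop} {r r' : ℕ → ℕ → Prop}
    (h : ∀ i j, i < n → j < n → (r i j ↔ r' i j)) (hr : SideRel n cor r) : SideRel n cor r' := by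
  obtain ⟨h1, h2⟩ := hr
  refine ⟨?_, ?_⟩
  · intro a b c hac hcb hb hc hab
    exact (h a c (by omega) (by omega)).1 (h1 a b c hac hcb hb hc
      ((h a b (by omega) (by omega)).2 hab))
  · intro b c hbc hc hcor h0
    exact (h 0 c (by omega) hc).1 (h2 b c hbc hc hcor ((h 0 b (by omega) (by omega)).2 h0))

theorem ofNat_val {n : ℕ} (i : Fin (n + 1)) : Fin.ofNat (n + 1) (i : ℕ) = i := by
  apply Fin.ext
  exact Nat.mod_eq_of_lt i.2

/-- a partition is determined by its relation -/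
theorem part_ext {n : ℕ} (π σ : Finpartition (Finset.univ : Finset (Fin (n + 1))))
    (h : ∀ i j, i < n + 1 → j < n + 1 → (PR π i j ↔ PR σ i j)) : π = σ := by
  have h1 : ∀ i j : Fin (n + 1), π.part i = π.part j ↔ σ.part i = σ.part j := by
    intro i j
    have := h i j i.2 j.2
    unfold PR at this
    rwa [ofNat_val, ofNat_val] at this
  have h2 : ∀ i : Fin (n + 1), π.part i = σ.part i := by
    intro i
    ext j
    rw [π.mem_part_iff_part_eq_part (Finset.mem_univ _) (Finset.mem_univ _),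
      σ.mem_part_iff_part_eq_part (Finset.mem_univ _) (Finset.mem_univ _)]
    exact h1 j i
  have h3 : ∀ (π σ : Finpartition (Finset.univ : Finset (Fin (n + 1)))),
      (∀ i, π.part i = σ.part i) → π.parts ⊆ σ.parts := by
    intro π σ h A hA
    obtain ⟨i, hi⟩ := π.nonempty_of_mem_parts hA
    rw [← π.part_eq_of_mem hA hi, h i]
    exact σ.part_mem.2 (Finset.mem_univ _)
  apply Finpartition.ext
  exact Finset.Subset.antisymm (h3 π σ h2) (h3 σ π fun i => (h2 i).symm)

end Bij147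

open Bij147 in
theorem Bij : TaskBij := by
  classical
  intro hIff hS1 hS2 hBe hCr hSe hAr hFa hLi hTo hFrom hUn hCo hSi n p hp k
  have hiff := hIff hS1 hS2 hBe hCr hSe hAr hFa hLi n p hp
  have hF : ∀ π : NC p, ∃ u, Seq (n + 1) u ∧
      ∀ i j, i < n + 1 → j < n + 1 → (PR π.1 i j ↔ Rel u i j) := fun π =>
    hTo (n + 1) (PR π.1) (Nat.succ_pos n) ((hiff π.1).1 π.2).1
  choose F hF1 hF2 using hF
  have hcard : ∀ π : NC p, π.1.parts.card = 1 + ups (n + 1) (F π) := by
    intro π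
    apply hCo n (F π) (hF1 π) π.1
    intro i j
    have := hF2 π i j i.2 j.2
    unfold PR at this
    rwa [ofNat_val, ofNat_val] at this
  refine Set.ncard_congr (fun π _ => F π) ?_ ?_ ?_
  · intro π hπ
    have h1 : π.1.parts.card = k + 1 := hπ
    refine ⟨hF1 π, ?_, ?_⟩
    · rw [← hSi (n + 1) _ (F π) (Nat.succ_pos n) (hF1 π)]
      exact side_congr (hF2 π) ((hiff π.1).1 π.2).2
    · have := hcard π
      omega
  · intro π σ _ _ h
    have h' : F π = F σ := h
    apply Subtype.ext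
    apply part_ext
    intro i j hi hj
    rw [hF2 π i j hi hj, hF2 σ i j hi hj, h']
  · rintro u ⟨hu1, hu2, hu3⟩
    have hnc := hFrom (n + 1) u hu1
    let s : Setoid (Fin (n + 1)) := {
      r := fun i j => Rel u i j
      iseqv := ⟨fun i => hnc.1 i i.2, fun {i j} h => hnc.2.1 i j i.2 j.2 h,
        fun {i j l} h h' => hnc.2.2.1 i j l i.2 j.2 l.2 h h'⟩ }
    let π : Finpartition (Finset.univ : Finset (Fin (n + 1))) := Finpartition.ofSetoid s
    have hπ : ∀ i j : Fin (n + 1), π.part i = π.part j ↔ Rel u i j := by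
      intro i j
      rw [← π.mem_part_iff_part_eq_part (Finset.mem_univ _) (Finset.mem_univ _)]
      show i ∈ (Finpartition.ofSetoid s).part j ↔ _
      rw [Finpartition.mem_part_ofSetoid_iff_rel]
      exact ⟨fun h => hnc.2.1 j i j.2 i.2 h, fun h => hnc.2.1 i j i.2 j.2 h⟩
    have hπ' : ∀ i j, i < n + 1 → j < n + 1 → (Rel u i j ↔ PR π i j) := by
      intro i j hi hj
      have := hπ ⟨i, hi⟩ ⟨j, hj⟩
      rw [← this]
      unfold PR
      have e1 : Fin.ofNat (n + 1) i = ⟨i, hi⟩ := by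
        have := ofNat_val (⟨i, hi⟩ : Fin (n + 1))
        exact this
      have e2 : Fin.ofNat (n + 1) j = ⟨j, hj⟩ := by
        have := ofNat_val (⟨j, hj⟩ : Fin (n + 1))
        exact this
      rw [e1, e2]
    have hside : SideRel (n + 1) (Corner (seqOf p)) (Rel u) :=
      (hSi (n + 1) _ u (Nat.succ_pos n) hu1).2 hu2
    have hmem := (hiff π).2 ⟨ncrel_congr hπ' hnc, side_congr hπ' hside⟩
    have hFu : F ⟨π, hmem⟩ = u := by
      apply hUn (n + 1) _ _ (hF1 _) hu1
      intro i j hi hj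
      rw [← hF2 ⟨π, hmem⟩ i j hi hj]
      exact (hπ' i j hi hj).symm
    refine ⟨⟨π, hmem⟩, ?_, hFu⟩
    have := hcard ⟨π, hmem⟩
    rw [hFu, hu3] at this
    show π.parts.card = k + 1
    exact this.trans (Nat.add_comm 1 k)

end Q14NCH
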