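import Pool.Agent.Q14.NCH.Stmts

set_option autoImplicit false

namespace Q14NCH

private theorem cross0_bl {d1 d2 X1 X2 Y1 Y2 : ℝ} (h : d1 ≠ 0 ∨ d2 ≠ 0)
    (hX : d1 * X2 - d2 * X1 = 0) (hY : d1 * Y2 - d2 * Y1 = 0) : X1 * Y2 - X2 * Y1 = 0 := by
  rcases h with h | h
  · apply mul_left_cancel₀ h
    linear_combination X1 * hY - Y1 * hX
  · apply mul_left_cancel₀ h
    linear_combination X2 * hY - Y2 * hX

private theorem col_bl {P Q x y z : Plane} (h : P ≠ Q) (hx : orient P Q x = 0)
    (hy : orient P Q y = 0) (hz : orient P Q z = 0) : orient x y z = 0 := by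
  have hd : Q.1 - P.1 ≠ 0 ∨ Q.2 - P.2 ≠ 0 := by
    by_contra hcon
    push Not at hcon
    exact h (Prod.ext (by linarith [hcon.1]) (by linarith [hcon.2]))
  unfold orient at *
  have h1 := cross0_bl hd hx hy
  have h2 := cross0_bl hd hy hz
  have h3 := cross0_bl hd hz hx
  linear_combination h1 + h2 + h3

private theorem exists_off_bl {n : ℕ} {q : ℕ → Plane} (hH : Hull n q) {i j : ℕ} (hi : i < n)
    (hj : j < n) (hij : i ≠ j) : ∃ m, m < n ∧ orient (q i) (q j) (q m) ≠ 0 := by
  by_contra hcon
  push Not at hcon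
  obtain ⟨a, b, c, hab, hbc, hcn, hne⟩ := hH.line
  exact hne (col_bl (fun h => hij (hH.inj i j hi hj h)) (hcon a (by omega)) (hcon b (by omega))
    (hcon c hcn))

private theorem rot_bl (a b c : Plane) : orient b c a = orient a b c := by
  unfold orient; ring

private theorem aab_bl (a b : Plane) : orient a a b = 0 := by unfold orient; ring
private theorem aba_bl (a b : Plane) : orient a b a = 0 := by unfold orient; ring
private theorem abb_bl (a b : Plane) : orient a b b = 0 := by unfold orient; ring

theorem Blank : TaskBlank := by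
  intro hB hS n q hH hN j hj hc
  obtain ⟨h1, h2⟩ := hc
  have hn : 3 ≤ n := by
    obtain ⟨a, b, c, hab, hbc, hcn, -⟩ := hH.line
    omega
  -- three collinear points
  have key : ∀ i k l, i < k → k < l → l < n → orient (q i) (q k) (q l) = 0 →
      ∃ m, m < n ∧ (((m < i ∨ l < m) ∧ q k ∈ segment ℝ (q i) (q l)) ∨
        (i < m ∧ m < k ∧ q l ∈ segment ℝ (q i) (q k)) ∨
        (k < m ∧ m < l ∧ q i ∈ segment ℝ (q k) (q l))) := by
    intro i k l hik hkl hl h0
    obtain ⟨m, hm, hne⟩ := exists_off_bl hH (i := i) (j := k) (by omega) (by omega) (by omega)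
    obtain ⟨b1, b2, b3⟩ := hB n q hH i k l m hik hkl hl hm h0 hne
    have e1 : m ≠ i := by
      rintro rfl
      exact hne (aba_bl _ _)
    have e2 : m ≠ k := by
      rintro rfl
      exact hne (abb_bl _ _)
    have e3 : m ≠ l := by
      rintro rfl
      exact hne h0
    refine ⟨m, hm, ?_⟩
    by_cases c1 : m < i ∨ l < m
    · exact Or.inl ⟨c1, b1 c1⟩
    · by_cases c2 : m < k
      · exact Or.inr (Or.inl ⟨by omega, c2, b2 (by omega) c2⟩)
      · exact Or.inr (Or.inr ⟨by omega, by omega, b3 (by omega) (by omega)⟩)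
  rcases Nat.lt_or_ge (j + 1) n with hlt | hge
  · have hcor : Corner q (j + 1) := by
      rcases h2 with h2 | h2
      · omega
      · exact h2
    obtain ⟨c, hcn, hca, hcb, h0⟩ := hN j (j + 1) hj hlt (by omega) (by
      intro c hc
      rcases Nat.lt_trichotomy c j with h | h | h
      · rw [rot_bl]
        exact hH.pos c j (j + 1) h (by omega) hlt
      · rw [h, aba_bl]
      · rcases Nat.lt_or_ge (j + 1) c with h' | h'
        · exact hH.pos j (j + 1) c (by omega) h' hc
        · have : c = j + 1 := by omega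
          rw [this, abb_bl])
    rcases Nat.lt_or_ge c j with h | h
    · rw [rot_bl] at h0
      obtain ⟨m, hm, ⟨hm1, hs⟩ | ⟨hm1, hm2, hs⟩ | ⟨hm1, hm2, hs⟩⟩ := key c j (j + 1) h (by omega) hlt h0
      · have hcorj : Corner q j := by
          rcases h1 with h1 | h1
          · omega
          · exact h1
        rcases hS hB n q hH c (j + 1) j (by omega) hlt hj (by omega) (by omega) hs with
          ⟨_, _, g⟩ | ⟨_, g, _⟩
        · exact g j h (by omega) hcorj
        · omega
      · rcases hS hB n q hH c j (j + 1) h hj hlt (by omega) (by omega) hs with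
          ⟨_, g, _⟩ | ⟨_, _, g⟩
        · omega
        · exact g (j + 1) (by omega) hlt hcor
      · omega
    · obtain ⟨m, hm, ⟨hm1, hs⟩ | ⟨hm1, hm2, hs⟩ | ⟨hm1, hm2, hs⟩⟩ :=
        key j (j + 1) c (by omega) (by omega) hcn h0
      · rcases hS hB n q hH j c (j + 1) (by omega) hcn hlt (by omega) (by omega) hs with
          ⟨_, _, g⟩ | ⟨_, g, _⟩
        · exact g (j + 1) (by omega) (by omega) hcor
        · omega
      · omega
      · rcases hS hB n q hH (j + 1) c j (by omega) hcn hj (by omega) (by omega) hs with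
          ⟨g, _, _⟩ | ⟨g, _, _⟩
        · omega
        · omega
  · have hjn : j + 1 = n := by omega
    have hcorj : Corner q j := by
      rcases h1 with h1 | h1
      · omega
      · exact h1
    obtain ⟨c, hcn, hca, hcb, h0⟩ := hN j 0 hj (by omega) (by omega) (by
      intro c hc
      rcases Nat.eq_zero_or_pos c with h | h
      · rw [h, abb_bl]
      · rcases Nat.lt_or_ge c j with h' | h'
        · rw [← rot_bl]
          exact hH.pos 0 c j h h' hj
        · have : c = j := by omega
          rw [this, aba_bl])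
    rw [← rot_bl] at h0
    obtain ⟨m, hm, ⟨hm1, hs⟩ | ⟨hm1, hm2, hs⟩ | ⟨hm1, hm2, hs⟩⟩ :=
      key 0 c j (by omega) (by omega) hj h0
    · omega
    · rcases hS hB n q hH 0 c j (by omega) hcn hj (by omega) (by omega) hs with
        ⟨_, g, _⟩ | ⟨_, _, g⟩
      · omega
      · exact g j (by omega) hj hcorj
    · rcases hS hB n q hH c j 0 (by omega) hj (by omega) (by omega) (by omega) hs with
        ⟨g, _, _⟩ | ⟨g, _, _⟩
      · omega
      · omega

end Q14NCH
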