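import Pool.Agent.Q14.NCH.Stmts

set_option autoImplicit false

namespace Q14NCH

namespace CountAux

theorem down {u : ℕ → ℕ} (h0 : u 0 = 0) (hup : ∀ j, u (j + 1) ≤ u j + 1) (m : ℕ) :
    ∀ c, c ≤ u m → ∃ i, i ≤ m ∧ u i = c ∧ ∀ k, i ≤ k → k ≤ m → c ≤ u k := by
  induction m with
  | zero =>
    intro c hc
    have : c = 0 := by omega
    subst this
    exact ⟨0, le_rfl, h0, fun k _ _ => Nat.zero_le _⟩
  | succ m ih =>
    intro c hc
    by_cases h : c = u (m + 1)
    · refine ⟨m + 1, le_rfl, h.symm, fun k h1 h2 => ?_⟩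
      have : k = m + 1 := le_antisymm h2 h1
      rw [this]
      exact hc
    · have h1 := hup m
      obtain ⟨i, h2, h3, h4⟩ := ih c (by omega)
      refine ⟨i, by omega, h3, fun k h5 h6 => ?_⟩
      by_cases h7 : k = m + 1
      · rw [h7]
        exact hc
      · exact h4 k h5 (by omega)

/-- a step up starts a class -/
theorem start {u : ℕ → ℕ} {i j : ℕ} (hij : i ≤ j) (hj : u (j + 1) = u j + 1) :
    ¬ Rel u i (j + 1) := by
  rintro ⟨h1, h2⟩
  have h3 := h2 j (by omega) (by omega)
  omega

/-- other elements do not -/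
theorem noStart {u : ℕ → ℕ} (h0 : u 0 = 0) (hup : ∀ j, u (j + 1) ≤ u j + 1) (j : ℕ)
    (hj : u (j + 1) ≠ u j + 1) : ∃ i, i ≤ j ∧ Rel u i (j + 1) := by
  have h1 := hup j
  obtain ⟨i, h2, h3, h4⟩ := down h0 hup j (u (j + 1)) (by omega)
  refine ⟨i, h2, h3, fun k h5 h6 => ?_⟩
  rw [h3]
  by_cases h7 : k = j + 1
  · rw [h7]
  · exact h4 k (by omega) (by omega)

end CountAux

open CountAux

theorem Count : TaskCount := by
  intro n u hu π hπ
  obtain ⟨h0, hz, hup⟩ := hu
  classical
  set F : Finset ℕ := (Finset.range (n + 1)).filter fun j => u (j + 1) = u j + 1 with hF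
  set T : Finset ℕ := insert 0 (F.image (· + 1)) with hT
  have hTcard : T.card = 1 + F.card := by
    rw [hT, Finset.card_insert_of_notMem (by simp),
      Finset.card_image_of_injective _ (add_left_injective 1), add_comm]
  have hTlt : ∀ m ∈ T, m < n + 1 := by
    intro m hm
    rw [hT, Finset.mem_insert, Finset.mem_image] at hm
    rcases hm with rfl | ⟨j, hj, rfl⟩
    · omega
    · rw [hF, Finset.mem_filter, Finset.mem_range] at hj
      have : j ≠ n := by
        rintro rfl
        have := hz (j + 1) le_rfl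
        omega
      omega
  have hval : ∀ m, m < n + 1 → ((Fin.ofNat (n + 1) m : Fin (n + 1)) : ℕ) = m := by
    intro m hm
    simp [Fin.ofNat, Nat.mod_eq_of_lt hm]
  have key : ∀ m ∈ T, ∀ i, i < m → ¬ Rel u i m := by
    intro m hm i hi
    rw [hT, Finset.mem_insert, Finset.mem_image] at hm
    rcases hm with rfl | ⟨j, hj, rfl⟩
    · omega
    · rw [hF, Finset.mem_filter] at hj
      exact start (by omega) hj.2
  have hparts : π.parts = T.image (fun m => π.part (Fin.ofNat (n + 1) m)) := by
    ext A
    rw [Finset.mem_image]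
    constructor
    · intro hA
      have hne := π.nonempty_of_mem_parts hA
      set a := A.min' hne with ha
      have haA : a ∈ A := A.min'_mem hne
      have hpa : π.part a = A := π.part_eq_of_mem hA haA
      refine ⟨a, ?_, ?_⟩
      · rw [hT, Finset.mem_insert, Finset.mem_image]
        rcases Nat.eq_zero_or_pos (a : ℕ) with h | h
        · exact Or.inl h
        · right
          obtain ⟨j, hj⟩ : ∃ j, (a : ℕ) = j + 1 := ⟨a - 1, by omega⟩
          refine ⟨j, ?_, hj.symm⟩
          rw [hF, Finset.mem_filter, Finset.mem_range]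
          have halt := a.2
          refine ⟨by omega, ?_⟩
          by_contra hcon
          obtain ⟨i, hi, hR⟩ := noStart h0 hup j hcon
          have hilt : i < n + 1 := by omega
          have h1 : π.part (⟨i, hilt⟩ : Fin (n + 1)) = π.part a := by
            rw [hπ]
            simpa [hj] using hR
          have h2 : (⟨i, hilt⟩ : Fin (n + 1)) ∈ A := by
            rw [← hpa, ← h1]
            exact π.mem_part (Finset.mem_univ _)
          have h3 : a ≤ ⟨i, hilt⟩ := A.min'_le _ h2
          have h4 : (a : ℕ) ≤ i := h3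
          omega
      · have : (Fin.ofNat (n + 1) (a : ℕ) : Fin (n + 1)) = a := Fin.ext (hval a a.2)
        rw [this, hpa]
    · rintro ⟨m, _, rfl⟩
      exact π.part_mem.2 (Finset.mem_univ _)
  rw [hparts, Finset.card_image_of_injOn, hTcard]
  · rfl
  · intro m hm m' hm' h
    have hm : m ∈ T := hm
    have hm' : m' ∈ T := hm'
    have h' : π.part (Fin.ofNat (n + 1) m) = π.part (Fin.ofNat (n + 1) m') := h
    have h1 : Rel u m m' := by
      have := (hπ _ _).1 h'
      rwa [hval m (hTlt m hm), hval m' (hTlt m' hm')] at this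
    have h2 : Rel u m' m := by
      have := (hπ _ _).1 h'.symm
      rwa [hval m (hTlt m hm), hval m' (hTlt m' hm')] at this
    rcases lt_trichotomy m m' with h3 | h3 | h3
    · exact absurd h1 (key m' hm' m h3)
    · exact h3
    · exact absurd h2 (key m hm m' h3)

end Q14NCH
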