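import Pool.Agent.Q14.NCH.Stmts

namespace Q14NCH

private theorem cr_betw (M x y z : Plane) (hc : orient x y z = 0) (h1 : 0 ≤ orient M x y)
    (h2 : 0 ≤ orient M y z) (h3 : orient M x z ≠ 0) : y ∈ segment ℝ x z := by
  have hs : orient M x z = orient M x y + orient M y z - orient x y z := by
    unfold orient; ring
  rw [hc, sub_zero] at hs
  have hpos : 0 < orient M x y + orient M y z :=
    lt_of_le_of_ne (add_nonneg h1 h2) (by rw [← hs]; exact h3.symm)
  have hne := hpos.ne'
  refine ⟨orient M y z / (orient M x y + orient M y z), orient M x y / (orient M x y + orient M y z),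
    by positivity, by positivity, by field_simp; ring, ?_⟩
  have e1 : orient M y z * x.1 + orient M x y * z.1 = y.1 * (orient M x y + orient M y z) := by
    have h : orient M y z * x.1 + orient M x y * z.1 - y.1 * (orient M x y + orient M y z)
        = (M.1 - y.1) * orient x y z := by unfold orient; ring
    rw [hc, mul_zero] at h
    linarith
  have e2 : orient M y z * x.2 + orient M x y * z.2 = y.2 * (orient M x y + orient M y z) := by
    have h : orient M y z * x.2 + orient M x y * z.2 - y.2 * (orient M x y + orient M y z)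
        = (M.2 - y.2) * orient x y z := by unfold orient; ring
    rw [hc, mul_zero] at h
    linarith
  apply Prod.ext
  · simp only [Prod.fst_add, Prod.smul_fst, smul_eq_mul]
    rw [div_mul_eq_mul_div, div_mul_eq_mul_div, ← add_div, div_eq_iff hne]
    exact e1
  · simp only [Prod.snd_add, Prod.smul_snd, smul_eq_mul]
    rw [div_mul_eq_mul_div, div_mul_eq_mul_div, ← add_div, div_eq_iff hne]
    exact e2

private theorem cr_gen (P Q R S : Plane) (hα : 0 ≤ orient P Q R) (hβ : 0 ≤ orient P Q S)
    (hγ : 0 ≤ orient P R S) (hδ : 0 ≤ orient Q R S) (hpos : 0 < orient P Q S + orient Q R S) :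
    ¬ Disjoint (segment ℝ P R) (segment ℝ Q S) := by
  have hne := hpos.ne'
  have hsum : orient P R S + orient P Q R = orient P Q S + orient Q R S := by
    unfold orient; ring
  rw [Set.not_disjoint_iff]
  refine ⟨(orient Q R S / (orient P Q S + orient Q R S)) • P +
      (orient P Q S / (orient P Q S + orient Q R S)) • R,
    ⟨_, _, by positivity, by positivity, by field_simp; ring, rfl⟩,
    ⟨orient P R S / (orient P Q S + orient Q R S), orient P Q R / (orient P Q S + orient Q R S),
      by positivity, by positivity, by rw [← add_div, hsum, div_self hne], ?_⟩⟩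
  apply Prod.ext
  · simp only [Prod.fst_add, Prod.smul_fst, smul_eq_mul]
    rw [div_mul_eq_mul_div, div_mul_eq_mul_div, div_mul_eq_mul_div, div_mul_eq_mul_div, ← add_div,
      ← add_div]
    congr 1
    unfold orient; ring
  · simp only [Prod.snd_add, Prod.smul_snd, smul_eq_mul]
    rw [div_mul_eq_mul_div, div_mul_eq_mul_div, div_mul_eq_mul_div, div_mul_eq_mul_div, ← add_div,
      ← add_div]
    congr 1
    unfold orient; ring

/-- a point on the line through `P ≠ Q` -/
private theorem cr_param (P Q x : Plane) (hPQ : P ≠ Q) (hx : orient P Q x = 0) :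
    ∃ s : ℝ, x.1 = P.1 + s * (Q.1 - P.1) ∧ x.2 = P.2 + s * (Q.2 - P.2) := by
  unfold orient at hx
  by_cases h1 : Q.1 - P.1 = 0
  · have h2 : Q.2 - P.2 ≠ 0 := by
      intro h2
      exact hPQ (Prod.ext (by linarith) (by linarith))
    refine ⟨(x.2 - P.2) / (Q.2 - P.2), ?_, by field_simp; ring⟩
    rw [h1] at hx ⊢
    have : (Q.2 - P.2) * (x.1 - P.1) = 0 := by linarith
    rcases mul_eq_zero.1 this with h | h
    · exact absurd h h2
    · linarith
  · refine ⟨(x.1 - P.1) / (Q.1 - P.1), by field_simp; ring, ?_⟩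
    field_simp
    linarith

private theorem cr_off (P Q x z M : Plane) (hPQ : P ≠ Q) (hx : orient P Q x = 0)
    (hz : orient P Q z = 0) (hxz : x ≠ z) (hM : orient P Q M ≠ 0) : orient M x z ≠ 0 := by
  obtain ⟨s, s1, s2⟩ := cr_param P Q x hPQ hx
  obtain ⟨t, t1, t2⟩ := cr_param P Q z hPQ hz
  have h : orient M x z = (t - s) * orient P Q M := by
    unfold orient; rw [s1, s2, t1, t2]; ring
  rw [h]
  refine mul_ne_zero ?_ hM
  intro hts
  have : t = s := by linarith
  subst this
  exact hxz (Prod.ext (by rw [s1, t1]) (by rw [s2, t2]))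

private theorem cr_all (P Q x y z : Plane) (hPQ : P ≠ Q) (hx : orient P Q x = 0)
    (hy : orient P Q y = 0) (hz : orient P Q z = 0) : orient x y z = 0 := by
  obtain ⟨s, s1, s2⟩ := cr_param P Q x hPQ hx
  obtain ⟨t, t1, t2⟩ := cr_param P Q y hPQ hy
  obtain ⟨r, r1, r2⟩ := cr_param P Q z hPQ hz
  unfold orient; rw [s1, s2, t1, t2, r1, r2]; ring

theorem Cross : TaskCross := by
  intro n q hH a b c d hab hbc hcd hdn
  have hα := hH.pos a b c hab hbc (by omega)
  have hβ := hH.pos a b d hab (by omega) hdn
  have hγ := hH.pos a c d (by omega) hcd hdn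
  have hδ := hH.pos b c d hbc hcd hdn
  rcases (add_nonneg hβ hδ).lt_or_eq with hp | h0
  · exact cr_gen _ _ _ _ hα hβ hγ hδ hp
  have hsum : orient (q a) (q c) (q d) + orient (q a) (q b) (q c)
      = orient (q a) (q b) (q d) + orient (q b) (q c) (q d) := by unfold orient; ring
  have hβ0 : orient (q a) (q b) (q d) = 0 := by linarith
  have hα0 : orient (q a) (q b) (q c) = 0 := by linarith
  have hne : ∀ i j, i < n → j < n → i ≠ j → q i ≠ q j := fun i j hi hj hij h =>
    hij (hH.inj i j hi hj h)
  have hPQ : q a ≠ q b := hne a b (by omega) (by omega) (by omega)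
  have ha0 : orient (q a) (q b) (q a) = 0 := by unfold orient; ring
  have hb0 : orient (q a) (q b) (q b) = 0 := by unfold orient; ring
  obtain ⟨m, hm, hM⟩ : ∃ m, m < n ∧ orient (q a) (q b) (q m) ≠ 0 := by
    by_contra hcon
    push Not at hcon
    obtain ⟨i, j, k, hij, hjk, hk, hl⟩ := hH.line
    exact hl (cr_all _ _ _ _ _ hPQ (hcon i (by omega)) (hcon j (by omega)) (hcon k hk))
  have hma : m ≠ a := by rintro rfl; exact hM ha0
  have hmb : m ≠ b := by rintro rfl; exact hM hb0
  have hmc : m ≠ c := by rintro rfl; exact hM hα0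
  have hmd : m ≠ d := by rintro rfl; exact hM hβ0
  have cyc : ∀ x y z : Plane, orient x y z = orient z x y := by intro x y z; unfold orient; ring
  rw [Set.not_disjoint_iff]
  rcases lt_or_ge m a with h1 | h1
  · refine ⟨q b, ?_, left_mem_segment ℝ _ _⟩
    exact cr_betw (q m) _ _ _ hα0 (hH.pos m a b h1 hab (by omega)) (hH.pos m b c (by omega) hbc (by omega))
      (cr_off _ _ _ _ _ hPQ ha0 hα0 (hne a c (by omega) (by omega) (by omega)) hM)
  rcases lt_or_ge m b with h2 | h2
  · refine ⟨q c, right_mem_segment ℝ _ _, ?_⟩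
    exact cr_betw (q m) _ _ _ (cr_all _ _ _ _ _ hPQ hb0 hα0 hβ0)
      (hH.pos m b c h2 hbc (by omega)) (hH.pos m c d (by omega) hcd hdn)
      (cr_off _ _ _ _ _ hPQ hb0 hβ0 (hne b d (by omega) (by omega) (by omega)) hM)
  rcases lt_or_ge m c with h3 | h3
  · refine ⟨q d, ?_, right_mem_segment ℝ _ _⟩
    rw [segment_symm]
    refine cr_betw (q m) _ _ _ (cr_all _ _ _ _ _ hPQ hα0 hβ0 ha0)
      (hH.pos m c d h3 hcd hdn) ?_
      (cr_off _ _ _ _ _ hPQ hα0 ha0 (hne c a (by omega) (by omega) (by omega)) hM)
    rw [cyc]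
    exact hH.pos a m d (by omega) (by omega) hdn
  rcases lt_or_ge m d with h4 | h4
  · refine ⟨q a, left_mem_segment ℝ _ _, ?_⟩
    rw [segment_symm]
    refine cr_betw (q m) _ _ _ (cr_all _ _ _ _ _ hPQ hβ0 ha0 hb0) ?_ ?_
      (cr_off _ _ _ _ _ hPQ hβ0 hb0 (hne d b (by omega) (by omega) (by omega)) hM)
    · have := hH.pos a m d (by omega) (by omega) hdn
      rw [cyc, cyc] at this
      exact this
    · have := hH.pos a b m hab (by omega) hm
      rw [cyc] at this
      exact this
  · refine ⟨q b, ?_, left_mem_segment ℝ _ _⟩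
    refine cr_betw (q m) _ _ _ hα0 ?_ ?_
      (cr_off _ _ _ _ _ hPQ ha0 hα0 (hne a c (by omega) (by omega) (by omega)) hM)
    · have := hH.pos a b m hab (by omega) hm
      rw [cyc] at this
      exact this
    · have := hH.pos b c m hbc (by omega) hm
      rw [cyc] at this
      exact this

end Q14NCH
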