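import Pool.Agent.Q14.NCH.Stmts

set_option autoImplicit false

namespace Q14NCH

namespace EnumPf

theorem lups_shift (u : ℕ → ℕ) : ∀ m a : ℕ,
    lups (u a) ((List.range m).map fun j => u (a + j + 1)) =
      ∑ j ∈ Finset.range m, if u (a + j + 1) = u (a + j) + 1 then 1 else 0 := by
  intro m
  induction m with
  | zero => intro a; simp [lups]
  | succ m ih =>
    intro a
    rw [List.range_succ_eq_map, List.map_cons, List.map_map, Finset.sum_range_succ']
    have h := ih (a + 1)
    have e1 : ((fun j => u (a + j + 1)) ∘ Nat.succ) = fun j => u (a + 1 + j + 1) := by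
      funext j
      simp only [Function.comp]
      congr 1
      omega
    have e2 : (∑ j ∈ Finset.range m, if u (a + (j + 1) + 1) = u (a + (j + 1)) + 1 then 1 else 0) =
        ∑ j ∈ Finset.range m, if u (a + 1 + j + 1) = u (a + 1 + j) + 1 then 1 else 0 := by
      refine Finset.sum_congr rfl fun j _ => ?_
      have e3 : a + (j + 1) = a + 1 + j := by omega
      rw [e3]
    rw [e1, e2, ← h]
    show (if u (a + 0 + 1) = u a + 1 then 1 else 0) + lups (u (a + 0 + 1)) _ = _
    rw [add_comm]
    rfl

theorem lups_eq (n : ℕ) (u : ℕ → ℕ) (h0 : u 0 = 0) :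
    lups 0 ((List.range n).map fun j => u (j + 1)) = ups n u := by
  have h := lups_shift u n 0
  rw [h0] at h
  unfold ups
  rw [Finset.card_filter]
  simpa using h

end EnumPf

theorem Enum : TaskEnum := by
  classical
  intro hAcc hAccSeq hSum n cor x y hn
  have hlen : (pattern n cor).length = n := by simp [pattern]
  obtain ⟨hfin, hW⟩ := hSum x y (pattern n cor) 0 0 le_rfl
  set Φ : (ℕ → ℕ) → List ℕ := fun u => (List.range n).map fun j => u (j + 1) with hΦ
  set S : Set (ℕ → ℕ) := {u | Seq n u ∧ SideSeq n cor u} with hS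
  have himg : Φ '' S = {vs | Acc (pattern n cor) 0 0 vs} := by
    ext vs
    constructor
    · rintro ⟨u, ⟨hu, hside⟩, rfl⟩
      exact (hAcc n cor u hn hu).1 hside
    · intro hvs
      obtain ⟨u, hu, rfl⟩ := hAccSeq n cor vs hn hvs
      exact ⟨u, ⟨hu, (hAcc n cor u hn hu).2 hvs⟩, rfl⟩
  have hinj : Set.InjOn Φ S := by
    rintro u ⟨hu, -⟩ v ⟨hv, -⟩ huv
    funext j
    rcases Nat.eq_zero_or_pos j with rfl | hj
    · rw [hu.1, hv.1]
    · rcases le_or_gt n j with hnj | hnj
      · rw [hu.2.1 j hnj, hv.2.1 j hnj]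
      · have h1 := List.map_inj_left.1 huv (j - 1) (List.mem_range.2 (by omega))
        have e : j - 1 + 1 = j := by omega
        rwa [e] at h1
  have hSfin : S.Finite := by
    rw [← himg] at hfin
    exact Set.Finite.of_finite_image hfin hinj
  rw [hW, ← himg, finsum_mem_image hinj, finsum_mem_eq_finite_toFinset_sum _ hSfin]
  have hmaps : ∀ u ∈ hSfin.toFinset, ups n u ∈ Finset.range (n + 1) := by
    intro u _
    rw [Finset.mem_range]
    have h : ups n u ≤ (Finset.range n).card := Finset.card_filter_le _ _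
    rw [Finset.card_range] at h
    omega
  rw [← Finset.sum_fiberwise_of_maps_to hmaps]
  refine Finset.sum_congr rfl fun k _ => ?_
  have hset : ({u : ℕ → ℕ | Seq n u ∧ SideSeq n cor u ∧ ups n u = k}.ncard : ℤ) =
      ((hSfin.toFinset.filter fun u => ups n u = k).card : ℤ) := by
    rw [← Set.ncard_coe_finset]
    congr 2
    ext u
    simp [hS, and_assoc]
  rw [hset, ← nsmul_eq_mul, ← Finset.sum_const]
  refine Finset.sum_congr rfl fun u hu => ?_
  rw [Finset.mem_filter, Set.Finite.mem_toFinset] at hu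
  obtain ⟨⟨hu1, -⟩, hu2⟩ := hu
  have h := EnumPf.lups_eq n u hu1.1
  show x ^ lups 0 (Φ u) * y ^ ((pattern n cor).length - lups 0 (Φ u)) = _
  rw [hlen]
  show x ^ lups 0 ((List.range n).map fun j => u (j + 1)) *
    y ^ (n - lups 0 ((List.range n).map fun j => u (j + 1))) = _
  rw [h, hu2]

end Q14NCH
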