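import Pool.Agent.Q14.NCH.Stmts

set_option autoImplicit false

namespace Q14NCH

private lemma orient_aff (u v x y : Plane) (a b : ℝ) (hab : a + b = 1) :
    orient u v (a • x + b • y) = a * orient u v x + b * orient u v y := by
  obtain rfl : b = 1 - a := by linarith
  simp only [orient, Prod.fst_add, Prod.snd_add, Prod.smul_fst, Prod.smul_snd, smul_eq_mul]
  ring

private lemma face_aux (S : Set Plane) (φ : Plane → ℝ)
    (hφ : ∀ (x y : Plane) (a b : ℝ), a + b = 1 → φ (a • x + b • y) = a * φ x + b * φ y)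
    (hS : ∀ z ∈ S, 0 ≤ φ z) (x : Plane) (hx : x ∈ convexHull ℝ S) :
    0 ≤ φ x ∧ (φ x ≤ 0 → x ∈ convexHull ℝ {z | z ∈ S ∧ φ z = 0}) := by
  have hconv : Convex ℝ {x : Plane | 0 < φ x ∨ (φ x = 0 ∧ x ∈ convexHull ℝ {z | z ∈ S ∧ φ z = 0})} := by
    intro y hy z hz a b ha hb hab
    rcases eq_or_lt_of_le ha with ha0 | ha0
    · obtain rfl : b = 1 := by linarith
      rw [← ha0, zero_smul, one_smul, zero_add]
      exact hz
    rcases eq_or_lt_of_le hb with hb0 | hb0
    · obtain rfl : a = 1 := by linarith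
      rw [← hb0, zero_smul, one_smul, add_zero]
      exact hy
    show 0 < φ (a • y + b • z) ∨ (φ (a • y + b • z) = 0 ∧ _)
    rw [hφ y z a b hab]
    rcases hy with hy | ⟨hy, hy'⟩
    · left
      have h1 : 0 ≤ φ z := by
        rcases hz with hz | ⟨hz, -⟩
        · exact hz.le
        · exact hz.ge
      have h2 := mul_pos ha0 hy
      have h3 := mul_nonneg hb h1
      linarith
    · rcases hz with hz | ⟨hz, hz'⟩
      · left
        have h2 := mul_pos hb0 hz
        rw [hy]
        linarith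
      · right
        refine ⟨by rw [hy, hz]; ring, ?_⟩
        exact (convex_convexHull ℝ _) hy' hz' ha hb hab
  have hsub : S ⊆ {x : Plane | 0 < φ x ∨ (φ x = 0 ∧ x ∈ convexHull ℝ {z | z ∈ S ∧ φ z = 0})} := by
    intro z hz
    rcases eq_or_lt_of_le (hS z hz) with h | h
    · exact Or.inr ⟨h.symm, subset_convexHull ℝ _ ⟨hz, h.symm⟩⟩
    · exact Or.inl h
  have h1 := convexHull_min hsub hconv hx
  rcases h1 with h | ⟨h, h'⟩
  · exact ⟨h.le, fun h2 => absurd h (not_lt.2 h2)⟩
  · exact ⟨h.ge, fun _ => h'⟩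

theorem Face : TaskFace := by
  intro q A B u v x hA hB hxA hxB
  have h1 := face_aux (q '' (A : Set ℕ)) (orient u v) (fun x y a b hab => orient_aff u v x y a b hab)
    (by rintro _ ⟨a, ha, rfl⟩; exact hA a ha) x hxA
  have h2 := face_aux (q '' (B : Set ℕ)) (fun z => -orient u v z)
    (fun x y a b hab => by
      show -orient u v (a • x + b • y) = a * -orient u v x + b * -orient u v y
      rw [orient_aff u v x y a b hab]; ring)
    (by
      rintro _ ⟨b, hb, rfl⟩
      have := hB b hb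
      show 0 ≤ -orient u v (q b)
      linarith) x hxB
  have h3 := h1.2 (by have := h2.1; linarith)
  have h4 := h2.2 (by have := h1.1; show -orient u v x ≤ 0; linarith)
  refine ⟨convexHull_mono ?_ h3, convexHull_mono ?_ h4⟩
  · rintro _ ⟨⟨a, ha, rfl⟩, h⟩
    exact ⟨a, ⟨ha, h⟩, rfl⟩
  · rintro _ ⟨⟨b, hb, rfl⟩, h⟩
    exact ⟨b, ⟨hb, neg_eq_zero.1 h⟩, rfl⟩

end Q14NCH
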