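import Pool.Agent.Q14.NCH.Stmts

namespace Q14NCH

theorem FromSeq : TaskFromSeq := by
  intro n u _
  refine ⟨?_, ?_, ?_, ?_⟩
  · intro i _
    refine ⟨rfl, fun k h1 h2 => ?_⟩
    have : k = i := by
      rw [min_self] at h1
      rw [max_self] at h2
      omega
    rw [this]
  · rintro i j _ _ ⟨h1, h2⟩
    refine ⟨h1.symm, fun k h3 h4 => ?_⟩
    rw [min_comm] at h3
    rw [max_comm] at h4
    rw [← h1]
    exact h2 k h3 h4
  · rintro i j k _ _ _ ⟨h1, h2⟩ ⟨h3, h4⟩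
    refine ⟨h1.trans h3, fun l h5 h6 => ?_⟩
    have h7 : (min i j ≤ l ∧ l ≤ max i j) ∨ (min j k ≤ l ∧ l ≤ max j k) := by omega
    rcases h7 with h7 | h7
    · exact h2 l h7.1 h7.2
    · rw [h1]
      exact h4 l h7.1 h7.2
  · rintro a b c d hab hbc hcd _ ⟨h1, h2⟩ ⟨h3, h4⟩
    have h5 : u a ≤ u b := h2 b (by omega) (by omega)
    have h6 : u b ≤ u c := h4 c (by omega) (by omega)
    refine ⟨by omega, fun k h7 h8 => h2 k (by omega) (by omega)⟩

end Q14NCH
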