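import Pool.Agent.Q14.NCH.Stmts

/-! Points on a line. -/

set_option autoImplicit false

namespace Q14NCH

namespace LineAux

lemma zero_of {d1 d2 w1 w2 : ℝ} (hd : 0 < d1 ^ 2 + d2 ^ 2) (h1 : d1 * w2 - d2 * w1 = 0)
    (h2 : d1 * w1 + d2 * w2 = 0) : w1 = 0 ∧ w2 = 0 := by
  constructor
  · have h : (d1 ^ 2 + d2 ^ 2) * w1 = 0 := by linear_combination d1 * h2 - d2 * h1
    rcases mul_eq_zero.1 h with h | h
    · exact absurd h hd.ne'
    · exact h
  · have h : (d1 ^ 2 + d2 ^ 2) * w2 = 0 := by linear_combination d2 * h2 + d1 * h1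
    rcases mul_eq_zero.1 h with h | h
    · exact absurd h hd.ne'
    · exact h

/-- the scalar product with the direction of the line -/
def F (u v c : Plane) : ℝ := (v.1 - u.1) * c.1 + (v.2 - u.2) * c.2

lemma seg_of {u v p r w : Plane} (huv : u ≠ v) (hp : orient u v p = 0) (hr : orient u v r = 0)
    (hw : orient u v w = 0) (h1 : F u v p ≤ F u v w) (h2 : F u v w ≤ F u v r) :
    w ∈ segment ℝ p r := by
  unfold orient at hp hr hw
  unfold F at h1 h2
  have hd : 0 < (v.1 - u.1) ^ 2 + (v.2 - u.2) ^ 2 := by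
    rcases lt_or_eq_of_le (add_nonneg (sq_nonneg (v.1 - u.1)) (sq_nonneg (v.2 - u.2))) with h | h
    · exact h
    · exfalso
      apply huv
      have h3 : (v.1 - u.1) ^ 2 = 0 := by nlinarith [sq_nonneg (v.1 - u.1), sq_nonneg (v.2 - u.2)]
      have h4 : (v.2 - u.2) ^ 2 = 0 := by nlinarith [sq_nonneg (v.1 - u.1), sq_nonneg (v.2 - u.2)]
      have h5 := pow_eq_zero_iff (two_ne_zero) |>.1 h3
      have h6 := pow_eq_zero_iff (two_ne_zero) |>.1 h4
      exact Prod.ext (by linarith) (by linarith)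
  rcases eq_or_lt_of_le (h1.trans h2) with h3 | h3
  · have h4 := zero_of (w1 := w.1 - p.1) (w2 := w.2 - p.2) hd (by linarith) (by linarith)
    have h5 : w = p := Prod.ext (by linarith [h4.1]) (by linarith [h4.2])
    rw [h5]
    exact left_mem_segment ℝ p r
  · have h6 : 0 < ((v.1 - u.1) * r.1 + (v.2 - u.2) * r.2) - ((v.1 - u.1) * p.1 + (v.2 - u.2) * p.2) := by
      linarith
    set D := ((v.1 - u.1) * r.1 + (v.2 - u.2) * r.2) - ((v.1 - u.1) * p.1 + (v.2 - u.2) * p.2) with hD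
    set N := ((v.1 - u.1) * w.1 + (v.2 - u.2) * w.2) - ((v.1 - u.1) * p.1 + (v.2 - u.2) * p.2) with hN
    have hN0 : 0 ≤ N := by rw [hN]; linarith
    have hND : N ≤ D := by rw [hN, hD]; linarith
    have ht0 : 0 ≤ N / D := div_nonneg hN0 h6.le
    have ht1 : N / D ≤ 1 := (div_le_one h6).2 hND
    have hmul : N / D * D = N := div_mul_cancel₀ _ h6.ne'
    set t := N / D with ht
    have h4 := zero_of (w1 := w.1 - ((1 - t) * p.1 + t * r.1)) (w2 := w.2 - ((1 - t) * p.2 + t * r.2)) hd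
      (by linear_combination hw - (1 - t) * hp - t * hr)
      (by linear_combination (-1 : ℝ) * hmul + t * hD - hN)
    refine ⟨1 - t, t, by linarith, ht0, by ring, ?_⟩
    refine Prod.ext ?_ ?_
    · show (1 - t) * p.1 + t * r.1 = w.1
      linarith [h4.1]
    · show (1 - t) * p.2 + t * r.2 = w.2
      linarith [h4.2]

lemma bounds {q : ℕ → Plane} {A : Finset ℕ} {x : Plane} (u v : Plane)
    (hx : x ∈ convexHull ℝ (q '' (A : Set ℕ))) :
    ∃ a ∈ A, ∃ c ∈ A, F u v (q a) ≤ F u v x ∧ F u v x ≤ F u v (q c) ∧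
      (∀ y ∈ A, F u v (q a) ≤ F u v (q y)) ∧ ∀ y ∈ A, F u v (q y) ≤ F u v (q c) := by
  have hA : A.Nonempty := by
    by_contra h
    rw [Finset.not_nonempty_iff_eq_empty] at h
    subst h
    simp at hx
  obtain ⟨a, ha, ha'⟩ := A.exists_min_image (fun y => F u v (q y)) hA
  obtain ⟨c, hc, hc'⟩ := A.exists_max_image (fun y => F u v (q y)) hA
  have hconv : Convex ℝ {w : Plane | F u v (q a) ≤ F u v w ∧ F u v w ≤ F u v (q c)} := by
    intro w hw z hz s t hs ht hst
    have h1 : F u v (s • w + t • z) = s * F u v w + t * F u v z := by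
      show (v.1 - u.1) * (s * w.1 + t * z.1) + (v.2 - u.2) * (s * w.2 + t * z.2) =
        s * ((v.1 - u.1) * w.1 + (v.2 - u.2) * w.2) + t * ((v.1 - u.1) * z.1 + (v.2 - u.2) * z.2)
      ring
    have hs' : s = 1 - t := by linarith
    constructor
    · rw [h1]
      have h2 := mul_le_mul_of_nonneg_left hw.1 hs
      have h3 := mul_le_mul_of_nonneg_left hz.1 ht
      have h4 : s * F u v (q a) + t * F u v (q a) = F u v (q a) := by rw [← add_mul, hst, one_mul]
      linarith
    · rw [h1]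
      have h2 := mul_le_mul_of_nonneg_left hw.2 hs
      have h3 := mul_le_mul_of_nonneg_left hz.2 ht
      have h4 : s * F u v (q c) + t * F u v (q c) = F u v (q c) := by rw [← add_mul, hst, one_mul]
      linarith
  have hsub : q '' (A : Set ℕ) ⊆ {w : Plane | F u v (q a) ≤ F u v w ∧ F u v w ≤ F u v (q c)} := by
    rintro _ ⟨y, hy, rfl⟩
    exact ⟨ha' y hy, hc' y hy⟩
  have h := convexHull_min hsub hconv hx
  exact ⟨a, ha, c, hc, h.1, h.2, ha', hc'⟩

end LineAux

open LineAux in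
theorem Line : TaskLine := by
  intro q A B u v x huv hA hB hxA hxB
  obtain ⟨a, ha, c, hc, h1, h2, -, -⟩ := bounds u v hxA
  obtain ⟨b, hb, d, hd, h3, h4, -, -⟩ := bounds u v hxB
  rcases le_total (F u v (q a)) (F u v (q b)) with h | h
  · exact Or.inl ⟨a, ha, c, hc, b, hb, seg_of huv (hA a ha) (hA c hc) (hB b hb) h (h3.trans h2)⟩
  · exact Or.inr ⟨b, hb, d, hd, a, ha, seg_of huv (hB b hb) (hB d hd) (hA a ha) h (h1.trans h4)⟩

end Q14NCH
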