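import Pool.Agent.Q14.NCH.Stmts

set_option autoImplicit false

namespace Q14NCH

namespace TNCIff

theorem ofNat_val {n : ℕ} (i : Fin (n + 1)) : Fin.ofNat (n + 1) i.val = i := by
  ext
  simp [Fin.ofNat, Nat.mod_eq_of_lt i.2]

theorem seqOf_val {n : ℕ} (p : Fin (n + 1) → Plane) (i : Fin (n + 1)) :
    seqOf p i.val = p i := by
  unfold seqOf
  rw [ofNat_val]

theorem hull_eq {n : ℕ} (p : Fin (n + 1) → Plane) (A : Finset (Fin (n + 1))) :
    hull p A = convexHull ℝ (seqOf p '' ((A.image Fin.val : Finset ℕ) : Set ℕ)) := by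
  unfold hull
  congr 1
  ext x
  constructor
  · rintro ⟨i, hi, rfl⟩
    refine ⟨i.val, ?_, seqOf_val p i⟩
    exact Finset.mem_coe.2 (Finset.mem_image.2 ⟨i, Finset.mem_coe.1 hi, rfl⟩)
  · rintro ⟨j, hj, rfl⟩
    obtain ⟨i, hi, rfl⟩ := Finset.mem_image.1 (Finset.mem_coe.1 hj)
    exact ⟨i, Finset.mem_coe.2 hi, (seqOf_val p i).symm⟩

/-- coordinates of a point of a segment -/
theorem seg_coord {x y z : Plane} (h : z ∈ segment ℝ x y) :
    ∃ t : ℝ, z.1 = x.1 + t * (y.1 - x.1) ∧ z.2 = x.2 + t * (y.2 - x.2) := by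
  obtain ⟨a, b, _, _, hab, rfl⟩ := h
  refine ⟨b, ?_, ?_⟩
  · simp only [Prod.fst_add, Prod.smul_fst, smul_eq_mul]
    have : a = 1 - b := by linarith
    rw [this]; ring
  · simp only [Prod.snd_add, Prod.smul_snd, smul_eq_mul]
    have : a = 1 - b := by linarith
    rw [this]; ring

theorem orient_zero {x y u v w : Plane} (hu : u ∈ segment ℝ x y) (hv : v ∈ segment ℝ x y)
    (hw : w ∈ segment ℝ x y) : orient u v w = 0 := by
  obtain ⟨a, ha1, ha2⟩ := seg_coord hu
  obtain ⟨b, hb1, hb2⟩ := seg_coord hv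
  obtain ⟨c, hc1, hc2⟩ := seg_coord hw
  unfold orient
  rw [ha1, ha2, hb1, hb2, hc1, hc2]
  ring

/-- the condition on the segments -/
theorem noSeg (h2 : TaskSeg2) (hB : TaskBetw) {n : ℕ} (p : Fin (n + 1) → Plane)
    (hq : Hull (n + 1) (seqOf p)) (π : Finpartition (Finset.univ : Finset (Fin (n + 1))))
    (hside : SideRel (n + 1) (Corner (seqOf p))
        (fun i j => π.part (Fin.ofNat (n + 1) i) = π.part (Fin.ofNat (n + 1) j)))
    (A : Finset (Fin (n + 1))) (hA : A ∈ π.parts) (a b c : Fin (n + 1)) (ha : a ∈ A)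
    (hc : c ∈ A) (hb : b ∉ A) : seqOf p b.val ∉ segment ℝ (seqOf p a.val) (seqOf p c.val) := by
  -- the ordered case
  have key : ∀ a c : Fin (n + 1), a ∈ A → c ∈ A → a.val < c.val →
      seqOf p b.val ∉ segment ℝ (seqOf p a.val) (seqOf p c.val) := by
    intro a c ha hc hac hs
    have hba : b.val ≠ a.val := fun h => hb (by rw [Fin.ext h]; exact ha)
    have hbc : b.val ≠ c.val := fun h => hb (by rw [Fin.ext h]; exact hc)
    have hpa : π.part a = A := π.part_eq_of_mem hA ha
    have hpc : π.part c = A := π.part_eq_of_mem hA hc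
    have hpb : π.part b ≠ A := fun h => hb (by rw [← h]; exact π.mem_part (Finset.mem_univ _))
    rcases h2 hB (n + 1) (seqOf p) hq a.val c.val b.val hac c.2 b.2 hba hbc hs with
      ⟨h3, h4, h5⟩ | ⟨h3, h4, h5⟩
    · have := hside.1 a.val c.val b.val h3 h4 c.2 h5 (by
        simp only [ofNat_val]; rw [hpa, hpc])
      simp only [ofNat_val] at this
      exact hpb (by rw [← this, hpa])
    · have h0 : a = 0 := Fin.ext h3
      have := hside.2 c.val b.val h4 b.2 h5 (by
        simp only [ofNat_val]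
        rw [hpc]
        have : Fin.ofNat (n + 1) 0 = a := by rw [h0]; rfl
        rw [this, hpa])
      simp only [ofNat_val] at this
      have h6 : Fin.ofNat (n + 1) 0 = a := by rw [h0]; rfl
      rw [h6] at this
      exact hpb (by rw [← this, hpa])
  rcases lt_trichotomy a.val c.val with h | h | h
  · exact key a c ha hc h
  · intro hs
    rw [h, segment_same] at hs
    have := hq.inj b.val c.val b.2 c.2 hs
    exact hb (by rw [Fin.ext this]; exact hc)
  · rw [segment_symm]
    exact key c a hc ha h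

end TNCIff

open TNCIff

theorem NCIff : TaskNCIff := by
  intro h1 h2 hB hC hS hArc hFace hLine n p hq π
  have hmem : ∀ i : ℕ, Fin.ofNat (n + 1) i ∈ π.part (Fin.ofNat (n + 1) i) :=
    fun i => π.mem_part (Finset.mem_univ _)
  have hpart : ∀ i : ℕ, π.part (Fin.ofNat (n + 1) i) ∈ π.parts :=
    fun i => π.part_mem.2 (Finset.mem_univ _)
  have hin : ∀ i j : ℕ, π.part (Fin.ofNat (n + 1) i) = π.part (Fin.ofNat (n + 1) j) →
      seqOf p i ∈ hull p (π.part (Fin.ofNat (n + 1) j)) := by
    intro i j hij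
    refine subset_convexHull ℝ _ ⟨Fin.ofNat (n + 1) i, ?_, rfl⟩
    rw [← hij]
    exact Finset.mem_coe.2 (hmem i)
  have hseg : ∀ i j : ℕ, π.part (Fin.ofNat (n + 1) i) = π.part (Fin.ofNat (n + 1) j) →
      segment ℝ (seqOf p i) (seqOf p j) ⊆ hull p (π.part (Fin.ofNat (n + 1) i)) := by
    intro i j hij
    exact (convex_convexHull ℝ _).segment_subset (hin i i rfl) (hin j i hij.symm)
  constructor
  · intro hd
    have hon : ∀ a b c : ℕ, π.part (Fin.ofNat (n + 1) a) = π.part (Fin.ofNat (n + 1) b) →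
        seqOf p c ∈ segment ℝ (seqOf p a) (seqOf p b) →
        π.part (Fin.ofNat (n + 1) a) = π.part (Fin.ofNat (n + 1) c) := by
      intro a b c hab hc
      by_contra hne
      exact Set.disjoint_left.1 (hd _ (hpart a) _ (hpart c) hne) (hseg a b hab hc) (hin c c rfl)
    refine ⟨⟨fun i _ => rfl, fun i j _ _ h => h.symm, fun i j k _ _ _ h h' => h.trans h', ?_⟩,
      ?_, ?_⟩
    · intro a b c d hab hbc hcd hd' hac hbd
      by_contra hne
      apply hC (n + 1) (seqOf p) hq a b c d hab hbc hcd hd'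
      exact (hd _ (hpart a) _ (hpart b) hne).mono (hseg a c hac) (hseg b d hbd)
    · intro a b c hac hcb hbn hcor hr
      exact hon a b c hr (h1 hB (n + 1) (seqOf p) hq a b c (hac.trans hcb) hbn (hcb.trans hbn)
        (Or.inl ⟨hac, hcb, hcor⟩))
    · intro b c hbc hcn hcor hr
      rcases Nat.eq_zero_or_pos b with hb | hb
      · exfalso
        subst hb
        have hall : ∀ i, i < n + 1 → seqOf p i ∈ segment ℝ (seqOf p 0) (seqOf p 1) := by
          intro i hi
          rcases Nat.lt_or_ge i 2 with h | h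
          · interval_cases i
            · exact left_mem_segment ℝ _ _
            · exact right_mem_segment ℝ _ _
          · exact h1 hB (n + 1) (seqOf p) hq 0 1 i (by norm_num) (by omega) hi
              (Or.inr ⟨rfl, by omega, fun j hj hj' => hcor j (by omega) hj'⟩)
        obtain ⟨i, j, k, hij, hjk, hk, hne⟩ := hq.line
        exact hne (orient_zero (hall i (by omega)) (hall j (by omega)) (hall k hk))
      · exact hon 0 b c hr (h1 hB (n + 1) (seqOf p) hq 0 b c hb (hbc.trans hcn) hcn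
          (Or.inr ⟨rfl, hbc, hcor⟩))
  · rintro ⟨hnc, hside⟩ A hA B hB' hAB
    have hdis : ∀ x, x ∈ A → x ∉ B := fun x hx hx' =>
      hAB ((π.part_eq_of_mem hA hx).symm.trans (π.part_eq_of_mem hB' hx'))
    have hr : ∀ (C : Finset (Fin (n + 1))), C ∈ π.parts → ∀ x ∈ C, π.part x = C :=
      fun C hC x hx => π.part_eq_of_mem hC hx
    rw [hull_eq, hull_eq]
    refine hS hArc hFace hLine (n + 1) (seqOf p) hq _ _ ?_ ?_ ?_ ?_ ?_ ?_ ?_ ?_
    · rw [Finset.disjoint_left]
      intro x hx hx'
      obtain ⟨i, hi, rfl⟩ := Finset.mem_image.1 hx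
      obtain ⟨j, hj, hji⟩ := Finset.mem_image.1 hx'
      rw [Fin.ext hji] at hj
      exact hdis i hi hj
    · exact (π.nonempty_of_mem_parts hA).image _
    · exact (π.nonempty_of_mem_parts hB').image _
    · intro a ha
      obtain ⟨i, _, rfl⟩ := Finset.mem_image.1 ha
      exact i.2
    · intro a ha
      obtain ⟨i, _, rfl⟩ := Finset.mem_image.1 ha
      exact i.2
    · constructor
      · intro a ha b hb c hc d hd ⟨hab, hbc, hcd⟩
        obtain ⟨a, ka, rfl⟩ := Finset.mem_image.1 ha
        obtain ⟨b, kb, rfl⟩ := Finset.mem_image.1 hb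
        obtain ⟨c, kc, rfl⟩ := Finset.mem_image.1 hc
        obtain ⟨d, kd, rfl⟩ := Finset.mem_image.1 hd
        have := hnc.2.2.2 a.val b.val c.val d.val hab hbc hcd d.2
          (by simp only [ofNat_val]; rw [hr A hA a ka, hr A hA c kc])
          (by simp only [ofNat_val]; rw [hr B hB' b kb, hr B hB' d kd])
        simp only [ofNat_val] at this
        rw [hr A hA a ka, hr B hB' b kb] at this
        exact hAB this
      · intro a ha b hb c hc d hd ⟨hab, hbc, hcd⟩
        obtain ⟨a, ka, rfl⟩ := Finset.mem_image.1 ha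
        obtain ⟨b, kb, rfl⟩ := Finset.mem_image.1 hb
        obtain ⟨c, kc, rfl⟩ := Finset.mem_image.1 hc
        obtain ⟨d, kd, rfl⟩ := Finset.mem_image.1 hd
        have := hnc.2.2.2 b.val a.val d.val c.val hab hbc hcd c.2
          (by simp only [ofNat_val]; rw [hr B hB' b kb, hr B hB' d kd])
          (by simp only [ofNat_val]; rw [hr A hA a ka, hr A hA c kc])
        simp only [ofNat_val] at this
        rw [hr A hA a ka, hr B hB' b kb] at this
        exact hAB this.symm
    · intro a ha c hc b hb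
      obtain ⟨a, ka, rfl⟩ := Finset.mem_image.1 ha
      obtain ⟨b, kb, rfl⟩ := Finset.mem_image.1 hb
      obtain ⟨c, kc, rfl⟩ := Finset.mem_image.1 hc
      exact noSeg h2 hB p hq π hside A hA a b c ka kc (fun h => hdis b h kb)
    · intro b hb d hd a ha
      obtain ⟨a, ka, rfl⟩ := Finset.mem_image.1 ha
      obtain ⟨b, kb, rfl⟩ := Finset.mem_image.1 hb
      obtain ⟨d, kd, rfl⟩ := Finset.mem_image.1 hd
      exact noSeg h2 hB p hq π hside B hB' b a d kb kd (fun h => hdis a ka h)

end Q14NCH
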