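import Pool.Agent.Q14.NCH.Stmts

set_option autoImplicit false

namespace Q14NCH

namespace PosetAux

theorem le_of_card {m : ℕ} {s : Finset (Fin m)} (P Q : Finpartition s) (h : P ≤ Q)
    (hc : P.parts.card ≤ Q.parts.card) : Q ≤ P := by
  have h' : ∀ b ∈ P.parts, ∃ c ∈ Q.parts, b ≤ c := fun b hb => h hb
  choose f hf1 hf2 using h'
  have key : ∀ A ∈ Q.parts, ∀ x ∈ A, ∃ (B : Finset (Fin m)) (hB : B ∈ P.parts), x ∈ B ∧
      f B hB = A := by
    intro A hA x hx
    obtain ⟨B, hB, hxB⟩ := P.exists_mem (Q.le hA hx)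
    exact ⟨B, hB, hxB, Q.eq_of_mem_parts (hf1 B hB) hA (hf2 B hB hxB) hx⟩
  have inj := Finset.inj_on_of_surj_on_of_card_le (s := P.parts) (t := Q.parts) f hf1
    (fun A hA => by
      obtain ⟨x, hx⟩ := Q.nonempty_of_mem_parts hA
      obtain ⟨B, hB, -, h⟩ := key A hA x hx
      exact ⟨B, hB, h⟩) hc
  intro A hA
  obtain ⟨x, hx⟩ := Q.nonempty_of_mem_parts hA
  obtain ⟨B, hB, hxB, hfB⟩ := key A hA x hx
  refine ⟨B, hB, fun y hy => ?_⟩
  obtain ⟨B', hB', hyB', hfB'⟩ := key A hA y hy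
  have : B = B' := inj hB hB' (hfB.trans hfB'.symm)
  rw [this]; exact hyB'

end PosetAux

theorem Poset : TaskPoset := by
  intro n p hp
  have hne : (Finset.univ : Finset (Fin (n + 1))) ≠ ⊥ := Finset.univ_nonempty.ne_empty
  refine ⟨⟨⟨⊥, ?_⟩, ?_, ?_⟩, ⟨⟨Finpartition.indiscrete hne, ?_⟩, ?_, ?_⟩, ?_, ?_⟩
  · intro A hA B hB hAB
    rw [Finpartition.mem_bot_iff] at hA hB
    obtain ⟨a, -, rfl⟩ := hA
    obtain ⟨b, -, rfl⟩ := hB
    unfold hull
    rw [Finset.coe_singleton, Finset.coe_singleton, Set.image_singleton, Set.image_singleton,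
      convexHull_singleton, convexHull_singleton, Set.disjoint_singleton]
    intro h
    exact hAB (by rw [hp h])
  · intro π
    exact bot_le (a := π.1)
  · rw [Finpartition.card_bot]; simp
  · intro A hA B hB hAB
    rw [Finpartition.indiscrete_parts, Finset.mem_singleton] at hA hB
    exact absurd (hA.trans hB.symm) hAB
  · intro π
    show π.1 ≤ Finpartition.indiscrete hne
    intro A hA
    exact ⟨Finset.univ, by rw [Finpartition.indiscrete_parts, Finset.mem_singleton],
      Finset.subset_univ A⟩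
  · rw [Finpartition.indiscrete_parts, Finset.card_singleton]
  · intro π
    refine ⟨Finset.card_pos.2 (π.1.parts_nonempty hne), ?_⟩
    have := π.1.card_parts_le_card
    simpa using this
  · intro π σ h
    by_contra hc
    push Not at hc
    have h1 : π.1 ≤ σ.1 := h.le
    have h2 : σ.1 ≤ π.1 := PosetAux.le_of_card _ _ h1 hc
    exact absurd (show σ ≤ π from h2) (not_le_of_gt h)

end Q14NCH
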