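import Pool.Agent.Q14.NCH.Stmts

set_option autoImplicit false

/-! MP_f3bbeb_co: sizes of the levels of a rank symmetric poset. -/

namespace Q14NCH

namespace RankCountAux

theorem hasRank_iff (hG : TaskGraded) (α : Type) [PartialOrder α] [Finite α] [OrderBot α] (f : α → ℕ)
    (N : ℕ) (h1 : StrictMono f) (h2 : f ⊥ = 0) (h3 : ∀ x, x ≠ ⊥ → ∃ y, y < x ∧ f y + 1 = f x)
    (hN : IsGraded α N) (x : α) (i : ℕ) : HasRank x i ↔ f x = i := by
  constructor
  · rintro ⟨c, hc, hx, hi⟩
    rw [← hG α f N h1 h2 h3 hN x c hc hx, hi]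
  · intro h
    have hch : IsChain (· ≤ ·) ({x} : Set α) := Set.pairwise_singleton _ _
    obtain ⟨c, hc, hsub⟩ := hch.exists_maxChain
    have hx : x ∈ c := hsub rfl
    exact ⟨c, hc, hx, by rw [hG α f N h1 h2 h3 hN x c hc hx, h]⟩

end RankCountAux

open RankCountAux in
theorem RankCount : TaskRankCount := by
  intro hG α _ _ _ _ f h1 h2 h3 hS i hi
  obtain ⟨N, hN, hsym⟩ := hS
  have key := hasRank_iff hG α f N h1 h2 h3 hN
  have hNf : N = f ⊤ := by
    have hch : IsChain (· ≤ ·) ({⊤} : Set α) := Set.pairwise_singleton _ _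
    obtain ⟨c, hc, hsub⟩ := hch.exists_maxChain
    have hx : (⊤ : α) ∈ c := hsub rfl
    have e1 := hN c hc
    have e2 := hG α f N h1 h2 h3 hN ⊤ c hc hx
    have e3 : c = insert ⊤ {y | y ∈ c ∧ y < ⊤} := by
      ext y
      simp only [Set.mem_insert_iff, Set.mem_ofPred_eq]
      constructor
      · intro hy
        by_cases h : y = ⊤
        · exact Or.inl h
        · exact Or.inr ⟨hy, lt_top_iff_ne_top.2 h⟩
      · rintro (h | h)
        · rw [h]; exact hx
        · exact h.1
    have e4 : (insert (⊤ : α) {y | y ∈ c ∧ y < ⊤}).ncard = {y | y ∈ c ∧ y < ⊤}.ncard + 1 :=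
      Set.ncard_insert_of_notMem (fun h => lt_irrefl _ h.2) (Set.toFinite _)
    rw [e3, e4, e2] at e1
    omega
  subst hNf
  have := hsym i hi
  simp only [key] at this
  exact this

end Q14NCH
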