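import Pool.Agent.Q14.NCH.Stmts

set_option autoImplicit false

namespace Q14NCH

theorem RankNC : TaskRankNC := by
  intro hRC hG hSplit hShell hPoset n p hp hsym i hi
  obtain ⟨⟨b, hb, hbc⟩, ⟨t, ht, htc⟩, hcard, hmono⟩ := hPoset n p hp
  letI : OrderBot (NC p) := { bot := b, bot_le := hb }
  letI : OrderTop (NC p) := { top := t, le_top := ht }
  haveI : Finite (NC p) := inferInstance
  have hbot : (⊥ : NC p) = b := rfl
  have htop : (⊤ : NC p) = t := rfl
  have h := hRC hG (NC p) (fun π => n + 1 - π.1.parts.card)
    (by
      intro π σ hlt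
      have h1 := hmono π σ hlt
      have h2 := hcard π
      show n + 1 - π.1.parts.card < n + 1 - σ.1.parts.card
      omega)
    (by
      show n + 1 - (⊥ : NC p).1.parts.card = 0
      rw [hbot, hbc]
      omega)
    (by
      intro x hx
      have hne : x.1.parts.card ≠ n + 1 := by
        intro h1
        have h2 : b < x := lt_of_le_of_ne (hb x) (fun h3 => hx (by rw [hbot, h3]))
        have h3 := hmono b x h2
        omega
      obtain ⟨σ, hσ, hσc⟩ := hSplit hShell n p hp x hne
      refine ⟨σ, hσ, ?_⟩
      have h4 := hcard σ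
      show n + 1 - σ.1.parts.card + 1 = n + 1 - x.1.parts.card
      omega)
    hsym i
    (by
      show i ≤ n + 1 - (⊤ : NC p).1.parts.card
      rw [htop, htc]
      omega)
  have h1 : {π : NC p | π.1.parts.card = i + 1} =
      {x : NC p | n + 1 - x.1.parts.card = (n + 1 - (⊤ : NC p).1.parts.card) - i} := by
    ext π
    have h2 := hcard π
    simp only [Set.mem_setOf_eq]
    rw [htop, htc]
    omega
  have h2 : {π : NC p | π.1.parts.card = n + 1 - i} =
      {x : NC p | n + 1 - x.1.parts.card = i} := by
    ext π
    have h3 := hcard π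
    simp only [Set.mem_setOf_eq]
    omega
  rw [h1, h2]
  exact h.symm

end Q14NCH
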