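import Pool.Agent.Q14.NCH.Stmts

/-! MP_f3bbeb_co, blueprint: task `TaskSeg1`. -/

namespace Q14NCH

namespace SegOne

/-- `X` is on the line through `P` and `Q` -/
def OnL (P Q X : Plane) : Prop :=
  ∃ s : ℝ, X.1 = P.1 + s * (Q.1 - P.1) ∧ X.2 = P.2 + s * (Q.2 - P.2)

theorem onL_of_orient {P Q X : Plane} (hPQ : P ≠ Q) (h : orient P Q X = 0) : OnL P Q X := by
  unfold orient at h
  by_cases h1 : Q.1 - P.1 = 0
  · have h2 : Q.2 - P.2 ≠ 0 := by
      intro h2
      exact hPQ (Prod.ext (sub_eq_zero.1 h1).symm (sub_eq_zero.1 h2).symm)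
    rw [h1, zero_mul, zero_sub, neg_eq_zero, mul_eq_zero] at h
    have h3 := h.resolve_left h2
    refine ⟨(X.2 - P.2) / (Q.2 - P.2), ?_, ?_⟩
    · rw [h1, mul_zero, add_zero]
      linarith
    · rw [div_mul_cancel₀ _ h2]
      ring
  · refine ⟨(X.1 - P.1) / (Q.1 - P.1), ?_, ?_⟩
    · rw [div_mul_cancel₀ _ h1]
      ring
    · rw [div_mul_eq_mul_div, eq_comm, ← eq_sub_iff_add_eq', div_eq_iff h1]
      linarith

theorem orient_of_onL {P Q X Y Z : Plane} (hX : OnL P Q X) (hY : OnL P Q Y) (hZ : OnL P Q Z) :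
    orient X Y Z = 0 := by
  obtain ⟨s, h1, h2⟩ := hX
  obtain ⟨t, h3, h4⟩ := hY
  obtain ⟨r, h5, h6⟩ := hZ
  unfold orient
  rw [h1, h2, h3, h4, h5, h6]
  ring

theorem step {P Q X Y Z : Plane} (hX : OnL P Q X) (hY : OnL P Q Y) (hXY : X ≠ Y)
    (h : orient X Y Z = 0) : OnL P Q Z := by
  obtain ⟨s, h1, h2⟩ := hX
  obtain ⟨t, h3, h4⟩ := hY
  obtain ⟨r, h5, h6⟩ := onL_of_orient hXY h
  refine ⟨s + r * (t - s), ?_, ?_⟩
  · rw [h5, h3, h1]
    ring
  · rw [h6, h4, h2]
    ring

theorem chain (q : ℕ → Plane) (s e : ℕ) (hne : ∀ i, s ≤ i → i < e → q i ≠ q (i + 1))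
    (hc : ∀ i, s < i → i < e → orient (q (i - 1)) (q i) (q (i + 1)) = 0) (hse : s < e) :
    ∀ i, s ≤ i → i ≤ e → OnL (q s) (q (s + 1)) (q i) := by
  have key : ∀ d, s + d + 1 ≤ e → OnL (q s) (q (s + 1)) (q (s + d)) ∧
      OnL (q s) (q (s + 1)) (q (s + d + 1)) := by
    intro d
    induction d with
    | zero =>
      intro _
      exact ⟨⟨0, by simp, by simp⟩, ⟨1, by simp, by simp⟩⟩
    | succ d ih =>
      intro hd
      obtain ⟨h1, h2⟩ := ih (by omega)
      refine ⟨h2, ?_⟩
      have h3 := hc (s + d + 1) (by omega) (by omega)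
      rw [show s + d + 1 - 1 = s + d by omega] at h3
      exact step h1 h2 (hne (s + d) (by omega) (by omega)) h3
  intro i hi hie
  rcases Nat.lt_or_ge i e with h | h
  · have := (key (i - s) (by omega)).1
    rwa [show s + (i - s) = i by omega] at this
  · have := (key (i - s - 1) (by omega)).2
    rwa [show s + (i - s - 1) + 1 = i by omega] at this

theorem exists_off {n : ℕ} {q : ℕ → Plane} (h : Hull n q) (i j : ℕ) (hij : q i ≠ q j) :
    ∃ m, m < n ∧ orient (q i) (q j) (q m) ≠ 0 := by
  by_contra hcon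
  push Not at hcon
  obtain ⟨a, b, c, hab, hbc, hcn, hne⟩ := h.line
  exact hne (orient_of_onL (onL_of_orient hij (hcon a (by omega)))
    (onL_of_orient hij (hcon b (by omega))) (onL_of_orient hij (hcon c (by omega))))

theorem orient_cyc (a b c : Plane) : orient a b c = orient b c a := by
  unfold orient
  ring

end SegOne

open SegOne in
theorem Seg1 : TaskSeg1 := by
  intro hB n q h a b c hab hbn hcn hcase
  rcases hcase with ⟨hac, hcb, hno⟩ | ⟨ha0, hbc, hno⟩
  · have hne : ∀ i, a ≤ i → i < b → q i ≠ q (i + 1) := by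
      intro i h1 h2 h3
      have := h.inj i (i + 1) (by omega) (by omega) h3
      omega
    have hc : ∀ i, a < i → i < b → orient (q (i - 1)) (q i) (q (i + 1)) = 0 := by
      intro i h1 h2
      have h3 := h.pos (i - 1) i (i + 1) (by omega) (by omega) (by omega)
      have h4 := hno i h1 h2
      unfold Corner at h4
      exact le_antisymm (not_lt.1 h4) h3
    have hL := chain q a b hne hc hab
    have hacne : q a ≠ q c := by
      intro h3
      have := h.inj a c (by omega) hcn h3
      omega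
    obtain ⟨m, hm, hmo⟩ := exists_off h a c hacne
    have hmout : m < a ∨ b < m := by
      by_contra hcon
      push Not at hcon
      exact hmo (orient_of_onL (hL a le_rfl hab.le) (hL c hac.le hcb.le) (hL m hcon.1 hcon.2))
    exact (hB n q h a c b m hac hcb hbn hm
      (orient_of_onL (hL a le_rfl hab.le) (hL c hac.le hcb.le) (hL b hab.le le_rfl)) hmo).1 hmout
  · subst ha0
    have hne : ∀ i, b ≤ i → i < n → q i ≠ q (i + 1) := by
      intro i h1 h2 h3
      rcases Nat.lt_or_ge (i + 1) n with h4 | h4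
      · have := h.inj i (i + 1) (by omega) (by omega) h3
        omega
      · rw [show i + 1 = n by omega, h.wrap] at h3
        have := h.inj i 0 (by omega) (by omega) h3
        omega
    have hc : ∀ i, b < i → i < n → orient (q (i - 1)) (q i) (q (i + 1)) = 0 := by
      intro i h1 h2
      have h4 := hno i h1 h2
      unfold Corner at h4
      refine le_antisymm (not_lt.1 h4) ?_
      rcases Nat.lt_or_ge (i + 1) n with h5 | h5
      · exact h.pos (i - 1) i (i + 1) (by omega) (by omega) h5
      · rw [show i + 1 = n by omega, h.wrap, ← orient_cyc]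
        exact h.pos 0 (i - 1) i (by omega) (by omega) h2
    have hL := chain q b n hne hc hbn
    have h0 : OnL (q b) (q (b + 1)) (q 0) := by
      rw [← h.wrap]
      exact hL n hbn.le le_rfl
    have h0ne : q 0 ≠ q b := by
      intro h3
      have := h.inj 0 b (by omega) hbn h3
      omega
    obtain ⟨m, hm, hmo⟩ := exists_off h 0 b h0ne
    have hm1 : m < b := by
      by_contra hcon
      exact hmo (orient_of_onL h0 (hL b le_rfl hbn.le) (hL m (not_lt.1 hcon) hm.le))
    have hm0 : 0 < m := by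
      rcases Nat.eq_zero_or_pos m with rfl | h5
      · exact absurd (orient_of_onL h0 (hL b le_rfl hbn.le) h0) hmo
      · exact h5
    exact (hB n q h 0 b c m hab hbc hcn hm
      (orient_of_onL h0 (hL b le_rfl hbn.le) (hL c hbc.le hcn.le)) hmo).2.1 hm0 hm1

end Q14NCH
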