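import Pool.Agent.Q14.NCH.Stmts

namespace Q14NCH

private theorem colin_seg2 {a b x y z : Plane} (hab : a ≠ b) (hx : orient a b x = 0)
    (hy : orient a b y = 0) (hz : orient a b z = 0) : orient x y z = 0 := by
  unfold orient at *
  have h : b.1 - a.1 ≠ 0 ∨ b.2 - a.2 ≠ 0 := by
    by_contra hcon
    push Not at hcon
    exact hab (Prod.ext (by linarith [hcon.1]) (by linarith [hcon.2]))
  rcases h with h | h
  · apply mul_left_cancel₀ h
    linear_combination (y.1 - x.1) * (hz - hx) - (z.1 - x.1) * (hy - hx)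
  · apply mul_left_cancel₀ h
    linear_combination (y.2 - x.2) * (hz - hx) - (z.2 - x.2) * (hy - hx)

private theorem seg_orient_seg2 {a b c : Plane} (h : c ∈ segment ℝ a b) : orient a b c = 0 := by
  obtain ⟨α, β, hα, hβ, hαβ, rfl⟩ := h
  unfold orient
  simp only [Prod.fst_add, Prod.snd_add, Prod.smul_fst, Prod.smul_snd, smul_eq_mul]
  have : α = 1 - β := by linarith
  subst this
  ring

private theorem anti_seg2 {u x v : Plane} (h1 : x ∈ segment ℝ u v) (h2 : v ∈ segment ℝ u x) :
    x = v := by
  rw [mem_segment_iff_wbtw] at h1 h2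
  exact (wbtw_swap_right_iff ℝ u).1 ⟨h1, h2⟩

theorem Seg2 : TaskSeg2 := by
  intro hB n q hq a b c hab hbn hcn hca hcb hseg
  have han : a < n := hab.trans hbn
  have hqab : q a ≠ q b := fun h => hab.ne (hq.inj a b han hbn h)
  have hqca : q c ≠ q a := fun h => hca (hq.inj c a hcn han h)
  have hqcb : q c ≠ q b := fun h => hcb (hq.inj c b hcn hbn h)
  have hseg' : q c ∈ segment ℝ (q b) (q a) := by rw [segment_symm]; exact hseg
  have la : orient (q a) (q b) (q a) = 0 := by unfold orient; ring
  have lb : orient (q a) (q b) (q b) = 0 := by unfold orient; ring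
  have lc : orient (q a) (q b) (q c) = 0 := seg_orient_seg2 hseg
  -- a point off the line
  obtain ⟨m0, hm0n, hm0⟩ : ∃ m, m < n ∧ orient (q a) (q b) (q m) ≠ 0 := by
    by_contra hcon
    push Not at hcon
    obtain ⟨i, j, k, hij, hjk, hkn, h⟩ := hq.line
    exact h (colin_seg2 hqab (hcon i (by omega)) (hcon j (by omega)) (hcon k hkn))
  have off : ∀ i j m, i < n → j < n → i ≠ j → orient (q a) (q b) (q i) = 0 →
      orient (q a) (q b) (q j) = 0 → orient (q a) (q b) (q m) ≠ 0 →
      orient (q i) (q j) (q m) ≠ 0 := by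
    intro i j m hi hj hij li lj hm h
    have hne : q i ≠ q j := fun h => hij (hq.inj i j hi hj h)
    exact hm (colin_seg2 hne (colin_seg2 hqab li lj la) (colin_seg2 hqab li lj lb) h)
  have B : ∀ i j k m, i < j → j < k → k < n → m < n → orient (q a) (q b) (q i) = 0 →
      orient (q a) (q b) (q j) = 0 → orient (q a) (q b) (q k) = 0 →
      orient (q a) (q b) (q m) ≠ 0 →
      ((m < i ∨ k < m) → q j ∈ segment ℝ (q i) (q k)) ∧
      (i < m → m < j → q k ∈ segment ℝ (q i) (q j)) ∧
      (j < m → m < k → q i ∈ segment ℝ (q j) (q k)) := by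
    intro i j k m hij hjk hkn hmn li lj lk hm
    exact hB n q hq i j k m hij hjk hkn hmn (colin_seg2 hqab li lj lk)
      (off i j m (by omega) (by omega) hij.ne li lj hm)
  have V : 0 < a → (∀ m, m < n → orient (q a) (q b) (q m) ≠ 0 → a < m ∧ m < b) → False := by
    intro h0 hall
    have l0 : orient (q a) (q b) (q 0) = 0 := by
      by_contra h
      have := (hall 0 (by omega) h).1
      omega
    obtain ⟨h1, h2⟩ := hall m0 hm0n hm0
    have h3 := (B 0 a b m0 h0 hab hbn hm0n l0 la lb hm0).2.2 h1 h2
    apply hq.vertex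
    have ma : q a ∈ convexHull ℝ (q '' Set.Ioo 0 n) :=
      subset_convexHull ℝ _ (Set.mem_image_of_mem q ⟨h0, han⟩)
    have mb : q b ∈ convexHull ℝ (q '' Set.Ioo 0 n) :=
      subset_convexHull ℝ _ (Set.mem_image_of_mem q ⟨by omega, hbn⟩)
    exact (convex_convexHull ℝ _).segment_subset ma mb h3
  have neq : ∀ m, orient (q a) (q b) (q m) ≠ 0 → m ≠ a ∧ m ≠ b ∧ m ≠ c := by
    intro m hm
    refine ⟨?_, ?_, ?_⟩
    · intro h; rw [h] at hm; exact hm la
    · intro h; rw [h] at hm; exact hm lb
    · intro h; rw [h] at hm; exact hm lc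
  have X1 : ¬ q b ∈ segment ℝ (q a) (q c) := fun h => hqcb (anti_seg2 hseg h)
  have X2 : ¬ q a ∈ segment ℝ (q b) (q c) := fun h => hqca (anti_seg2 hseg' h)
  have X1' : ¬ q b ∈ segment ℝ (q c) (q a) := by rw [segment_symm]; exact X1
  have X2' : ¬ q a ∈ segment ℝ (q c) (q b) := by rw [segment_symm]; exact X2
  rcases lt_trichotomy c a with hc | hc | hc
  · exfalso
    refine V (by omega) fun m hmn hm => ?_
    have h := B c a b m hc hab hbn hmn lc la lb hm
    obtain ⟨e1, e2, e3⟩ := neq m hm
    have n1 : ¬ (m < c ∨ b < m) := fun h' => X2' (h.1 h')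
    have n2 : ¬ (c < m ∧ m < a) := fun h' => X1' (h.2.1 h'.1 h'.2)
    omega
  · exact absurd hc hca
  · rcases lt_trichotomy c b with hc' | hc' | hc'
    · refine Or.inl ⟨hc, hc', fun j h1 h2 hcor => ?_⟩
      have on : ∀ m, a ≤ m → m ≤ b → orient (q a) (q b) (q m) = 0 := by
        intro m hma hmb
        by_contra hm
        have h := B a c b m hc hc' hbn (by omega) la lc lb hm
        obtain ⟨e1, e2, e3⟩ := neq m hm
        have n1 : ¬ (a < m ∧ m < c) := fun h' => X1 (h.2.1 h'.1 h'.2)
        have n2 : ¬ (c < m ∧ m < b) := fun h' => X2' (h.2.2 h'.1 h'.2)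
        omega
      have := colin_seg2 hqab (on (j - 1) (by omega) (by omega)) (on j (by omega) (by omega))
        (on (j + 1) (by omega) (by omega))
      unfold Corner at hcor
      linarith
    · exact absurd hc' hcb
    · have hall : ∀ m, m < n → orient (q a) (q b) (q m) ≠ 0 → a < m ∧ m < b := by
        intro m hmn hm
        have h := B a b c m hab hc' hcn hmn la lb lc hm
        obtain ⟨e1, e2, e3⟩ := neq m hm
        have n1 : ¬ (m < a ∨ c < m) := fun h' => X1 (h.1 h')
        have n2 : ¬ (b < m ∧ m < c) := fun h' => X2 (h.2.2 h'.1 h'.2)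
        omega
      have ha0 : a = 0 := by
        by_contra h
        exact V (by omega) hall
      refine Or.inr ⟨ha0, hc', fun j h1 h2 hcor => ?_⟩
      have on : ∀ m, b ≤ m → m < n → orient (q a) (q b) (q m) = 0 := by
        intro m hmb hmn
        by_contra hm
        have := (hall m hmn hm).2
        omega
      have on' : orient (q a) (q b) (q (j + 1)) = 0 := by
        by_cases hj : j + 1 < n
        · exact on _ (by omega) hj
        · have hjn : j + 1 = n := by omega
          rw [hjn, hq.wrap, ← ha0]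
          exact la
      have := colin_seg2 hqab (on (j - 1) (by omega) (by omega)) (on j (by omega) (by omega)) on'
      unfold Corner at hcor
      linarith

end Q14NCH
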