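import Mathlib
import Pool.Agent.Q14.NCH.Stmts

set_option autoImplicit false

namespace Q14NCH

namespace SepH

lemma orient_cyc (a b c : Plane) : orient b c a = orient a b c := by
  unfold orient
  ring

lemma orient_swap (a b c : Plane) : orient a c b = -orient a b c := by
  unfold orient
  ring

lemma orient_swap' (a b c : Plane) : orient b a c = -orient a b c := by
  unfold orient
  ring

lemma orient_left (a b : Plane) : orient a b a = 0 := by
  unfold orient
  ring

lemma orient_right (a b : Plane) : orient a b b = 0 := by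
  unfold orient
  ring

lemma sep_line (hF : TaskFace) (hL : TaskLine) (q : ℕ → Plane) (A B : Finset ℕ) (u v : Plane)
    (huv : u ≠ v) (hA : ∀ a ∈ A, 0 ≤ orient u v (q a)) (hB : ∀ b ∈ B, orient u v (q b) ≤ 0)
    (h1 : ∀ a ∈ A, ∀ c ∈ A, ∀ b ∈ B, q b ∉ segment ℝ (q a) (q c))
    (h2 : ∀ b ∈ B, ∀ d ∈ B, ∀ a ∈ A, q a ∉ segment ℝ (q b) (q d)) (x : Plane)
    (hxA : x ∈ convexHull ℝ (q '' (A : Set ℕ))) (hxB : x ∈ convexHull ℝ (q '' (B : Set ℕ))) :
    False := by
  classical
  obtain ⟨h3, h4⟩ := hF q A B u v x hA hB hxA hxB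
  have e1 : {a | a ∈ A ∧ orient u v (q a) = 0} =
      ((A.filter fun a => orient u v (q a) = 0 : Finset ℕ) : Set ℕ) := by
    ext a
    simp
  have e2 : {b | b ∈ B ∧ orient u v (q b) = 0} =
      ((B.filter fun a => orient u v (q a) = 0 : Finset ℕ) : Set ℕ) := by
    ext a
    simp
  rw [e1] at h3
  rw [e2] at h4
  rcases hL q _ _ u v x huv (fun a ha => (Finset.mem_filter.1 ha).2)
    (fun a ha => (Finset.mem_filter.1 ha).2) h3 h4 with ⟨a, ha, c, hc, b, hb, h⟩ |
      ⟨a, ha, c, hc, b, hb, h⟩
  · exact h1 a (Finset.mem_filter.1 ha).1 c (Finset.mem_filter.1 hc).1 b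
      (Finset.mem_filter.1 hb).1 h
  · exact h2 a (Finset.mem_filter.1 ha).1 c (Finset.mem_filter.1 hc).1 b
      (Finset.mem_filter.1 hb).1 h

lemma half (hArc : TaskArc) (hF : TaskFace) (hL : TaskLine) (n : ℕ) (q : ℕ → Plane)
    (hq : Hull n q) (A B : Finset ℕ) (hAB : Disjoint A B) (hA : A.Nonempty)
    (hAn : ∀ a ∈ A, a < n) (hBn : ∀ b ∈ B, b < n) (hN : NoCross A B)
    (h1 : ∀ a ∈ A, ∀ c ∈ A, ∀ b ∈ B, q b ∉ segment ℝ (q a) (q c))
    (h2 : ∀ b ∈ B, ∀ d ∈ B, ∀ a ∈ A, q a ∉ segment ℝ (q b) (q d)) :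
    (∀ x, x ∈ convexHull ℝ (q '' (A : Set ℕ)) → x ∈ convexHull ℝ (q '' (B : Set ℕ)) → False) ∨
      ∃ a ∈ A, ∀ x ∈ A, x = a := by
  rcases hArc A B hAB hA hN with ⟨a, ha, a', ha', haa, hx, hb⟩ | ⟨a, ha, a', ha', haa, hx, hb⟩
  · left
    have hne : q a ≠ q a' := fun h => haa.ne (hq.inj a a' (hAn a ha) (hAn a' ha') h)
    refine sep_line hF hL q A B (q a) (q a') hne ?_ ?_ h1 h2
    · intro c hc
      rcases hx c hc with h | h
      · rcases h.eq_or_lt with h | h
        · rw [h, orient_left]
        · rw [orient_cyc]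
          exact hq.pos c a a' h haa (hAn a' ha')
      · rcases h.eq_or_lt with h | h
        · rw [← h, orient_right]
        · exact hq.pos a a' c haa h (hAn c hc)
    · intro b hb'
      obtain ⟨h3, h4⟩ := hb b hb'
      have := hq.pos a b a' h3 h4 (hAn a' ha')
      rw [orient_swap]
      linarith
  · rcases haa.eq_or_lt with h | h
    · right
      refine ⟨a, ha, fun x hxx => ?_⟩
      have := hx x hxx
      omega
    · left
      have hne : q a' ≠ q a := fun h' => h.ne (hq.inj a a' (hAn a ha) (hAn a' ha') h'.symm)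
      refine sep_line hF hL q A B (q a') (q a) hne ?_ ?_ h1 h2
      · intro c hc
        obtain ⟨h3, h4⟩ := hx c hc
        rw [orient_swap', ← orient_swap]
        rcases h3.eq_or_lt with h5 | h5
        · rw [← h5]
          have : orient (q a) (q a) (q a') = 0 := by
            unfold orient
            ring
          rw [this]
        · rcases h4.eq_or_lt with h6 | h6
          · rw [h6, orient_right]
          · exact hq.pos a c a' h5 h6 (hAn a' ha')
      · intro b hb'
        rw [orient_swap']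
        rcases hb b hb' with h3 | h3
        · have := hq.pos b a a' h3 h (hAn a' ha')
          rw [orient_cyc]
          linarith
        · have := hq.pos a a' b h h3 (hBn b hb')
          linarith

end SepH

theorem Sep : TaskSep := by
  intro hArc hF hL n q hq A B hAB hA hB hAn hBn hN h1 h2
  rw [Set.disjoint_left]
  intro x hxA hxB
  rcases SepH.half hArc hF hL n q hq A B hAB hA hAn hBn hN h1 h2 with h | ⟨a, ha, hAa⟩
  · exact h x hxA hxB
  have hN' : NoCross B A := ⟨fun b hb a ha d hd c hc h => hN.2 a ha b hb c hc d hd ⟨h.1, h.2.1, h.2.2⟩,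
    fun b hb a ha d hd c hc h => hN.1 a ha b hb c hc d hd ⟨h.1, h.2.1, h.2.2⟩⟩
  rcases SepH.half hArc hF hL n q hq B A hAB.symm hB hBn hAn hN' h2 h1 with h | ⟨b, hb, hBb⟩
  · exact h x hxB hxA
  have e1 : (A : Set ℕ) = {a} := by
    ext c
    constructor
    · intro hc
      exact hAa c hc
    · rintro rfl
      exact ha
  have e2 : (B : Set ℕ) = {b} := by
    ext c
    constructor
    · intro hc
      exact hBb c hc
    · rintro rfl
      exact hb
  rw [e1, Set.image_singleton, convexHull_singleton, Set.mem_singleton_iff] at hxA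
  rw [e2, Set.image_singleton, convexHull_singleton, Set.mem_singleton_iff] at hxB
  refine h1 a ha a ha b hb ?_
  rw [← hxB, hxA]
  exact left_mem_segment ℝ _ _

end Q14NCH
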