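import Pool.Agent.Q14.NCH.Stmts

namespace Q14NCH

theorem Shell : TaskShell := by
  intro n p hp A hA
  have hfin : (p '' (A : Set (Fin n))).Finite := A.finite_toSet.image p
  have hne : (hull p A).Nonempty := by
    obtain ⟨a, ha⟩ := hA
    exact ⟨p a, subset_convexHull ℝ _ ⟨a, ha, rfl⟩⟩
  have hcpt : IsCompact (hull p A) := hfin.isCompact_convexHull (𝕜 := ℝ)
  obtain ⟨x, hx⟩ := hcpt.extremePoints_nonempty hne
  have hxS : x ∈ p '' (A : Set (Fin n)) := extremePoints_convexHull_subset hx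
  obtain ⟨a, ha, rfl⟩ := hxS
  refine ⟨a, ha, fun hmem => ?_⟩
  have h1 : p a ∈ (hull p A) \ convexHull ℝ ((hull p A) \ {p a}) :=
    (convex_convexHull ℝ _).mem_extremePoints_iff_mem_sdiff_convexHull_sdiff.1 hx
  refine h1.2 (convexHull_mono ?_ hmem)
  rintro _ ⟨b, hb, rfl⟩
  have hb' : b ∈ A.erase a := hb
  rw [Finset.mem_erase] at hb'
  exact ⟨subset_convexHull ℝ _ ⟨b, hb'.2, rfl⟩, fun h => hb'.1 (hp h)⟩

end Q14NCH
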