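import Pool.Agent.Q14.NCH.Stmts

namespace Q14NCH

theorem Side : TaskSide := by
  intro n cor u hn hu
  obtain ⟨h0, hz, hstep⟩ := hu
  constructor
  · rintro ⟨hr1, hr2⟩ a b hab hbn hc huab hlow k hak hkb
    rcases Nat.eq_or_lt_of_le hak with h | hak'
    · rw [← h]
    rcases Nat.eq_or_lt_of_le hkb with h | hkb'
    · rw [h, huab]
    rcases Nat.eq_or_lt_of_le hbn with h | hbn'
    · subst h
      have hb0 : u b = 0 := hz b le_rfl
      have ha0 : u a = 0 := by rw [huab, hb0]
      have hrel : Rel u 0 a := ⟨by rw [h0, ha0], fun k _ _ => by rw [h0]; exact Nat.zero_le _⟩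
      have h2 := hr2 a k hak' hkb' hc hrel
      rw [← h2.1, h0, ha0]
    · have hrel : Rel u a b := by
        refine ⟨huab, fun k hk1 hk2 => hlow k ?_ ?_⟩
        · rwa [min_eq_left hab.le] at hk1
        · rwa [max_eq_right hab.le] at hk2
      exact (hr1 a b k hak' hkb' hbn' hc hrel).1.symm
  · intro hs
    constructor
    · intro a b c hac hcb hbn hc hrel
      have hab : a < b := hac.trans hcb
      have h1 : ∀ k, a ≤ k → k ≤ b → u a ≤ u k := by
        intro k hk1 hk2
        exact hrel.2 k (by rwa [min_eq_left hab.le]) (by rwa [max_eq_right hab.le])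
      have h2 := hs a b hab hbn.le hc hrel.1 h1
      refine ⟨(h2 c hac.le hcb.le).symm, fun k hk1 hk2 => h1 k ?_ ?_⟩
      · rwa [min_eq_left hac.le] at hk1
      · rw [max_eq_right hac.le] at hk2
        exact hk2.trans hcb.le
    · intro b c hbc hcn hc hrel
      have hb0 : u b = 0 := by rw [← hrel.1, h0]
      have hn0 : u n = 0 := hz n le_rfl
      have h2 := hs b n (hbc.trans hcn) le_rfl hc (by rw [hb0, hn0])
        (fun k _ _ => by rw [hb0]; exact Nat.zero_le _)
      have h3 := h2 c hbc.le hcn.le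
      refine ⟨by rw [h3, hb0, h0], fun k _ _ => by rw [h0]; exact Nat.zero_le _⟩

theorem TaskSide_proof : TaskSide := Side

end Q14NCH
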