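import Pool.Agent.Q14.NCH.Stmts

set_option autoImplicit false

namespace Q14NCH

private theorem hull_mono {n : ℕ} (p : Fin n → Plane) {A B : Finset (Fin n)} (h : A ⊆ B) :
    hull p A ⊆ hull p B :=
  convexHull_mono (Set.image_mono (Finset.coe_subset.2 h))

theorem Split : TaskSplit := by
  classical
  intro hshell n p hp π hcard
  -- a part with at least two elements
  have h1 : ∃ A ∈ π.1.parts, 1 < A.card := by
    by_contra hne
    push Not at hne
    have h2 : ∀ A ∈ π.1.parts, A.card = 1 := fun A hA => by
      have := (π.1.nonempty_of_mem_parts hA).card_pos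
      have := hne A hA
      omega
    have h3 := π.1.sum_card_parts
    rw [Finset.sum_congr rfl h2, Finset.sum_const, smul_eq_mul, mul_one, Finset.card_univ,
      Fintype.card_fin] at h3
    exact hcard h3
  obtain ⟨A, hA, hA2⟩ := h1
  obtain ⟨a, haA, ha⟩ := hshell (n + 1) p hp A (π.1.nonempty_of_mem_parts hA)
  have hne : (A.erase a).Nonempty := by
    rw [← Finset.card_pos, Finset.card_erase_of_mem haA]
    omega
  have huniq : ∀ B ∈ π.1.parts, ∀ x ∈ B, x ∈ A → B = A := fun B hB x hxB hxA =>
    π.1.eq_of_mem_parts hB hA hxB hxA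
  let P : Finset (Finset (Fin (n + 1))) := insert {a} (insert (A.erase a) (π.1.parts.erase A))
  have hmem : ∀ t, t ∈ P ↔ t = {a} ∨ t = A.erase a ∨ (t ≠ A ∧ t ∈ π.1.parts) := by
    intro t
    simp only [P, Finset.mem_insert, Finset.mem_erase]
  let τ : Finpartition (Finset.univ : Finset (Fin (n + 1))) :=
    Finpartition.ofExistsUnique P (fun t _ => Finset.subset_univ t) (by
      intro x _
      by_cases hxA : x ∈ A
      · by_cases hxa : x = a
        · subst hxa
          refine ⟨{x}, ⟨(hmem _).2 (Or.inl rfl), Finset.mem_singleton_self x⟩, ?_⟩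
          rintro t ⟨ht, hxt⟩
          rcases (hmem t).1 ht with h | h | ⟨h, h'⟩
          · exact h
          · rw [h] at hxt
            exact absurd hxt (Finset.notMem_erase x A)
          · exact absurd (huniq t h' x hxt hxA) h
        · refine ⟨A.erase a, ⟨(hmem _).2 (Or.inr (Or.inl rfl)), Finset.mem_erase.2 ⟨hxa, hxA⟩⟩, ?_⟩
          rintro t ⟨ht, hxt⟩
          rcases (hmem t).1 ht with h | h | ⟨h, h'⟩
          · rw [h, Finset.mem_singleton] at hxt
            exact absurd hxt hxa
          · exact h
          · exact absurd (huniq t h' x hxt hxA) h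
      · obtain ⟨B, hB, hxB⟩ := π.1.exists_mem (Finset.mem_univ x)
        refine ⟨B, ⟨(hmem _).2 (Or.inr (Or.inr ⟨fun h => hxA (h ▸ hxB), hB⟩)), hxB⟩, ?_⟩
        rintro t ⟨ht, hxt⟩
        rcases (hmem t).1 ht with h | h | ⟨h, h'⟩
        · rw [h, Finset.mem_singleton] at hxt
          exact absurd (hxt ▸ haA) hxA
        · rw [h] at hxt
          exact absurd (Finset.mem_of_mem_erase hxt) hxA
        · exact π.1.eq_of_mem_parts h' hB hxt hxB) (by
      intro h0
      rcases (hmem ∅).1 h0 with h | h | ⟨h, h'⟩
      · exact (Finset.singleton_ne_empty a) h.symm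
      · rw [← h] at hne
        exact Finset.not_nonempty_empty hne
      · exact (π.1.nonempty_of_mem_parts h').ne_empty rfl)
  have hτ : τ.parts = P := rfl
  have hsub : ∀ t ∈ P, t ⊆ A ∨ (t ≠ A ∧ t ∈ π.1.parts) := by
    intro t ht
    rcases (hmem t).1 ht with h | h | h
    · left
      rw [h]
      exact Finset.singleton_subset_iff.2 haA
    · left
      rw [h]
      exact Finset.erase_subset _ _
    · exact Or.inr h
  have hNC : ∀ B ∈ τ.parts, ∀ C ∈ τ.parts, B ≠ C → Disjoint (hull p B) (hull p C) := by
    have hsing : Disjoint (hull p {a}) (hull p (A.erase a)) := by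
      rw [Set.disjoint_left]
      intro x hx hx'
      unfold hull at hx
      rw [Finset.coe_singleton, Set.image_singleton, convexHull_singleton,
        Set.mem_singleton_iff] at hx
      rw [hx] at hx'
      exact ha hx'
    intro B hB C hC hBC
    rw [hτ] at hB hC
    rcases hsub B hB with hB1 | ⟨hB1, hB2⟩
    · rcases hsub C hC with hC1 | ⟨hC1, hC2⟩
      · rcases (hmem B).1 hB with h | h | ⟨h, h'⟩
        · rcases (hmem C).1 hC with g | g | ⟨g, g'⟩
          · exact absurd (h.trans g.symm) hBC
          · rw [h, g]; exact hsing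
          · exfalso
            obtain ⟨x, hx⟩ := π.1.nonempty_of_mem_parts g'
            exact g (huniq C g' x hx (hC1 hx))
        · rcases (hmem C).1 hC with g | g | ⟨g, g'⟩
          · rw [h, g]; exact hsing.symm
          · exact absurd (h.trans g.symm) hBC
          · exfalso
            obtain ⟨x, hx⟩ := π.1.nonempty_of_mem_parts g'
            exact g (huniq C g' x hx (hC1 hx))
        · exfalso
          obtain ⟨x, hx⟩ := π.1.nonempty_of_mem_parts h'
          exact h (huniq B h' x hx (hB1 hx))
      · exact (π.2 A hA C hC2 (Ne.symm hC1)).mono_left (hull_mono p hB1)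
    · rcases hsub C hC with hC1 | ⟨hC1, hC2⟩
      · exact (π.2 B hB2 A hA hB1).mono_right (hull_mono p hC1)
      · exact π.2 B hB2 C hC2 hBC
  have hcardτ : τ.parts.card = π.1.parts.card + 1 := by
    have h2 : A.erase a ∉ π.1.parts.erase A := by
      intro h
      obtain ⟨x, hx⟩ := hne
      have h3 := Finset.mem_erase.1 h
      exact h3.1 (huniq _ h3.2 x hx (Finset.mem_of_mem_erase hx))
    have h4 : ({a} : Finset (Fin (n + 1))) ∉ insert (A.erase a) (π.1.parts.erase A) := by
      intro h
      rcases Finset.mem_insert.1 h with h | h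
      · have : a ∈ A.erase a := h ▸ Finset.mem_singleton_self a
        exact Finset.notMem_erase a A this
      · have h3 := Finset.mem_erase.1 h
        exact h3.1 (huniq _ h3.2 a (Finset.mem_singleton_self a) haA)
    have h5 : 0 < π.1.parts.card := Finset.card_pos.2 ⟨A, hA⟩
    rw [hτ, Finset.card_insert_of_notMem h4, Finset.card_insert_of_notMem h2,
      Finset.card_erase_of_mem hA]
    omega
  refine ⟨⟨τ, hNC⟩, lt_of_le_of_ne ?_ ?_, hcardτ⟩
  · intro t ht
    rcases hsub t ht with h | h
    · exact ⟨A, hA, h⟩
    · exact ⟨t, h.2, le_rfl⟩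
  · intro h
    have h6 := congrArg (fun s : NC p => s.1.parts.card) h
    dsimp only at h6
    omega

end Q14NCH
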