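import Pool.Agent.Q14.NCH.Stmts

/-! MP_f3bbeb_co, crowd lemma NCH.TaskSum (helper37). -/

namespace Q14NCH

namespace SumAux

open Finset

theorem aux (x y : ℤ) : ∀ (cs : List Bool) (u l : ℕ), l ≤ u → ∃ F : Finset (List ℕ),
    (∀ vs, vs ∈ F ↔ Acc cs u l vs) ∧ (∀ vs ∈ F, lups u vs ≤ cs.length) ∧
    W x y cs u l = ∑ vs ∈ F, x ^ lups u vs * y ^ (cs.length - lups u vs) := by
  intro cs
  induction cs with
  | nil =>
    intro u l _
    by_cases hu : u = 0
    · refine ⟨{[]}, ?_, ?_, ?_⟩
      · intro vs
        simp [Acc, hu]
      · intro vs hvs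
        rw [Finset.mem_singleton] at hvs
        subst hvs
        simp [lups]
      · simp [W, hu, lups]
    · refine ⟨∅, ?_, ?_, ?_⟩
      · intro vs
        simp [Acc, hu]
      · intro vs hvs
        simp at hvs
      · simp [W, hu]
  | cons c cs ih =>
    intro u l hl
    choose F hF1 hF2 hF3 using ih
    have h1 : (if c then u else l) ≤ u := by
      cases c <;> simp [hl]
    have h2 : (if c then u + 1 else l) ≤ u + 1 := by
      cases c
      · simp; omega
      · simp
    have hinj : ∀ v : ℕ, Function.Injective (fun ws : List ℕ => v :: ws) := fun v =>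
      List.cons_injective
    let A : Finset (List ℕ) := (F u (if c then u else l) h1).image (fun ws => u :: ws)
    let B : Finset (List ℕ) := (F (u + 1) (if c then u + 1 else l) h2).image (fun ws => (u + 1) :: ws)
    let C : Finset (List ℕ) := (range l).biUnion fun i => (F i i le_rfl).image (fun ws => i :: ws)
    have hAB : Disjoint A B := by
      rw [Finset.disjoint_left]
      intro vs ha hb
      simp only [A, B, mem_image] at ha hb
      obtain ⟨w1, -, rfl⟩ := ha
      obtain ⟨w2, -, h⟩ := hb
      have := (List.cons.inj h).1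
      omega
    have hABC : Disjoint (A ∪ B) C := by
      rw [Finset.disjoint_left]
      intro vs ha hb
      simp only [A, B, C, mem_union, mem_image, mem_biUnion, mem_range] at ha hb
      obtain ⟨i, hi, w2, -, h⟩ := hb
      rcases ha with ⟨w1, -, h'⟩ | ⟨w1, -, h'⟩
      · rw [← h'] at h
        have := (List.cons.inj h).1
        omega
      · rw [← h'] at h
        have := (List.cons.inj h).1
        omega
    have hmem : ∀ vs, vs ∈ A ∪ B ∪ C ↔ Acc (c :: cs) u l vs := by
      intro vs
      simp only [A, B, C, mem_union, mem_image, mem_biUnion, mem_range, hF1, Acc]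
      constructor
      · rintro ((⟨w, hw, rfl⟩ | ⟨w, hw, rfl⟩) | ⟨i, hi, w, hw, rfl⟩)
        · exact ⟨u, w, rfl, Or.inl ⟨Or.inl rfl, hw⟩⟩
        · exact ⟨u + 1, w, rfl, Or.inl ⟨Or.inr rfl, hw⟩⟩
        · exact ⟨i, w, rfl, Or.inr ⟨hi, hw⟩⟩
      · rintro ⟨v, w, rfl, (⟨rfl | rfl, hw⟩ | ⟨hv, hw⟩)⟩
        · exact Or.inl (Or.inl ⟨w, hw, rfl⟩)
        · exact Or.inl (Or.inr ⟨w, hw, rfl⟩)
        · exact Or.inr ⟨v, hv, w, hw, rfl⟩
    refine ⟨A ∪ B ∪ C, hmem, ?_, ?_⟩
    · intro vs hvs
      simp only [A, B, C, mem_union, mem_image, mem_biUnion, mem_range] at hvs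
      rcases hvs with (⟨w, hw, rfl⟩ | ⟨w, hw, rfl⟩) | ⟨i, hi, w, hw, rfl⟩
      · have := hF2 _ _ _ w hw
        simp only [lups, List.length_cons]
        split_ifs <;> omega
      · have := hF2 _ _ _ w hw
        simp only [lups, List.length_cons]
        split_ifs <;> omega
      · have := hF2 _ _ _ w hw
        simp only [lups, List.length_cons]
        split_ifs <;> omega
    · rw [sum_union hABC, sum_union hAB]
      have eA : ∑ vs ∈ A, x ^ lups u vs * y ^ ((c :: cs).length - lups u vs) =
          y * W x y cs u (if c then u else l) := by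
        rw [hF3 _ _ h1, mul_sum, sum_image (fun a _ b _ h => hinj u h)]
        refine sum_congr rfl fun w hw => ?_
        have hle := hF2 _ _ _ w hw
        have e : lups u (u :: w) = lups u w := by simp [lups]
        rw [e, List.length_cons, Nat.sub_add_comm hle, pow_succ]
        ring
      have eB : ∑ vs ∈ B, x ^ lups u vs * y ^ ((c :: cs).length - lups u vs) =
          x * W x y cs (u + 1) (if c then u + 1 else l) := by
        rw [hF3 _ _ h2, mul_sum, sum_image (fun a _ b _ h => hinj (u + 1) h)]
        refine sum_congr rfl fun w hw => ?_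
        have e : lups u ((u + 1) :: w) = lups (u + 1) w + 1 := by
          simp only [lups, if_true]
          ring
        rw [e, List.length_cons, Nat.add_sub_add_right, pow_succ]
        ring
      have eC : ∑ vs ∈ C, x ^ lups u vs * y ^ ((c :: cs).length - lups u vs) =
          y * ∑ i ∈ range l, W x y cs i i := by
        rw [sum_biUnion, mul_sum]
        · refine sum_congr rfl fun i hi => ?_
          rw [hF3 i i le_rfl, mul_sum, sum_image (fun a _ b _ h => hinj i h)]
          refine sum_congr rfl fun w hw => ?_
          have hle := hF2 _ _ _ w hw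
          have hil : i < l := mem_range.1 hi
          have hne : ¬ i = u + 1 := by omega
          have e : lups u (i :: w) = lups i w := by simp [lups, hne]
          rw [e, List.length_cons, Nat.sub_add_comm hle, pow_succ]
          ring
        · intro i _ j _ hij
          rw [Function.onFun, Finset.disjoint_left]
          intro vs ha hb
          simp only [mem_image] at ha hb
          obtain ⟨w1, -, rfl⟩ := ha
          obtain ⟨w2, -, h⟩ := hb
          exact hij (List.cons.inj h).1.symm
      rw [eA, eB, eC]
      simp only [W]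

end SumAux

theorem Sum : TaskSum := by
  intro x y cs u l hl
  obtain ⟨F, hF, -, hW⟩ := SumAux.aux x y cs u l hl
  have hset : {vs | Acc cs u l vs} = (F : Set (List ℕ)) := by
    ext vs
    simp [hF]
  rw [hset]
  refine ⟨F.finite_toSet, ?_⟩
  rw [hW, finsum_mem_coe_finset]

end Q14NCH
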