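import Pool.Agent.Q14.NCH.Stmts

namespace Q14NCH

/-- the level, recursively from the least elements of the classes -/
def toSeqLev (mm : ℕ → ℕ) (j : ℕ) : ℕ :=
  if h : 0 < mm j ∧ mm j ≤ j then toSeqLev mm (mm j - 1) + 1 else 0
termination_by j
decreasing_by omega

theorem toSeqLev_zero (mm : ℕ → ℕ) (j : ℕ) (h : mm j = 0) : toSeqLev mm j = 0 := by
  rw [toSeqLev, dif_neg (by omega)]

theorem toSeqLev_pos (mm : ℕ → ℕ) (j : ℕ) (h : 0 < mm j) (h2 : mm j ≤ j) :
    toSeqLev mm j = toSeqLev mm (mm j - 1) + 1 := by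
  rw [toSeqLev, dif_pos ⟨h, h2⟩]

theorem toSeqLev_min (mm : ℕ → ℕ) (j : ℕ) (h1 : mm j ≤ j) (h5 : mm (mm j) = mm j) :
    toSeqLev mm j = toSeqLev mm (mm j) := by
  rcases Nat.eq_zero_or_pos (mm j) with h | h
  · rw [toSeqLev_zero mm j h, toSeqLev_zero mm (mm j) (by omega)]
  · rw [toSeqLev_pos mm j h h1, toSeqLev_pos mm (mm j) (by omega) (by omega), h5]

/-- between the least element `m` of a class and an element `d` of it, the level is at least the one of `m`,
and larger outside the class -/
theorem toSeqLev_nest (n : ℕ) (mm : ℕ → ℕ) (h1 : ∀ j, j < n → mm j ≤ j)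
    (h5 : ∀ j, j < n → mm (mm j) = mm j)
    (hnc : ∀ a b c d, a < b → b < c → c < d → d < n → mm a = mm c → mm b = mm d → mm a = mm b)
    (d : ℕ) (hd : d < n) : ∀ k, mm d ≤ k → k ≤ d →
      toSeqLev mm (mm d) ≤ toSeqLev mm k ∧ (mm k ≠ mm d → toSeqLev mm (mm d) < toSeqLev mm k) := by
  intro k
  induction k using Nat.strong_induction_on with
  | _ k ih =>
    intro hk1 hk2
    have hkn : k < n := by omega
    have hk3 := h1 k hkn
    have hk5 := h5 k hkn
    have hd5 := h5 d hd
    by_cases hkm : mm k = mm d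
    · have e1 := toSeqLev_min mm k hk3 hk5
      rw [hkm] at e1
      exact ⟨e1.ge, fun h => absurd hkm h⟩
    · have hkne : k ≠ mm d := by
        intro h
        rw [h, hd5] at hkm
        exact hkm rfl
      have hkd : k ≠ d := by
        intro h
        rw [h] at hkm
        exact hkm rfl
      have hlt : mm d < mm k := by
        by_contra hcon
        have hc2 : mm k < mm d := by omega
        have := hnc (mm k) (mm d) k d hc2 (by omega) (by omega) hd hk5 hd5
        omega
      have e2 := toSeqLev_pos mm k (by omega) hk3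
      have e3 := (ih (mm k - 1) (by omega) (by omega) (by omega)).1
      constructor
      · omega
      · intro _
        omega

theorem ToSeq : TaskToSeq := by
  intro n r hn hr
  obtain ⟨hrefl, hsymm, htrans, hcr⟩ := hr
  set mm : ℕ → ℕ := fun j => sInf {i | i < n ∧ r i j} with hmm
  have hmem : ∀ j, j < n → mm j < n ∧ r (mm j) j := by
    intro j hj
    have : mm j ∈ {i | i < n ∧ r i j} := Nat.sInf_mem ⟨j, hj, hrefl j hj⟩
    exact this
  have h1 : ∀ j, j < n → mm j ≤ j := fun j hj => Nat.sInf_le ⟨hj, hrefl j hj⟩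
  have h3' : ∀ i j, i < n → j < n → r i j → mm j ≤ mm i := by
    intro i j hi hj hij
    exact Nat.sInf_le ⟨(hmem i hi).1, htrans _ _ _ (hmem i hi).1 hi hj (hmem i hi).2 hij⟩
  have h3 : ∀ i j, i < n → j < n → r i j → mm i = mm j := by
    intro i j hi hj hij
    exact le_antisymm (h3' j i hj hi (hsymm i j hi hj hij)) (h3' i j hi hj hij)
  have h4 : ∀ i j, i < n → j < n → mm i = mm j → r i j := by
    intro i j hi hj hij
    have e1 := hsymm _ _ (hmem i hi).1 hi (hmem i hi).2
    rw [hij] at e1
    exact htrans _ _ _ hi (hmem j hj).1 hj e1 (hmem j hj).2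
  have h5 : ∀ j, j < n → mm (mm j) = mm j := by
    intro j hj
    exact h3 _ _ (hmem j hj).1 hj (hmem j hj).2
  have hnc : ∀ a b c d, a < b → b < c → c < d → d < n → mm a = mm c → mm b = mm d →
      mm a = mm b := by
    intro a b c d hab hbc hcd hd hac hbd
    exact h3 _ _ (by omega) (by omega) (hcr a b c d hab hbc hcd hd
      (h4 _ _ (by omega) (by omega) hac) (h4 _ _ (by omega) hd hbd))
  have hnest := toSeqLev_nest n mm h1 h5 hnc
  have hmin : ∀ j, j < n → toSeqLev mm j = toSeqLev mm (mm j) :=
    fun j hj => toSeqLev_min mm j (h1 j hj) (h5 j hj)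
  set u : ℕ → ℕ := fun j => if j < n then toSeqLev mm j else 0 with hu
  have hu1 : ∀ j, j < n → u j = toSeqLev mm j := fun j hj => by simp only [hu, if_pos hj]
  have hu0 : ∀ j, n ≤ j → u j = 0 := fun j hj => by simp only [hu, if_neg (not_lt.2 hj)]
  have key : ∀ i j, i ≤ j → j < n → (r i j ↔ (u i = u j ∧ ∀ k, i ≤ k → k ≤ j → u i ≤ u k)) := by
    intro i j hij hj
    have hi : i < n := by omega
    constructor
    · intro h
      have e := h3 i j hi hj h
      have e1 := hmin i hi
      have e2 := hmin j hj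
      have hi1 := h1 i hi
      rw [e] at e1
      refine ⟨by rw [hu1 i hi, hu1 j hj, e1, e2], ?_⟩
      intro k hk1 hk2
      rw [hu1 i hi, hu1 k (by omega), e1]
      exact (hnest j hj k (by omega) hk2).1
    · rintro ⟨e1, e2⟩
      apply h4 i j hi hj
      by_contra hne
      have hj1 := h1 j hj
      by_cases hm : i < mm j
      · have e3 := toSeqLev_pos mm j (by omega) hj1
        have e4 := e2 (mm j - 1) (by omega) (by omega)
        rw [hu1 i hi, hu1 _ (by omega)] at e4
        rw [hu1 i hi, hu1 j hj] at e1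
        omega
      · have e3 := (hnest j hj i (by omega) hij).2 hne
        rw [hu1 i hi, hu1 j hj] at e1
        have e4 := hmin j hj
        omega
  refine ⟨u, ⟨?_, hu0, ?_⟩, ?_⟩
  · rw [hu1 0 hn]
    exact toSeqLev_zero mm 0 (by have := h1 0 hn; omega)
  · intro j
    by_cases hj : j + 1 < n
    · rw [hu1 _ hj, hu1 j (by omega)]
      have hj1 := h1 _ hj
      rcases Nat.lt_or_ge (mm (j + 1)) (j + 1) with h | h
      · have e1 := hmin _ hj
        have e2 := (hnest _ hj j (by omega) (by omega)).1
        omega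
      · have e0 : mm (j + 1) = j + 1 := by omega
        have e1 := toSeqLev_pos mm (j + 1) (by omega) hj1
        rw [e0] at e1
        have e3 : j + 1 - 1 = j := by omega
        rw [e3] at e1
        omega
    · rw [hu0 (j + 1) (by omega)]
      omega
  · intro i j hi hj
    unfold Rel
    rcases le_total i j with hij | hij
    · rw [min_eq_left hij, max_eq_right hij]
      exact key i j hij hj
    · rw [min_eq_right hij, max_eq_left hij]
      constructor
      · intro h
        obtain ⟨e1, e2⟩ := (key j i hij hi).1 (hsymm i j hi hj h)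
        exact ⟨e1.symm, fun k hk1 hk2 => e1 ▸ e2 k hk1 hk2⟩
      · rintro ⟨e1, e2⟩
        exact hsymm j i hj hi ((key j i hij hi).2 ⟨e1.symm, fun k hk1 hk2 => e1 ▸ e2 k hk1 hk2⟩)

end Q14NCH
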