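import Pool.Agent.Q14.NCH.Stmts2
import Pool.Agent.Q14.NCH.TaskAcc
import Pool.Agent.Q14.NCH.TaskAccSeq
import Pool.Agent.Q14.NCH.TaskAlg
import Pool.Agent.Q14.NCH.TaskArc
import Pool.Agent.Q14.NCH.TaskBetw
import Pool.Agent.Q14.NCH.TaskBij
import Pool.Agent.Q14.NCH.TaskBlank
import Pool.Agent.Q14.NCH.TaskCount
import Pool.Agent.Q14.NCH.TaskCross
import Pool.Agent.Q14.NCH.TaskEnum
import Pool.Agent.Q14.NCH.TaskFace
import Pool.Agent.Q14.NCH.TaskFromSeq
import Pool.Agent.Q14.NCH.TaskGraded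
import Pool.Agent.Q14.NCH.TaskLine
import Pool.Agent.Q14.NCH.TaskNCIff
import Pool.Agent.Q14.NCH.TaskPoset
import Pool.Agent.Q14.NCH.TaskRankCount
import Pool.Agent.Q14.NCH.TaskRankNC
import Pool.Agent.Q14.NCH.TaskSeg1
import Pool.Agent.Q14.NCH.TaskSeg2
import Pool.Agent.Q14.NCH.TaskSep
import Pool.Agent.Q14.NCH.TaskShell
import Pool.Agent.Q14.NCH.TaskSide
import Pool.Agent.Q14.NCH.TaskSplit
import Pool.Agent.Q14.NCH.TaskSum
import Pool.Agent.Q14.NCH.TaskToSeq
import Pool.Agent.Q14.NCH.TaskUniq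

namespace Q14NCH

/-- the labelled version -/
theorem labelled (n : ℕ) (p : Fin (n + 1) → Plane) (hinj : Function.Injective p)
    (hH : Hull (n + 1) (seqOf p)) (hB : NoBlank (n + 1) (seqOf p)) : ¬ RankSymmetric (NC p) := by
  intro hR
  have h1 := RankNC RankCount Graded Split Shell Poset n p hinj hR
  have h2 := Bij NCIff Seg1 Seg2 Betw Cross Sep Arc Face Line ToSeq FromSeq Uniq Count Side n p hH
  have h3 := Enum Acc_proof AccSeq Sum (n + 1) (Corner (seqOf p))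
  have h4 := Blank Betw Seg2 (n + 1) (seqOf p) hH hB
  have h5 := Alg (n + 1) (Corner (seqOf p)) (Nat.succ_pos n) h4
  obtain ⟨-, -, hcard, -⟩ := Poset n p hinj
  set N : ℕ → ℤ := fun k =>
    ({u : ℕ → ℕ | Seq (n + 1) u ∧ SideSeq (n + 1) (Corner (seqOf p)) u ∧ ups (n + 1) u = k}.ncard : ℤ) with hN
  have hlast : N (n + 1) = 0 := by
    rw [hN]
    simp only
    rw [← h2 (n + 1)]
    have : {π : NC p | π.1.parts.card = n + 1 + 1} = ∅ := by
      ext π
      simp only [Set.mem_ofPred_eq, Set.mem_empty_iff_false, iff_false]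
      have := (hcard π).2
      omega
    rw [this]
    simp
  have hsym : ∀ i, i ≤ n → N i = N (n - i) := by
    intro i hi
    rw [hN]
    simp only
    rw [← h2 i, ← h2 (n - i), h1 i hi]
    have : n + 1 - i = n - i + 1 := by omega
    rw [this]
  apply h5
  rw [h3 1 2 (Nat.succ_pos n), h3 2 1 (Nat.succ_pos n)]
  rw [Finset.sum_range_succ, Finset.sum_range_succ _ (n + 1)]
  change ∑ k ∈ Finset.range (n + 1), N k * (1 ^ k * 2 ^ (n + 1 - k)) + N (n + 1) * (1 ^ (n + 1) * 2 ^ (n + 1 - (n + 1))) =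
    2 * (∑ k ∈ Finset.range (n + 1), N k * (2 ^ k * 1 ^ (n + 1 - k)) + N (n + 1) * (2 ^ (n + 1) * 1 ^ (n + 1 - (n + 1))))
  rw [hlast, zero_mul, zero_mul, add_zero, add_zero, Finset.mul_sum,
    ← Finset.sum_range_reflect (fun k => 2 * (N k * (2 ^ k * 1 ^ (n + 1 - k)))) (n + 1)]
  refine Finset.sum_congr rfl fun k hk => ?_
  rw [Finset.mem_range] at hk
  have e1 : n + 1 - 1 - k = n - k := by omega
  have e2 : n + 1 - k = n - k + 1 := by omega
  simp only [e1]
  rw [e2, ← hsym k (by omega), one_pow, one_pow, pow_succ]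
  ring

end Q14NCH
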