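import Pool.Agent.Q14.NCH.Stmts

/-! MP_f3bbeb_co: blueprint, part 2 (labelling of a finite set, transport). Prove `theorem X : TaskX` (file
`Pool/Agent/Q14/NCH/TaskX.lean`, namespace `Q14NCH`, `import Pool.Agent.Q14.NCH.Stmts2`). -/

namespace Q14NCH

noncomputable section

/-- hull configuration: not contained in a line, all points on the boundary of the convex hull -/
def HullSet (P : Finset Plane) : Prop :=
  ¬ Collinear ℝ (P : Set Plane) ∧ ∀ x ∈ P, x ∈ frontier (convexHull ℝ (P : Set Plane))

/-- the noncrossing partitions of a finite set of points -/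
abbrev NCSet (P : Finset Plane) : Type :=
  {π : Finpartition P // ∀ A ∈ π.parts, ∀ B ∈ π.parts, A ≠ B →
    Disjoint (convexHull ℝ (A : Set Plane)) (convexHull ℝ (B : Set Plane))}

/-- the line through `v` and `y` is a supporting line if a boundary point of `P` is strictly between them.
Hint: a supporting functional at `x` (geometric Hahn-Banach, `x` is not in the interior) is constant on the line. -/
def TaskSupp : Prop :=
  ∀ P : Finset Plane, HullSet P → ∀ v ∈ P, ∀ y ∈ P, ∀ x ∈ P, x ≠ v → x ≠ y → x ∈ segment ℝ v y →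
    (∀ c ∈ P, 0 ≤ orient v y c) ∨ (∀ c ∈ P, orient v y c ≤ 0)

/-- a boundary point of `P` is not strictly inside a triangle of points of `P` (all three determinants positive).
Hint: the points with three positive determinants form an open subset of the convex hull. -/
def TaskInt : Prop :=
  ∀ P : Finset Plane, HullSet P → ∀ a ∈ P, ∀ b ∈ P, ∀ c ∈ P, ∀ x ∈ P,
    ¬ (0 < orient a b x ∧ 0 < orient b c x ∧ 0 < orient c a x)

/-- the order around `v`: the determinant is positive, or it is `0` and `x` is nearer to `v` (if all points are on the left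
of the line) or farther from `v` (otherwise) -/
def Before (P : Finset Plane) (v x y : Plane) : Prop :=
  0 < orient v x y ∨ (orient v x y = 0 ∧
    (((∀ c ∈ P, 0 ≤ orient v x c) ∧ x ∈ segment ℝ v y) ∨ (¬ (∀ c ∈ P, 0 ≤ orient v x c) ∧ y ∈ segment ℝ v x)))

/-- `v` is the lexicographically smallest point -/
def LexMin (P : Finset Plane) (v : Plane) : Prop :=
  v ∈ P ∧ ∀ x ∈ P, v.1 < x.1 ∨ (v.1 = x.1 ∧ v.2 ≤ x.2)

/-- `Before` is a strict total order on the points other than `v` -/
def TaskOrder : Prop :=
  TaskSupp → TaskInt → ∀ P : Finset Plane, HullSet P → ∀ v, LexMin P v →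
    (∀ x ∈ P, ∀ y ∈ P, x ≠ v → y ≠ v → x ≠ y → (Before P v x y ∨ Before P v y x) ∧
      ¬ (Before P v x y ∧ Before P v y x)) ∧
    (∀ x ∈ P, ∀ y ∈ P, ∀ z ∈ P, x ≠ v → y ≠ v → z ≠ v → x ≠ y → y ≠ z →
      Before P v x y → Before P v y z → x ≠ z ∧ Before P v x z)

/-- three points in the order have nonnegative orientation. Hint: otherwise, if `D = orient v x z > 0`, then `y` is in the
triangle `v x z` and not on `xz`; it is not inside (`TaskInt`), so it is strictly between `v` and `x` or `v` and `z`,
which contradicts the order by `TaskSupp`. -/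
def TaskThree : Prop :=
  TaskSupp → TaskInt → ∀ P : Finset Plane, HullSet P → ∀ v, LexMin P v →
    ∀ x ∈ P, ∀ y ∈ P, ∀ z ∈ P, x ≠ v → y ≠ v → z ≠ v → x ≠ y → y ≠ z → x ≠ z →
      Before P v x y → Before P v y z → Before P v x z → 0 ≤ orient x y z

/-- the lexicographic minimum exists and is a vertex -/
def TaskLex : Prop :=
  ∀ P : Finset Plane, P.Nonempty → ∃ v, LexMin P v ∧ v ∉ convexHull ℝ ((P : Set Plane) \ {v})

/-- a finite set with a strict total order can be listed in increasing order -/
def TaskSort : Prop :=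
  ∀ (S : Finset Plane) (r : Plane → Plane → Prop),
    (∀ x ∈ S, ∀ y ∈ S, x ≠ y → (r x y ∨ r y x) ∧ ¬ (r x y ∧ r y x)) →
    (∀ x ∈ S, ∀ y ∈ S, ∀ z ∈ S, x ≠ y → y ≠ z → r x y → r y z → x ≠ z ∧ r x z) →
    ∃ f : Fin S.card → Plane, Function.Injective f ∧ Set.range f = (S : Set Plane) ∧ ∀ i j, i < j → r (f i) (f j)

/-- labelling: `p 0 = v`, the others in the order `Before` -/
def TaskLabel : Prop :=
  TaskSupp → TaskInt → TaskOrder → TaskThree → TaskLex → TaskSort →
  ∀ P : Finset Plane, HullSet P → ∃ (n : ℕ) (p : Fin (n + 1) → Plane), Function.Injective p ∧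
    Set.range p = (P : Set Plane) ∧ Hull (n + 1) (seqOf p)

/-- the two posets of noncrossing partitions are isomorphic -/
def TaskIso : Prop :=
  ∀ (P : Finset Plane) (n : ℕ) (p : Fin (n + 1) → Plane), Function.Injective p →
    Set.range p = (P : Set Plane) → Nonempty (NCSet P ≃o NC p)

/-- rank symmetry is invariant under isomorphisms -/
def TaskRankIso : Prop :=
  ∀ (α β : Type) [PartialOrder α] [PartialOrder β], Nonempty (α ≃o β) → RankSymmetric α → RankSymmetric β

end

end Q14NCH
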