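import Mathlib
import Pool.Agent.Q14.NCH.Stmts

set_option autoImplicit false

namespace Q14NCH

theorem Graded_exists_Z {α : Type} [PartialOrder α] [OrderBot α] (f : α → ℕ)
    (h0 : f ⊥ = 0) (hs : ∀ x : α, x ≠ ⊥ → ∃ y, y < x ∧ f y + 1 = f x) :
    ∀ (n : ℕ) (x : α), f x = n →
      ∃ Z : Set α, IsChain (· ≤ ·) Z ∧ (∀ z ∈ Z, z < x) ∧ f '' Z = Set.Iio n := by
  intro n
  induction n with
  | zero =>
    intro x _
    exact ⟨∅, IsChain.empty, by simp, by simp⟩
  | succ n ih =>
    intro x hx
    have hne : x ≠ ⊥ := by
      rintro rfl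
      omega
    obtain ⟨y, hyx, hy⟩ := hs x hne
    obtain ⟨Z, hZ1, hZ2, hZ3⟩ := ih y (by omega)
    refine ⟨insert y Z, ?_, ?_, ?_⟩
    · exact hZ1.insert fun b hb _ => Or.inr (hZ2 b hb).le
    · intro z hz
      rcases hz with rfl | hz
      · exact hyx
      · exact (hZ2 z hz).trans hyx
    · rw [Set.image_insert_eq, hZ3]
      ext k
      simp only [Set.mem_insert_iff, Set.mem_Iio]
      omega

theorem Graded : TaskGraded := by
  intro α _ _ _ f N hf h0 hs hN x c hc hx
  classical
  obtain ⟨Z, hZ1, hZ2, hZ3⟩ := Graded_exists_Z f h0 hs (f x) x rfl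
  set D : Set α := {y | y ∈ c ∧ y < x} with hD
  set U : Set α := {y | y ∈ c ∧ x ≤ y} with hU
  have hcU : c = D ∪ U := by
    ext y
    constructor
    · intro hy
      rcases eq_or_ne y x with rfl | hne
      · exact Or.inr ⟨hy, le_rfl⟩
      · rcases hc.1 hy hx hne with h | h
        · exact Or.inl ⟨hy, lt_of_le_of_ne h hne⟩
        · exact Or.inr ⟨hy, h⟩
    · rintro (h | h)
      · exact h.1
      · exact h.1
  have hDU : Disjoint D U := by
    rw [Set.disjoint_left]
    intro y hy hy'
    exact absurd hy'.2 (not_le_of_gt hy.2)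
  have hZU : Disjoint Z U := by
    rw [Set.disjoint_left]
    intro y hy hy'
    exact absurd hy'.2 (not_le_of_gt (hZ2 y hy))
  have hxU : x ∈ U := ⟨hx, le_rfl⟩
  have hinj : Set.InjOn f Z := by
    intro a ha b hb hab
    by_contra hne
    rcases hZ1 ha hb hne with h | h
    · exact absurd (hf (lt_of_le_of_ne h hne)) (by omega)
    · exact absurd (hf (lt_of_le_of_ne h (Ne.symm hne))) (by omega)
  have hZcard : Z.ncard = f x := by
    rw [← Set.ncard_image_of_injOn hinj, hZ3]
    rw [Set.ncard_eq_toFinset_card']
    simp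
  have hmax : IsMaxChain (· ≤ ·) (Z ∪ U) := by
    constructor
    · intro a ha b hb hne
      rcases ha with ha | ha <;> rcases hb with hb | hb
      · exact hZ1 ha hb hne
      · exact Or.inl ((hZ2 a ha).le.trans hb.2)
      · exact Or.inr ((hZ2 b hb).le.trans ha.2)
      · exact hc.1 ha.1 hb.1 hne
    · intro t ht hst
      apply Set.Subset.antisymm hst
      intro w hw
      have hcmp : ∀ z ∈ Z ∪ U, w ≤ z ∨ z ≤ w := by
        intro z hz
        rcases eq_or_ne w z with rfl | hne
        · exact Or.inl le_rfl
        · exact ht hw (hst hz) hne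
      by_cases hxw : x ≤ w
      · right
        refine ⟨?_, hxw⟩
        have hch : IsChain (· ≤ ·) (insert w c) := by
          apply hc.1.insert
          intro b hb _
          rw [hcU] at hb
          rcases hb with hb | hb
          · exact Or.inr (hb.2.le.trans hxw)
          · exact hcmp b (Or.inr hb)
        have := hc.2 hch (Set.subset_insert w c)
        rw [this]
        exact Set.mem_insert w c
      · left
        have hwx : w ≤ x := (hcmp x (Or.inr hxU)).resolve_right hxw
        have hlt : w < x := lt_of_le_of_ne hwx (fun h => hxw h.ge)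
        have hmem : f w ∈ f '' Z := by
          rw [hZ3]
          exact hf hlt
        obtain ⟨z, hz, hfz⟩ := hmem
        have : w = z := by
          by_contra hne
          rcases hcmp z (Or.inl hz) with h | h
          · exact absurd (hf (lt_of_le_of_ne h hne)) (by omega)
          · exact absurd (hf (lt_of_le_of_ne h (Ne.symm hne))) (by omega)
        rw [this]
        exact hz
  have h1 := hN c hc
  have h2 := hN (Z ∪ U) hmax
  rw [Set.ncard_union_eq hZU (Set.toFinite _) (Set.toFinite _)] at h2
  have h3 : c.ncard = D.ncard + U.ncard := by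
    conv_lhs => rw [hcU]
    exact Set.ncard_union_eq hDU (Set.toFinite _) (Set.toFinite _)
  omega

end Q14NCH
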