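import Pool.Agent.Q14.NCH.Stmts2

set_option autoImplicit false

namespace Q14NCH

private theorem taskInt_mem (P : Set Plane) (a b c z : Plane) (ha : a ∈ P) (hb : b ∈ P) (hc : c ∈ P)
    (h1 : 0 < orient a b z) (h2 : 0 < orient b c z) (h3 : 0 < orient c a z) :
    z ∈ convexHull ℝ P := by
  have hD : 0 < orient a b z + orient b c z + orient c a z := by positivity
  have hD' := hD.ne'
  refine mem_convexHull_of_exists_fintype
    ![orient b c z / (orient a b z + orient b c z + orient c a z),
      orient c a z / (orient a b z + orient b c z + orient c a z),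
      orient a b z / (orient a b z + orient b c z + orient c a z)] ![a, b, c] ?_ ?_ ?_ ?_
  · intro i
    fin_cases i
    · exact (div_pos h2 hD).le
    · exact (div_pos h3 hD).le
    · exact (div_pos h1 hD).le
  · rw [Fin.sum_univ_three]
    simp only [Matrix.cons_val]
    rw [← add_div, ← add_div, div_eq_one_iff_eq hD']
    ring
  · intro i
    fin_cases i
    · exact ha
    · exact hb
    · exact hc
  · rw [Fin.sum_univ_three]
    simp only [Matrix.cons_val]
    have k1 : orient b c z * a.1 + orient c a z * b.1 + orient a b z * c.1 =
        (orient a b z + orient b c z + orient c a z) * z.1 := by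
      unfold orient; ring
    have k2 : orient b c z * a.2 + orient c a z * b.2 + orient a b z * c.2 =
        (orient a b z + orient b c z + orient c a z) * z.2 := by
      unfold orient; ring
    generalize orient a b z + orient b c z + orient c a z = D at *
    refine Prod.ext ?_ ?_
    · change orient b c z / D * a.1 + orient c a z / D * b.1 + orient a b z / D * c.1 = z.1
      rw [div_mul_eq_mul_div, div_mul_eq_mul_div, div_mul_eq_mul_div, ← add_div, ← add_div, k1]
      field_simp
    · change orient b c z / D * a.2 + orient c a z / D * b.2 + orient a b z / D * c.2 = z.2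
      rw [div_mul_eq_mul_div, div_mul_eq_mul_div, div_mul_eq_mul_div, ← add_div, ← add_div, k2]
      field_simp

private theorem taskInt_cont (a b : Plane) : Continuous fun z : Plane => orient a b z := by
  unfold orient
  fun_prop

theorem Int : TaskInt := by
  intro P hP a ha b hb c hc x hx ⟨h1, h2, h3⟩
  have hfr := hP.2 x hx
  have hopen : IsOpen {z : Plane | 0 < orient a b z ∧ 0 < orient b c z ∧ 0 < orient c a z} :=
    (isOpen_lt continuous_const (taskInt_cont a b)).inter
      ((isOpen_lt continuous_const (taskInt_cont b c)).inter
        (isOpen_lt continuous_const (taskInt_cont c a)))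
  have hsub : {z : Plane | 0 < orient a b z ∧ 0 < orient b c z ∧ 0 < orient c a z} ⊆
      convexHull ℝ (P : Set Plane) := fun z hz => taskInt_mem P a b c z ha hb hc hz.1 hz.2.1 hz.2.2
  have hint : x ∈ interior (convexHull ℝ (P : Set Plane)) :=
    interior_maximal hsub hopen ⟨h1, h2, h3⟩
  exact hfr.2 hint

end Q14NCH
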