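import Pool.Agent.Q14.NCH.Stmts2

namespace Q14NCH

noncomputable section

namespace IsoAux

open Finset

variable {n : ℕ}

/-- preimage of a set of points -/
def q (p : Fin (n + 1) → Plane) (A : Finset Plane) : Finset (Fin (n + 1)) :=
  Finset.univ.filter (fun i => p i ∈ A)

theorem mem_q (p : Fin (n + 1) → Plane) (A : Finset Plane) (i : Fin (n + 1)) :
    i ∈ q p A ↔ p i ∈ A := by simp [q]

theorem q_image {p : Fin (n + 1) → Plane} (hp : Function.Injective p) (B : Finset (Fin (n + 1))) :
    q p (B.image p) = B := by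
  ext i
  rw [mem_q, Finset.mem_image]
  constructor
  · rintro ⟨j, hj, h⟩
    rw [← hp h]; exact hj
  · intro h; exact ⟨i, h, rfl⟩

theorem image_q {p : Fin (n + 1) → Plane} {P : Finset Plane} (hr : Set.range p = (P : Set Plane))
    {A : Finset Plane} (hA : A ⊆ P) : (q p A).image p = A := by
  ext a
  rw [Finset.mem_image]
  constructor
  · rintro ⟨j, hj, rfl⟩
    exact (mem_q p A j).1 hj
  · intro h
    have : a ∈ Set.range p := by rw [hr]; exact_mod_cast hA h
    obtain ⟨i, rfl⟩ := this
    exact ⟨i, (mem_q p A i).2 h, rfl⟩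

/-- forward transport -/
def fwd {p : Fin (n + 1) → Plane} {P : Finset Plane} (hr : Set.range p = (P : Set Plane))
    (π : Finpartition P) : Finpartition (Finset.univ : Finset (Fin (n + 1))) :=
  Finpartition.ofExistsUnique (π.parts.image (q p))
    (fun A _ => Finset.subset_univ A)
    (by
      intro i _
      have hi : p i ∈ P := by
        have : p i ∈ (P : Set Plane) := by rw [← hr]; exact ⟨i, rfl⟩
        exact_mod_cast this
      obtain ⟨A, ⟨hA, hiA⟩, hu⟩ := π.existsUnique_mem hi
      refine ⟨q p A, ⟨Finset.mem_image_of_mem _ hA, (mem_q p A i).2 hiA⟩, ?_⟩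
      rintro B ⟨hB, hiB⟩
      obtain ⟨A', hA', rfl⟩ := Finset.mem_image.1 hB
      rw [hu A' ⟨hA', (mem_q p A' i).1 hiB⟩])
    (by
      intro h
      obtain ⟨A, hA, he⟩ := Finset.mem_image.1 h
      obtain ⟨a, ha⟩ := π.nonempty_of_mem_parts hA
      have haP : a ∈ P := π.le hA ha
      have : a ∈ Set.range p := by rw [hr]; exact_mod_cast haP
      obtain ⟨i, rfl⟩ := this
      have : i ∈ q p A := (mem_q p A i).2 ha
      rw [he] at this
      exact absurd this (Finset.notMem_empty i))

theorem fwd_parts {p : Fin (n + 1) → Plane} {P : Finset Plane}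
    (hr : Set.range p = (P : Set Plane)) (π : Finpartition P) :
    (fwd hr π).parts = π.parts.image (q p) := rfl

/-- backward transport -/
def bwd {p : Fin (n + 1) → Plane} {P : Finset Plane} (hp : Function.Injective p)
    (hr : Set.range p = (P : Set Plane))
    (π : Finpartition (Finset.univ : Finset (Fin (n + 1)))) : Finpartition P :=
  Finpartition.ofExistsUnique (π.parts.image (fun B => B.image p))
    (by
      intro A hA
      obtain ⟨B, _, rfl⟩ := Finset.mem_image.1 hA
      intro a ha
      obtain ⟨i, _, rfl⟩ := Finset.mem_image.1 ha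
      have : p i ∈ (P : Set Plane) := by rw [← hr]; exact ⟨i, rfl⟩
      exact_mod_cast this)
    (by
      intro a ha
      have : a ∈ Set.range p := by rw [hr]; exact_mod_cast ha
      obtain ⟨i, rfl⟩ := this
      obtain ⟨B, ⟨hB, hiB⟩, hu⟩ := π.existsUnique_mem (Finset.mem_univ i)
      refine ⟨B.image p, ⟨Finset.mem_image_of_mem _ hB, Finset.mem_image_of_mem _ hiB⟩, ?_⟩
      rintro A ⟨hA, hiA⟩
      obtain ⟨B', hB', rfl⟩ := Finset.mem_image.1 hA
      obtain ⟨j, hj, hji⟩ := Finset.mem_image.1 hiA
      rw [hu B' ⟨hB', by rw [← hp hji]; exact hj⟩])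
    (by
      intro h
      obtain ⟨B, hB, he⟩ := Finset.mem_image.1 h
      obtain ⟨i, hi⟩ := π.nonempty_of_mem_parts hB
      have : p i ∈ B.image p := Finset.mem_image_of_mem _ hi
      rw [he] at this
      exact absurd this (Finset.notMem_empty _))

theorem bwd_parts {p : Fin (n + 1) → Plane} {P : Finset Plane} (hp : Function.Injective p)
    (hr : Set.range p = (P : Set Plane))
    (π : Finpartition (Finset.univ : Finset (Fin (n + 1)))) :
    (bwd hp hr π).parts = π.parts.image (fun B => B.image p) := rfl

theorem bwd_fwd {p : Fin (n + 1) → Plane} {P : Finset Plane} (hp : Function.Injective p)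
    (hr : Set.range p = (P : Set Plane)) (π : Finpartition P) : bwd hp hr (fwd hr π) = π := by
  apply Finpartition.ext
  rw [bwd_parts, fwd_parts, Finset.image_image]
  ext A
  rw [Finset.mem_image]
  constructor
  · rintro ⟨B, hB, rfl⟩
    simp only [Function.comp]
    rw [image_q hr (π.le hB)]; exact hB
  · intro hA
    exact ⟨A, hA, by simp only [Function.comp]; exact image_q hr (π.le hA)⟩

theorem fwd_bwd {p : Fin (n + 1) → Plane} {P : Finset Plane} (hp : Function.Injective p)
    (hr : Set.range p = (P : Set Plane))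
    (π : Finpartition (Finset.univ : Finset (Fin (n + 1)))) : fwd hr (bwd hp hr π) = π := by
  apply Finpartition.ext
  rw [fwd_parts, bwd_parts, Finset.image_image]
  ext A
  rw [Finset.mem_image]
  constructor
  · rintro ⟨B, hB, rfl⟩
    simp only [Function.comp]
    rw [q_image hp]; exact hB
  · intro hA
    exact ⟨A, hA, by simp only [Function.comp]; exact q_image hp A⟩

theorem hull_q {p : Fin (n + 1) → Plane} {P : Finset Plane} (hr : Set.range p = (P : Set Plane))
    {A : Finset Plane} (hA : A ⊆ P) : hull p (q p A) = convexHull ℝ (A : Set Plane) := by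
  unfold hull
  rw [← Finset.coe_image, image_q hr hA]

theorem hull_image (p : Fin (n + 1) → Plane) (B : Finset (Fin (n + 1))) :
    convexHull ℝ ((B.image p : Finset Plane) : Set Plane) = hull p B := by
  unfold hull
  rw [Finset.coe_image]

end IsoAux

open IsoAux in
theorem Iso : TaskIso := by
  intro P n p hp hr
  refine ⟨{ toFun := fun π => ⟨fwd hr π.1, ?_⟩
            invFun := fun π => ⟨bwd hp hr π.1, ?_⟩
            left_inv := ?_
            right_inv := ?_
            map_rel_iff' := ?_ }⟩
  · intro A hA B hB hAB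
    rw [fwd_parts] at hA hB
    obtain ⟨A', hA', rfl⟩ := Finset.mem_image.1 hA
    obtain ⟨B', hB', rfl⟩ := Finset.mem_image.1 hB
    rw [hull_q hr (π.1.le hA'), hull_q hr (π.1.le hB')]
    exact π.2 A' hA' B' hB' (fun h => hAB (by rw [h]))
  · intro A hA B hB hAB
    rw [bwd_parts] at hA hB
    obtain ⟨A', hA', rfl⟩ := Finset.mem_image.1 hA
    obtain ⟨B', hB', rfl⟩ := Finset.mem_image.1 hB
    rw [hull_image, hull_image]
    exact π.2 A' hA' B' hB' (fun h => hAB (by rw [h]))
  · intro π
    exact Subtype.ext (bwd_fwd hp hr π.1)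
  · intro π
    exact Subtype.ext (fwd_bwd hp hr π.1)
  · intro π σ
    constructor
    · intro h A hA
      have h1 : q p A ∈ (fwd hr π.1).parts := by
        rw [fwd_parts]; exact Finset.mem_image_of_mem _ hA
      obtain ⟨C, hC, hle⟩ := h h1
      change C ∈ (fwd hr σ.1).parts at hC
      rw [fwd_parts] at hC
      obtain ⟨B, hB, rfl⟩ := Finset.mem_image.1 hC
      refine ⟨B, hB, ?_⟩
      have h2 : (q p A).image p ⊆ (q p B).image p := Finset.image_subset_image hle
      rw [image_q hr (π.1.le hA), image_q hr (σ.1.le hB)] at h2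
      exact h2
    · intro h C hC
      change C ∈ (fwd hr π.1).parts at hC
      rw [fwd_parts] at hC
      obtain ⟨A, hA, rfl⟩ := Finset.mem_image.1 hC
      obtain ⟨B, hB, hle⟩ := h hA
      refine ⟨q p B, ?_, ?_⟩
      · change q p B ∈ (fwd hr σ.1).parts
        rw [fwd_parts]; exact Finset.mem_image_of_mem _ hB
      · intro i hi
        exact (mem_q p B i).2 (hle ((mem_q p A i).1 hi))

end

end Q14NCH
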