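import Pool.Agent.Q14.NCH.Stmts2

/-! MP_f3bbeb_co: the labelling of a hull configuration. -/

namespace Q14NCH

noncomputable section

private lemma lab_col (d e : Plane) (hd : d ≠ 0) (h : d.1 * e.2 - d.2 * e.1 = 0) :
    ∃ r : ℝ, e = r • d := by
  by_cases h1 : d.1 = 0
  · have h2 : d.2 ≠ 0 := fun h2 => hd (Prod.ext h1 h2)
    have he : e.1 = 0 := by
      rw [h1] at h
      have : d.2 * e.1 = 0 := by linarith
      exact (mul_eq_zero.1 this).resolve_left h2
    refine ⟨e.2 / d.2, Prod.ext ?_ ?_⟩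
    · simp [h1, he]
    · rw [Prod.smul_snd, smul_eq_mul]
      field_simp
  · refine ⟨e.1 / d.1, Prod.ext ?_ ?_⟩
    · rw [Prod.smul_fst, smul_eq_mul]
      field_simp
    · rw [Prod.smul_snd, smul_eq_mul]
      field_simp
      linarith

theorem Label : TaskLabel := by
  intro hSupp hInt hOrd hThree hLex hSort P hP
  have hne : P.Nonempty := by
    rcases P.eq_empty_or_nonempty with h | h
    · exfalso
      apply hP.1
      rw [h, Finset.coe_empty]
      exact collinear_empty ℝ Plane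
    · exact h
  obtain ⟨v, hv, hvx⟩ := hLex P hne
  obtain ⟨ho1, ho2⟩ := hOrd hSupp hInt P hP v hv
  obtain ⟨m, f, hm, hfi, hfr, hfo⟩ : ∃ (m : ℕ) (f : Fin m → Plane), m = (P.erase v).card ∧
      Function.Injective f ∧ Set.range f = ((P.erase v : Finset Plane) : Set Plane) ∧
      ∀ i j, i < j → Before P v (f i) (f j) := by
    obtain ⟨f, h1, h2, h3⟩ := hSort (P.erase v) (Before P v)
      (fun x hx y hy hxy => ho1 x (Finset.mem_of_mem_erase hx) y (Finset.mem_of_mem_erase hy)
        (Finset.ne_of_mem_erase hx) (Finset.ne_of_mem_erase hy) hxy)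
      (fun x hx y hy z hz hxy hyz h1 h2 => ho2 x (Finset.mem_of_mem_erase hx) y
        (Finset.mem_of_mem_erase hy) z (Finset.mem_of_mem_erase hz)
        (Finset.ne_of_mem_erase hx) (Finset.ne_of_mem_erase hy) (Finset.ne_of_mem_erase hz)
        hxy hyz h1 h2)
    exact ⟨_, f, rfl, h1, h2, h3⟩
  have hfm : ∀ i, f i ∈ P ∧ f i ≠ v := by
    intro i
    have : f i ∈ ((P.erase v : Finset Plane) : Set Plane) := by rw [← hfr]; exact ⟨i, rfl⟩
    rw [Finset.mem_coe, Finset.mem_erase] at this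
    exact ⟨this.2, this.1⟩
  let p : Fin (m + 1) → Plane := Fin.cons v f
  have hpi : Function.Injective p :=
    Fin.cons_injective_iff.2 ⟨fun ⟨i, hi⟩ => (hfm i).2 hi, hfi⟩
  have hpr : Set.range p = (P : Set Plane) := by
    show Set.range (Fin.cons v f : Fin (m + 1) → Plane) = _
    rw [Fin.range_cons, hfr, Finset.coe_erase, Set.insert_diff_singleton,
      Set.insert_eq_of_mem (Finset.mem_coe.2 hv.1)]
  refine ⟨m, p, hpi, hpr, ?_⟩
  have hq0 : seqOf p 0 = v := by
    have h : Fin.ofNat (m + 1) 0 = 0 := rfl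
    show p (Fin.ofNat (m + 1) 0) = v
    rw [h]
    exact Fin.cons_zero ..
  have hqs : ∀ j (hj : j < m), seqOf p (j + 1) = f ⟨j, hj⟩ := by
    intro j hj
    have h : Fin.ofNat (m + 1) (j + 1) = Fin.succ ⟨j, hj⟩ := by
      apply Fin.ext
      show (j + 1) % (m + 1) = j + 1
      exact Nat.mod_eq_of_lt (by omega)
    show p (Fin.ofNat (m + 1) (j + 1)) = _
    rw [h]
    exact Fin.cons_succ ..
  have hinj : ∀ i j, i < m + 1 → j < m + 1 → seqOf p i = seqOf p j → i = j := by
    intro i j hi hj h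
    have h1 : Fin.ofNat (m + 1) i = Fin.ofNat (m + 1) j := hpi h
    have h2 : i % (m + 1) = j % (m + 1) := congrArg Fin.val h1
    rwa [Nat.mod_eq_of_lt hi, Nat.mod_eq_of_lt hj] at h2
  refine ⟨hinj, ?_, ?_, ?_, ?_⟩
  · -- wrap
    have h : Fin.ofNat (m + 1) (m + 1) = Fin.ofNat (m + 1) 0 := by
      apply Fin.ext
      show (m + 1) % (m + 1) = 0 % (m + 1)
      simp
    show p (Fin.ofNat (m + 1) (m + 1)) = p (Fin.ofNat (m + 1) 0)
    rw [h]
  · -- pos
    intro i j k hij hjk hk
    obtain ⟨j', rfl⟩ : ∃ j', j = j' + 1 := ⟨j - 1, by omega⟩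
    obtain ⟨k', rfl⟩ : ∃ k', k = k' + 1 := ⟨k - 1, by omega⟩
    have hj' : j' < m := by omega
    have hk' : k' < m := by omega
    have hbjk : Before P v (f ⟨j', hj'⟩) (f ⟨k', hk'⟩) := hfo _ _ (by
      rw [Fin.lt_def]; show j' < k'; omega)
    rw [hqs j' hj', hqs k' hk']
    rcases Nat.eq_zero_or_pos i with h0 | h0
    · rw [h0, hq0]
      rcases hbjk with h | h
      · exact h.le
      · exact h.1.ge
    · obtain ⟨i', rfl⟩ : ∃ i', i = i' + 1 := ⟨i - 1, by omega⟩
      have hi' : i' < m := by omega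
      rw [hqs i' hi']
      have hbij : Before P v (f ⟨i', hi'⟩) (f ⟨j', hj'⟩) := hfo _ _ (by
        rw [Fin.lt_def]; show i' < j'; omega)
      have hbik : Before P v (f ⟨i', hi'⟩) (f ⟨k', hk'⟩) := hfo _ _ (by
        rw [Fin.lt_def]; show i' < k'; omega)
      have hn : ∀ a b (ha : a < m) (hb : b < m), a ≠ b → f ⟨a, ha⟩ ≠ f ⟨b, hb⟩ := by
        intro a b ha hb hab h
        exact hab (congrArg Fin.val (hfi h))
      exact hThree hSupp hInt P hP v hv _ (hfm _).1 _ (hfm _).1 _ (hfm _).1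
        (hfm _).2 (hfm _).2 (hfm _).2 (hn _ _ hi' hj' (by omega)) (hn _ _ hj' hk' (by omega))
        (hn _ _ hi' hk' (by omega)) hbij hbjk hbik
  · -- vertex
    intro h
    rw [hq0] at h
    apply hvx
    refine convexHull_mono ?_ h
    rintro _ ⟨j, hj, rfl⟩
    obtain ⟨j', rfl⟩ : ∃ j', j = j' + 1 := ⟨j - 1, by have := hj.1; omega⟩
    have hj' : j' < m := by have := hj.2; omega
    rw [hqs j' hj']
    exact ⟨(hfm _).1, (hfm _).2⟩
  · -- line
    by_contra hcon
    push Not at hcon
    apply hP.1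
    rw [collinear_iff_of_mem (Finset.mem_coe.2 hv.1)]
    rcases Nat.eq_zero_or_pos m with h0 | h0
    · refine ⟨0, fun x hx => ⟨0, ?_⟩⟩
      have hxv : x = v := by
        by_contra hne'
        have : x ∈ P.erase v := Finset.mem_erase.2 ⟨hne', hx⟩
        rw [hm] at h0
        rw [Finset.card_eq_zero.1 h0] at this
        simp at this
      rw [hxv]; simp
    · refine ⟨seqOf p 1 - v, fun x hx => ?_⟩
      by_cases hxv : x = v
      · exact ⟨0, by rw [hxv]; simp⟩
      have hd : seqOf p 1 - v ≠ 0 := by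
        intro h
        have h' : seqOf p 1 = seqOf p 0 := by rw [hq0]; exact sub_eq_zero.1 h
        have := hinj 1 0 (by omega) (by omega) h'
        omega
      have hxr : x ∈ Set.range f := by
        rw [hfr]; exact Finset.mem_coe.2 (Finset.mem_erase.2 ⟨hxv, hx⟩)
      obtain ⟨⟨k, hk⟩, hkx⟩ := hxr
      by_cases hk0 : k = 0
      · refine ⟨1, ?_⟩
        have h1 : seqOf p 1 = x := by
          have := hqs 0 h0
          rw [← hkx]
          simp only [hk0]
          exact this
        rw [h1]; simp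
      · have hor := hcon 0 1 (k + 1) (by omega) (by omega) (by omega)
        rw [hq0, hqs k hk, hkx] at hor
        obtain ⟨r, hr⟩ := lab_col (seqOf p 1 - v) (x - v) hd (by
          unfold orient at hor
          simpa using hor)
        refine ⟨r, ?_⟩
        rw [← hr]; simp

end

end Q14NCH
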