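import Pool.Agent.Q14.NCH.Stmts2

set_option autoImplicit false

open Set

namespace Q14NCH

private lemma lexConvex (v : Plane) :
    Convex ℝ {x : Plane | v.1 < x.1 ∨ (v.1 = x.1 ∧ v.2 < x.2)} := by
  intro x hx y hy a b ha hb hab
  simp only [mem_setOf_eq, Prod.fst_add, Prod.smul_fst, Prod.snd_add, Prod.smul_snd,
    smul_eq_mul] at hx hy ⊢
  rcases ha.eq_or_lt with h0 | ha'
  · have h1 : b = 1 := by linarith
    rw [← h0, h1]
    simpa using hy
  rcases hb.eq_or_lt with h0 | hb'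
  · have h1 : a = 1 := by linarith
    rw [← h0, h1]
    simpa using hx
  have e1 : v.1 = a * v.1 + b * v.1 := by rw [← add_mul, hab, one_mul]
  have e2 : v.2 = a * v.2 + b * v.2 := by rw [← add_mul, hab, one_mul]
  rcases hx with hx | ⟨hx1, hx2⟩ <;> rcases hy with hy | ⟨hy1, hy2⟩
  · left
    have h1 := mul_lt_mul_of_pos_left hx ha'
    have h2 := mul_lt_mul_of_pos_left hy hb'
    linarith
  · left
    have h1 := mul_lt_mul_of_pos_left hx ha'
    rw [← hy1]
    linarith
  · left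
    have h2 := mul_lt_mul_of_pos_left hy hb'
    rw [← hx1]
    linarith
  · right
    have h1 := mul_lt_mul_of_pos_left hx2 ha'
    have h2 := mul_lt_mul_of_pos_left hy2 hb'
    rw [← hx1, ← hy1]
    exact ⟨e1, by linarith⟩

theorem Lex : TaskLex := by
  intro P hP
  obtain ⟨v, hv, hmin⟩ := P.exists_min_image (fun x => toLex x) hP
  have hlex : LexMin P v := ⟨hv, fun x hx => Prod.Lex.toLex_le_toLex.mp (hmin x hx)⟩
  refine ⟨v, hlex, fun h => ?_⟩
  have hsub : convexHull ℝ ((P : Set Plane) \ {v}) ⊆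
      {x : Plane | v.1 < x.1 ∨ (v.1 = x.1 ∧ v.2 < x.2)} := by
    refine convexHull_min ?_ (lexConvex v)
    rintro x ⟨hx, hxv⟩
    rcases hlex.2 x hx with h1 | ⟨h1, h2⟩
    · exact Or.inl h1
    · refine Or.inr ⟨h1, lt_of_le_of_ne h2 fun h3 => hxv ?_⟩
      rw [mem_singleton_iff]
      exact Prod.ext h1.symm h3.symm
  have h1 := hsub h
  simp only [mem_setOf_eq, lt_irrefl, and_false, or_false] at h1

end Q14NCH
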