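import Pool.Agent.Q14.NCH.Stmts2

namespace Q14NCH

noncomputable section

namespace Ord160

/-- `x` is lexicographically larger than `v` -/
def PosV (v x : Plane) : Prop := v.1 < x.1 ∨ (v.1 = x.1 ∧ v.2 < x.2)

lemma pos_of {P : Finset Plane} {v x : Plane} (h : LexMin P v) (hx : x ∈ P) (hne : x ≠ v) :
    PosV v x := by
  rcases h.2 x hx with h1 | ⟨h1, h2⟩
  · exact Or.inl h1
  · refine Or.inr ⟨h1, lt_of_le_of_ne h2 ?_⟩
    intro h3
    exact hne (Prod.ext h1.symm h3.symm)

/-- `y - v = t (x - v)` -/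
def Par (v x y : Plane) (t : ℝ) : Prop :=
  0 < t ∧ y.1 - v.1 = t * (x.1 - v.1) ∧ y.2 - v.2 = t * (x.2 - v.2)

lemma par_of {v x y : Plane} (hx : PosV v x) (hy : PosV v y) (h : orient v x y = 0) :
    ∃ t : ℝ, Par v x y t := by
  unfold orient at h
  rcases hx with hx | ⟨hx1, hx2⟩
  · have hx0 : 0 < x.1 - v.1 := sub_pos.2 hx
    have e1 : y.1 - v.1 = (y.1 - v.1) / (x.1 - v.1) * (x.1 - v.1) := by
      rw [div_mul_cancel₀ _ hx0.ne']
    have e2 : y.2 - v.2 = (y.1 - v.1) / (x.1 - v.1) * (x.2 - v.2) := by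
      rw [div_mul_eq_mul_div, eq_div_iff hx0.ne']
      linarith
    refine ⟨(y.1 - v.1) / (x.1 - v.1), ?_, e1, e2⟩
    apply div_pos _ hx0
    rcases hy with hy | ⟨hy1, hy2⟩
    · exact sub_pos.2 hy
    · exfalso
      rw [← hy1, sub_self, zero_div, zero_mul] at e2
      linarith
  · have hx0 : 0 < x.2 - v.2 := sub_pos.2 hx2
    have h1 : (x.2 - v.2) * (y.1 - v.1) = 0 := by
      rw [← hx1, sub_self, zero_mul, zero_sub, neg_eq_zero] at h
      exact h
    have h2 : y.1 - v.1 = 0 := (mul_eq_zero.1 h1).resolve_left hx0.ne'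
    refine ⟨(y.2 - v.2) / (x.2 - v.2), ?_, ?_, ?_⟩
    · apply div_pos _ hx0
      rcases hy with hy | ⟨hy1, hy2⟩
      · linarith
      · exact sub_pos.2 hy2
    · rw [h2, ← hx1, sub_self, mul_zero]
    · rw [div_mul_cancel₀ _ hx0.ne']

lemma mem_seg {v a b : Plane} : a ∈ segment ℝ v b ↔
    ∃ s : ℝ, 0 ≤ s ∧ s ≤ 1 ∧ a.1 - v.1 = s * (b.1 - v.1) ∧ a.2 - v.2 = s * (b.2 - v.2) := by
  rw [segment_eq_image']
  constructor
  · rintro ⟨s, ⟨h0, h1⟩, rfl⟩
    refine ⟨s, h0, h1, ?_, ?_⟩
    · simp
    · simp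
  · rintro ⟨s, h0, h1, e1, e2⟩
    refine ⟨s, ⟨h0, h1⟩, ?_⟩
    apply Prod.ext
    · simp only [Prod.fst_add, Prod.smul_fst, Prod.fst_sub, smul_eq_mul]
      linarith
    · simp only [Prod.snd_add, Prod.smul_snd, Prod.snd_sub, smul_eq_mul]
      linarith

lemma mul_cancel' {v x : Plane} (hx : PosV v x) {s t : ℝ}
    (h1 : s * (x.1 - v.1) = t * (x.1 - v.1)) (h2 : s * (x.2 - v.2) = t * (x.2 - v.2)) : s = t := by
  rcases hx with hx | ⟨_, hx⟩
  · exact mul_right_cancel₀ (sub_pos.2 hx).ne' h1
  · exact mul_right_cancel₀ (sub_pos.2 hx).ne' h2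

lemma seg1 {v x y : Plane} (hx : PosV v x) {t : ℝ} (h : Par v x y t) :
    x ∈ segment ℝ v y ↔ 1 ≤ t := by
  obtain ⟨ht, e1, e2⟩ := h
  rw [mem_seg]
  constructor
  · rintro ⟨s, h0, h1, f1, f2⟩
    have : (1 : ℝ) = s * t := by
      apply mul_cancel' hx
      · rw [e1] at f1
        linarith
      · rw [e2] at f2
        linarith
    nlinarith
  · intro h1
    refine ⟨1 / t, by positivity, (div_le_one ht).2 h1, ?_, ?_⟩
    · rw [e1]
      field_simp
    · rw [e2]
      field_simp

lemma seg2 {v x y : Plane} (hx : PosV v x) {t : ℝ} (h : Par v x y t) :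
    y ∈ segment ℝ v x ↔ t ≤ 1 := by
  obtain ⟨ht, e1, e2⟩ := h
  rw [mem_seg]
  constructor
  · rintro ⟨s, h0, h1, f1, f2⟩
    have : t = s := by
      apply mul_cancel' hx
      · rw [← e1, f1]
      · rw [← e2, f2]
    rw [this]
    exact h1
  · intro h1
    exact ⟨t, ht.le, h1, e1, e2⟩

lemma side {P : Finset Plane} {v x y : Plane} {t : ℝ} (h : Par v x y t) :
    (∀ c ∈ P, 0 ≤ orient v y c) ↔ ∀ c ∈ P, 0 ≤ orient v x c := by
  obtain ⟨ht, e1, e2⟩ := h
  have e : ∀ c, orient v y c = t * orient v x c := by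
    intro c
    unfold orient
    rw [e1, e2]
    ring
  constructor
  · intro h c hc
    have h1 := h c hc
    rw [e c] at h1
    exact nonneg_of_mul_nonneg_right h1 ht
  · intro h c hc
    rw [e c]
    exact mul_nonneg ht.le (h c hc)

lemma par_ne {v x y : Plane} {t : ℝ} (h : Par v x y t) (hxy : x ≠ y) : t ≠ 1 := by
  rintro rfl
  obtain ⟨_, e1, e2⟩ := h
  apply hxy
  apply Prod.ext <;> linarith

lemma par_symm {v x y : Plane} {t : ℝ} (h : Par v x y t) : Par v y x (1 / t) := by
  obtain ⟨ht, e1, e2⟩ := h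
  refine ⟨by positivity, ?_, ?_⟩
  · rw [e1]
    field_simp
  · rw [e2]
    field_simp

lemma par_trans {v x y z : Plane} {t s : ℝ} (h : Par v x y t) (h' : Par v y z s) :
    Par v x z (s * t) := by
  obtain ⟨ht, e1, e2⟩ := h
  obtain ⟨hs, f1, f2⟩ := h'
  refine ⟨by positivity, ?_, ?_⟩
  · rw [f1, e1]
    ring
  · rw [f2, e2]
    ring

lemma par_orient {v x y : Plane} {t : ℝ} (h : Par v x y t) : orient v x y = 0 := by
  obtain ⟨ht, e1, e2⟩ := h
  unfold orient
  rw [e1, e2]
  ring

lemma swap (v x y : Plane) : orient v y x = - orient v x y := by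
  unfold orient
  ring

/-- the order on a ray -/
lemma before_par {P : Finset Plane} {v x y : Plane} (hx : PosV v x) {t : ℝ} (h : Par v x y t) :
    Before P v x y ↔ ((∀ c ∈ P, 0 ≤ orient v x c) ∧ 1 ≤ t) ∨
      (¬ (∀ c ∈ P, 0 ≤ orient v x c) ∧ t ≤ 1) := by
  unfold Before
  rw [par_orient h, seg1 hx h, seg2 hx h]
  simp

lemma trans_pos {v x y z : Plane} (hx : PosV v x) (hy : PosV v y) (hz : PosV v z)
    (h1 : 0 < orient v x y) (h2 : 0 < orient v y z) : 0 < orient v x z := by
  unfold orient at *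
  have hx1 : 0 < x.1 - v.1 := by
    rcases hx with hx | ⟨hx1, hx2⟩
    · exact sub_pos.2 hx
    · exfalso
      rw [← hx1, sub_self, zero_mul, zero_sub] at h1
      have hy1 : 0 ≤ y.1 - v.1 := by
        rcases hy with hy | ⟨hy, _⟩
        · exact (sub_pos.2 hy).le
        · linarith
      nlinarith
  have hy1 : 0 < y.1 - v.1 := by
    rcases hy with hy | ⟨hy1, hy2⟩
    · exact sub_pos.2 hy
    · exfalso
      rw [← hy1, sub_self, zero_mul, zero_sub] at h2
      have hz1 : 0 ≤ z.1 - v.1 := by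
        rcases hz with hz | ⟨hz, _⟩
        · exact (sub_pos.2 hz).le
        · linarith
      nlinarith
  have hz1 : 0 ≤ z.1 - v.1 := by
    rcases hz with hz | ⟨hz, _⟩
    · exact (sub_pos.2 hz).le
    · linarith
  have key : (y.1 - v.1) * ((x.1 - v.1) * (z.2 - v.2) - (x.2 - v.2) * (z.1 - v.1)) =
      (x.1 - v.1) * ((y.1 - v.1) * (z.2 - v.2) - (y.2 - v.2) * (z.1 - v.1)) +
      (z.1 - v.1) * ((x.1 - v.1) * (y.2 - v.2) - (x.2 - v.2) * (y.1 - v.1)) := by ring
  have h3 : 0 < (y.1 - v.1) * ((x.1 - v.1) * (z.2 - v.2) - (x.2 - v.2) * (z.1 - v.1)) := by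
    rw [key]
    have a1 := mul_pos hx1 h2
    have a2 := mul_nonneg hz1 h1.le
    linarith
  exact (mul_pos_iff_of_pos_left hy1).1 h3

end Ord160

open Ord160 in
theorem Order : TaskOrder := by
  intro _ _ P _ v hv
  refine ⟨?_, ?_⟩
  · intro x hx y hy hxv hyv hxy
    have px := pos_of hv hx hxv
    have py := pos_of hv hy hyv
    rcases lt_trichotomy (orient v x y) 0 with h | h | h
    · have h' : 0 < orient v y x := by
        rw [swap]
        linarith
      refine ⟨Or.inr (Or.inl h'), ?_⟩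
      rintro ⟨h1, _⟩
      rcases h1 with h1 | ⟨h1, _⟩
      · linarith
      · linarith
    · obtain ⟨t, ht⟩ := par_of px py h
      have ht1 := par_ne ht hxy
      rw [before_par px ht, before_par py (par_symm ht), side ht]
      have hinv : 1 ≤ 1 / t ↔ t ≤ 1 := by
        rw [le_div_iff₀ ht.1, one_mul]
      have hinv' : 1 / t ≤ 1 ↔ 1 ≤ t := by
        rw [div_le_iff₀ ht.1, one_mul]
      rw [hinv, hinv']
      generalize (∀ c ∈ P, 0 ≤ orient v x c) = A
      by_cases hA : A
      · simp only [hA, true_and, not_true_eq_false, false_and, or_false]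
        refine ⟨le_total 1 t, ?_⟩
        rintro ⟨h1, h2⟩
        exact ht1 (le_antisymm h2 h1)
      · simp only [hA, false_and, not_false_eq_true, true_and, false_or]
        refine ⟨le_total t 1, ?_⟩
        rintro ⟨h1, h2⟩
        exact ht1 (le_antisymm h1 h2)
    · refine ⟨Or.inl (Or.inl h), ?_⟩
      rintro ⟨_, h1⟩
      have h' := swap v x y
      rcases h1 with h1 | ⟨h1, _⟩
      · linarith
      · linarith
  · intro x hx y hy z hz hxv hyv hzv hxy hyz h1 h2
    have px := pos_of hv hx hxv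
    have py := pos_of hv hy hyv
    have pz := pos_of hv hz hzv
    have fin : 0 < orient v x z → x ≠ z ∧ Before P v x z := by
      intro h
      refine ⟨?_, Or.inl h⟩
      rintro rfl
      have := swap v x x
      linarith
    have h10 : 0 ≤ orient v x y := by
      rcases h1 with h | ⟨h, _⟩
      · exact h.le
      · exact h.ge
    have h20 : 0 ≤ orient v y z := by
      rcases h2 with h | ⟨h, _⟩
      · exact h.le
      · exact h.ge
    rcases h10.lt_or_eq with ha | ha
    · rcases h20.lt_or_eq with hb | hb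
      · exact fin (trans_pos px py pz ha hb)
      · obtain ⟨s, hs⟩ := par_of py pz hb.symm
        apply fin
        have e : orient v x z = s * orient v x y := by
          unfold orient
          rw [hs.2.1, hs.2.2]
          ring
        rw [e]
        exact mul_pos hs.1 ha
    · obtain ⟨t, ht⟩ := par_of px py ha.symm
      rcases h20.lt_or_eq with hb | hb
      · apply fin
        have e : orient v y z = t * orient v x z := by
          unfold orient
          rw [ht.2.1, ht.2.2]
          ring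
        rw [e] at hb
        exact (mul_pos_iff_of_pos_left ht.1).1 hb
      · obtain ⟨s, hs⟩ := par_of py pz hb.symm
        have ht1 := par_ne ht hxy
        rw [before_par px ht] at h1
        rw [before_par py hs, side ht] at h2
        have hst := par_trans ht hs
        rw [before_par px hst]
        have hne : s * t ≠ 1 → x ≠ z := by
          intro h
          rintro rfl
          apply h
          obtain ⟨_, e1, e2⟩ := hst
          exact (mul_cancel' px (by rw [one_mul]; exact e1) (by rw [one_mul]; exact e2)).symm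
        have hs0 := hs.1
        have ht0 := ht.1
        generalize (∀ c ∈ P, 0 ≤ orient v x c) = A at h1 h2 ⊢
        by_cases hA : A
        · simp only [hA, true_and, not_true_eq_false, false_and, or_false] at h1 h2 ⊢
          have ht2 : 1 < t := lt_of_le_of_ne h1 ht1.symm
          have h3 : 1 < s * t := by nlinarith
          exact ⟨hne h3.ne', h3.le⟩
        · simp only [hA, false_and, not_false_eq_true, true_and, false_or] at h1 h2 ⊢
          have ht2 : t < 1 := lt_of_le_of_ne h1 ht1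
          have h3 : s * t < 1 := by nlinarith
          exact ⟨hne h3.ne, h3.le⟩

end

end Q14NCH
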