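import Pool.Agent.Q14.NCH.Stmts2

/-! MP_f3bbeb_co, crowd lemma NCH.TaskRankIso (helper37). -/

namespace Q14NCH

namespace RankIsoAux

theorem hasRank_image {α β : Type} [PartialOrder α] [PartialOrder β] (e : α ≃o β) {x : α} {i : ℕ}
    (h : HasRank x i) : HasRank (e x) i := by
  obtain ⟨c, hc, hx, hi⟩ := h
  refine ⟨e '' c, hc.image e, Set.mem_image_of_mem _ hx, ?_⟩
  have hset : {y | y ∈ e '' c ∧ y < e x} = e '' {y | y ∈ c ∧ y < x} := by
    ext y
    simp only [Set.mem_ofPred_eq, Set.mem_image]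
    constructor
    · rintro ⟨⟨z, hz, rfl⟩, hlt⟩
      exact ⟨z, ⟨hz, e.lt_iff_lt.1 hlt⟩, rfl⟩
    · rintro ⟨z, ⟨hz, hlt⟩, rfl⟩
      exact ⟨⟨z, hz, rfl⟩, e.lt_iff_lt.2 hlt⟩
  rw [hset, Set.ncard_image_of_injective _ e.injective, hi]

theorem count {α β : Type} [PartialOrder α] [PartialOrder β] (e : α ≃o β) (i : ℕ) :
    {x : β | HasRank x i}.ncard = {x : α | HasRank x i}.ncard := by
  have hset : {x : β | HasRank x i} = e '' {x : α | HasRank x i} := by
    ext y
    simp only [Set.mem_ofPred_eq, Set.mem_image]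
    constructor
    · intro h
      exact ⟨e.symm y, hasRank_image e.symm h, by simp⟩
    · rintro ⟨z, hz, rfl⟩
      exact hasRank_image e hz
  rw [hset, Set.ncard_image_of_injective _ e.injective]

end RankIsoAux

theorem RankIso : TaskRankIso := by
  rintro α β _ _ ⟨e⟩ ⟨N, hN, hs⟩
  refine ⟨N, ?_, ?_⟩
  · intro c hc
    have h := hN (e.symm '' c) (hc.image e.symm)
    rwa [Set.ncard_image_of_injective _ e.symm.injective] at h
  · intro i hi
    rw [RankIsoAux.count e i, RankIsoAux.count e (N - i)]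
    exact hs i hi

end Q14NCH
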