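import Pool.Agent.Q14.NCH.Stmts2

namespace Q14NCH

namespace TSort

theorem aux (α : Type) [Fintype α] (r : α → α → Prop)
    (h1 : ∀ x y, x ≠ y → (r x y ∨ r y x) ∧ ¬ (r x y ∧ r y x))
    (h2 : ∀ x y z, x ≠ y → y ≠ z → r x y → r y z → r x z) (k : ℕ) (hk : Fintype.card α = k) :
    ∃ f : Fin k → α, Function.Injective f ∧ Function.Surjective f ∧
      ∀ i j, i < j → r (f i) (f j) := by
  classical
  let inst : LinearOrder α :=
    { le := fun x y => x = y ∨ r x y
      le_refl := fun x => Or.inl rfl
      le_trans := by
        rintro x y z (rfl | hxy) hyz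
        · exact hyz
        · rcases hyz with rfl | hyz
          · exact Or.inr hxy
          · by_cases hx : x = y
            · subst hx
              exact Or.inr hyz
            · by_cases hy : y = z
              · subst hy
                exact Or.inr hxy
              · exact Or.inr (h2 x y z hx hy hxy hyz)
      le_antisymm := by
        rintro x y hxy hyx
        by_contra hne
        rcases hxy with e | hxy
        · exact hne e
        · rcases hyx with e | hyx
          · exact hne e.symm
          · exact (h1 x y hne).2 ⟨hxy, hyx⟩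
      le_total := by
        intro x y
        by_cases hne : x = y
        · exact Or.inl (Or.inl hne)
        · rcases (h1 x y hne).1 with h | h
          · exact Or.inl (Or.inr h)
          · exact Or.inr (Or.inr h)
      toDecidableLE := Classical.decRel _ }
  let e : Fin k ≃o α := Fintype.orderIsoFinOfCardEq _ hk
  refine ⟨e, e.injective, e.surjective, ?_⟩
  intro i j hij
  have hle : e i ≤ e j := e.monotone hij.le
  have hne : e i ≠ e j := fun h => (ne_of_lt hij) (e.injective h)
  rcases hle with h | h
  · exact absurd h hne
  · exact h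

end TSort

theorem Sort_proof : TaskSort := by
  classical
  intro S r h1 h2
  obtain ⟨f, hf1, hf2, hf3⟩ := TSort.aux {x // x ∈ S} (fun x y => r x.1 y.1)
    (fun x y hne => h1 x.1 x.2 y.1 y.2 (fun e => hne (Subtype.ext e)))
    (fun x y z hxy hyz h3 h4 => (h2 x.1 x.2 y.1 y.2 z.1 z.2 (fun e => hxy (Subtype.ext e))
      (fun e => hyz (Subtype.ext e)) h3 h4).2) S.card (Fintype.card_coe S)
  refine ⟨fun i => (f i).1, ?_, ?_, hf3⟩
  · intro i j hij
    exact hf1 (Subtype.ext hij)
  · ext x
    constructor
    · rintro ⟨i, rfl⟩
      exact (f i).2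
    · intro hx
      obtain ⟨i, hi⟩ := hf2 ⟨x, hx⟩
      exact ⟨i, by simp [hi]⟩

end Q14NCH
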