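import Mathlib
import Pool.Agent.Q14.NCH.Stmts2

set_option autoImplicit false

namespace Q14NCH

private theorem supp_tri {S : Set Plane} (hS : Convex ℝ S) {v y c z : Plane} (hv : v ∈ S) (hy : y ∈ S)
    (hc : c ∈ S) (hD : orient v y c ≠ 0) (h1 : 0 ≤ orient y c z / orient v y c)
    (h2 : 0 ≤ orient c v z / orient v y c) (h3 : 0 ≤ orient v y z / orient v y c) : z ∈ S := by
  have hsum : orient y c z / orient v y c + orient c v z / orient v y c +
      orient v y z / orient v y c = 1 := by
    field_simp
    unfold orient
    ring
  have key := hS.sum_mem (t := (Finset.univ : Finset (Fin 3)))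
    (w := ![orient y c z / orient v y c, orient c v z / orient v y c, orient v y z / orient v y c])
    (z := ![v, y, c])
    (by
      intro i _
      fin_cases i
      · simpa using h1
      · simpa using h2
      · simpa using h3)
    (by simpa [Fin.sum_univ_three] using hsum)
    (by
      intro i _
      fin_cases i
      · simpa using hv
      · simpa using hy
      · simpa using hc)
  have e : ∑ i : Fin 3, (![orient y c z / orient v y c, orient c v z / orient v y c,
      orient v y z / orient v y c] : Fin 3 → ℝ) i • (![v, y, c] : Fin 3 → Plane) i = z := by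
    rw [Fin.sum_univ_three]
    simp only [Matrix.cons_val_zero, Matrix.cons_val_one, Matrix.cons_val_two, Matrix.head_cons,
      Matrix.tail_cons, Matrix.cons_val]
    ext
    · simp only [Prod.fst_add, Prod.smul_fst, smul_eq_mul]
      field_simp
      unfold orient
      ring
    · simp only [Prod.snd_add, Prod.smul_snd, smul_eq_mul]
      field_simp
      unfold orient
      ring
  rw [e] at key
  exact key

private theorem supp_cont (a b : Plane) (D : ℝ) : Continuous fun z : Plane => orient a b z / D := by
  unfold orient
  fun_prop

theorem Supp : TaskSupp := by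
  intro P hP v hv y hy x hx hxv hxy hseg
  by_contra hcon
  push Not at hcon
  obtain ⟨⟨c', hc', h'⟩, ⟨c, hc, h⟩⟩ := hcon
  obtain ⟨a, t, ha, ht, hat, rfl⟩ := hseg
  have ha' : 0 < a := by
    rcases ha.lt_or_eq with h0 | h0
    · exact h0
    · exfalso
      apply hxy
      rw [← h0] at hat ⊢
      have : t = 1 := by linarith
      rw [this]
      simp
  have ht' : 0 < t := by
    rcases ht.lt_or_eq with h0 | h0
    · exact h0
    · exfalso
      apply hxv
      rw [← h0] at hat ⊢
      have : a = 1 := by linarith
      rw [this]
      simp
  have hmem : ∀ w ∈ P, w ∈ convexHull ℝ (P : Set Plane) := fun w hw => subset_convexHull ℝ _ hw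
  have hC := convex_convexHull ℝ (P : Set Plane)
  -- values at the point of the segment
  have e1 : ∀ w : Plane, orient y w (a • v + t • y) = a * orient v y w := by
    intro w
    have : a = 1 - t := by linarith
    subst this
    simp only [orient, Prod.fst_add, Prod.smul_fst, Prod.snd_add, Prod.smul_snd, smul_eq_mul]
    ring
  have e2 : ∀ w : Plane, orient w v (a • v + t • y) = t * orient v y w := by
    intro w
    have : a = 1 - t := by linarith
    subst this
    simp only [orient, Prod.fst_add, Prod.smul_fst, Prod.snd_add, Prod.smul_snd, smul_eq_mul]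
    ring
  have hne : orient v y c ≠ 0 := h.ne'
  have hne' : orient v y c' ≠ 0 := h'.ne
  let U : Set Plane := {z | 0 < orient y c z / orient v y c ∧ 0 < orient c v z / orient v y c ∧
    0 < orient y c' z / orient v y c' ∧ 0 < orient c' v z / orient v y c'}
  have hU : IsOpen U := by
    refine ((isOpen_lt continuous_const (supp_cont y c _)).inter
      ((isOpen_lt continuous_const (supp_cont c v _)).inter
      ((isOpen_lt continuous_const (supp_cont y c' _)).inter
      (isOpen_lt continuous_const (supp_cont c' v _)))))
  have hUC : U ⊆ convexHull ℝ (P : Set Plane) := by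
    rintro z ⟨z1, z2, z3, z4⟩
    rcases le_total 0 (orient v y z) with hz | hz
    · exact supp_tri hC (hmem v hv) (hmem y hy) (hmem c hc) hne z1.le z2.le (div_nonneg hz h.le)
    · exact supp_tri hC (hmem v hv) (hmem y hy) (hmem c' hc') hne' z3.le z4.le
        (div_nonneg_of_nonpos hz h'.le)
  have hxU : (a • v + t • y) ∈ U := by
    refine ⟨?_, ?_, ?_, ?_⟩
    · rw [e1, mul_div_assoc, div_self hne, mul_one]; exact ha'
    · rw [e2, mul_div_assoc, div_self hne, mul_one]; exact ht'
    · rw [e1, mul_div_assoc, div_self hne', mul_one]; exact ha'
    · rw [e2, mul_div_assoc, div_self hne', mul_one]; exact ht'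
  have hint : (a • v + t • y) ∈ interior (convexHull ℝ (P : Set Plane)) :=
    mem_interior.2 ⟨U, hUC, hU, hxU⟩
  exact (hP.2 _ hx).2 hint

end Q14NCH
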