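import Pool.Agent.Q14.NCH.Stmts2

/-! Three points in the order have nonnegative orientation. -/

set_option autoImplicit false

namespace Q14NCH

namespace ThreeAux

lemma zero_of2 {a1 a2 b1 b2 w1 w2 : ℝ} (hD : a1 * b2 - a2 * b1 ≠ 0) (h1 : a1 * w2 - a2 * w1 = 0)
    (h2 : w1 * b2 - w2 * b1 = 0) : w1 = 0 ∧ w2 = 0 := by
  constructor
  · have h : (a1 * b2 - a2 * b1) * w1 = 0 := by linear_combination a1 * h2 + b1 * h1
    rcases mul_eq_zero.1 h with h | h
    · exact absurd h hD
    · exact h
  · have h : (a1 * b2 - a2 * b1) * w2 = 0 := by linear_combination b2 * h1 + a2 * h2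
    rcases mul_eq_zero.1 h with h | h
    · exact absurd h hD
    · exact h

lemma seg1 {v x y z : Plane} (hD : 0 < orient v x z) (h0 : orient v x y = 0)
    (hb : 0 ≤ orient v y z) (hb' : orient v y z ≤ orient v x z) : y ∈ segment ℝ v x := by
  have hmul : orient v y z / orient v x z * orient v x z = orient v y z := div_mul_cancel₀ _ hD.ne'
  have ht0 : 0 ≤ orient v y z / orient v x z := div_nonneg hb hD.le
  have ht1 : orient v y z / orient v x z ≤ 1 := (div_le_one hD).2 hb'
  generalize orient v y z / orient v x z = t at hmul ht0 ht1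
  unfold orient at hD h0 hmul
  have h := zero_of2 (a1 := x.1 - v.1) (a2 := x.2 - v.2) (b1 := z.1 - v.1) (b2 := z.2 - v.2)
    (w1 := y.1 - v.1 - t * (x.1 - v.1)) (w2 := y.2 - v.2 - t * (x.2 - v.2)) hD.ne'
    (by linear_combination h0) (by linear_combination (-1 : ℝ) * hmul)
  refine ⟨1 - t, t, by linarith, ht0, by ring, Prod.ext ?_ ?_⟩
  · show (1 - t) * v.1 + t * x.1 = y.1
    linarith [h.1]
  · show (1 - t) * v.2 + t * x.2 = y.2
    linarith [h.2]

lemma seg2 {v x y z : Plane} (hD : 0 < orient v x z) (h0 : orient v y z = 0)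
    (ha : 0 ≤ orient v x y) (ha' : orient v x y ≤ orient v x z) : y ∈ segment ℝ v z := by
  have hmul : orient v x y / orient v x z * orient v x z = orient v x y := div_mul_cancel₀ _ hD.ne'
  have ht0 : 0 ≤ orient v x y / orient v x z := div_nonneg ha hD.le
  have ht1 : orient v x y / orient v x z ≤ 1 := (div_le_one hD).2 ha'
  generalize orient v x y / orient v x z = t at hmul ht0 ht1
  unfold orient at hD h0 hmul
  have h := zero_of2 (a1 := x.1 - v.1) (a2 := x.2 - v.2) (b1 := z.1 - v.1) (b2 := z.2 - v.2)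
    (w1 := y.1 - v.1 - t * (z.1 - v.1)) (w2 := y.2 - v.2 - t * (z.2 - v.2)) hD.ne'
    (by linear_combination (-1 : ℝ) * hmul) (by linear_combination h0)
  refine ⟨1 - t, t, by linarith, ht0, by ring, Prod.ext ?_ ?_⟩
  · show (1 - t) * v.1 + t * z.1 = y.1
    linarith [h.1]
  · show (1 - t) * v.2 + t * z.2 = y.2
    linarith [h.2]

lemma eq_of_seg {v x y : Plane} (h1 : x ∈ segment ℝ v y) (h2 : y ∈ segment ℝ v x) : x = y :=
  wbtw_swap_right_iff ℝ v |>.1 ⟨mem_segment_iff_wbtw.1 h1, mem_segment_iff_wbtw.1 h2⟩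

end ThreeAux

open ThreeAux in
theorem Three : TaskThree := by
  intro hS hI P hP v hv x hx y hy z hz hxv hyv hzv hxy hyz hxz h1 h2 h3
  by_contra hneg
  rw [not_le] at hneg
  have hvP := hv.1
  have id1 : orient x y z = orient v x y + orient v y z - orient v x z := by unfold orient; ring
  have a0 : 0 ≤ orient v x y := by
    rcases h1 with h | h
    · exact h.le
    · exact h.1.ge
  have b0 : 0 ≤ orient v y z := by
    rcases h2 with h | h
    · exact h.le
    · exact h.1.ge
  have D0 : 0 < orient v x z := by linarith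
  rcases eq_or_lt_of_le a0 with ha | ha
  · have hy' : y ∈ segment ℝ v x := seg1 D0 ha.symm b0 (by linarith)
    rcases hS P hP v hvP x hx y hy hyv hxy.symm hy' with h | h
    · rcases h1 with h1 | ⟨_, ⟨_, h1⟩ | ⟨h1, _⟩⟩
      · exact absurd h1 (by rw [← ha]; exact lt_irrefl _)
      · exact hxy (eq_of_seg h1 hy')
      · exact h1 h
    · exact absurd (h z hz) (not_le.2 D0)
  · rcases eq_or_lt_of_le b0 with hb | hb
    · have hy' : y ∈ segment ℝ v z := seg2 D0 hb.symm a0 (by linarith)
      rcases h2 with h2 | ⟨_, ⟨h2, _⟩ | ⟨_, h2⟩⟩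
      · exact absurd h2 (by rw [← hb]; exact lt_irrefl _)
      · have h4 := h2 x hx
        have h5 : orient v y x = - orient v x y := by unfold orient; ring
        linarith
      · exact hyz (eq_of_seg hy' h2)
    · refine hI P hP v hvP x hx z hz y hy ⟨ha, ?_, ?_⟩
      · have h5 : orient x z y = - orient x y z := by unfold orient; ring
        linarith
      · have h5 : orient z v y = orient v y z := by unfold orient; ring
        linarith

end Q14NCH
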