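import Pool.Agent.Q14.NCH.Stmts

set_option autoImplicit false

namespace Q14NCH

private theorem uniq_key (n : ℕ) (u v : ℕ → ℕ) (hu : Seq n u) (hv : Seq n v)
    (h : ∀ i j, i < n → j < n → Rel u i j → Rel v i j) (j : ℕ) (hj : j + 1 < n)
    (ih : ∀ i ≤ j, u i = v i) : ¬ u (j + 1) < v (j + 1) := by
  intro hlt
  have h1 := hv.2.2 j
  have h2 := ih j le_rfl
  have h3 : u (j + 1) ≤ u j := by omega
  set a := u (j + 1) with ha
  have h0 : u 0 ≤ a := by rw [hu.1]; exact Nat.zero_le _
  have hi1 : u (Nat.findGreatest (fun i => u i ≤ a) j) ≤ a :=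
    Nat.findGreatest_spec (P := fun i => u i ≤ a) (Nat.zero_le j) h0
  have hi2 : Nat.findGreatest (fun i => u i ≤ a) j ≤ j := Nat.findGreatest_le j
  have hi3 : ∀ k, Nat.findGreatest (fun i => u i ≤ a) j < k → k ≤ j → ¬ u k ≤ a :=
    fun k hk1 hk2 => Nat.findGreatest_is_greatest (P := fun i => u i ≤ a) hk1 hk2
  set i := Nat.findGreatest (fun i => u i ≤ a) j with hi
  clear_value i
  have hia : u i = a := by
    rcases Nat.lt_or_ge i j with hlt' | hge
    · have h4 := hi3 (i + 1) (Nat.lt_succ_self i) hlt'
      have h5 := hu.2.2 i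
      omega
    · have h6 : i = j := le_antisymm hi2 hge
      subst h6
      omega
  have hrel : Rel u i (j + 1) := by
    refine ⟨hia.trans ha, fun k hk1 hk2 => ?_⟩
    have hk1' : i ≤ k := by omega
    have hk2' : k ≤ j + 1 := by omega
    rcases Nat.lt_or_ge i k with hik | hik
    · rcases Nat.lt_or_ge j k with hjk | hjk
      · have : k = j + 1 := by omega
        rw [this, hia]
      · have := hi3 k hik hjk
        omega
    · have : k = i := by omega
      rw [this]
  have := (h i (j + 1) (by omega) hj hrel).1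
  have h7 := ih i hi2
  omega

theorem Uniq : TaskUniq := by
  intro n u v hu hv h
  funext j
  induction j using Nat.strong_induction_on with
  | _ j ih =>
    cases j with
    | zero => rw [hu.1, hv.1]
    | succ j =>
      rcases Nat.lt_or_ge (j + 1) n with hj | hj
      · have k1 := uniq_key n u v hu hv (fun i j hi hj => (h i j hi hj).1) j hj
          (fun i hi => ih i (by omega))
        have k2 := uniq_key n v u hv hu (fun i j hi hj => (h i j hi hj).2) j hj
          (fun i hi => (ih i (by omega)).symm)
        omega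
      · rw [hu.2.1 _ hj, hv.2.1 _ hj]

end Q14NCH
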